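import Pool.Agent.H73.RiemQuot
import Pool.Agent.H73.PQB
import Pool.Agent.H73.PQH

/-!
# A simply connected weakly symmetric space: the model

`M = ℂ × S^3` with the metric `|dw|^2 + |dz + Im (conj w dw) i z|^2`.
Model level: pairs `p = (w, z) : PP = ℂ × HQ` with `‖z‖ = 1` (`SS`), speed `spd`, curves `PCur`, length `PLen`,
distance `pD` (infimum over `C^1` curves on `[0, 1]`).
Chart level: `EE = HQ × ℝ`, the open set `UU = {x | x.1 ≠ 0}`, `toP x = (log ‖q‖ + i t, q / ‖q‖)` for `x = (q, t)`,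
its inverse `fromP`, the metric form `FF`.
-/

open scoped Manifold ContDiff Topology ENNReal Quaternion
open Set Bundle Bornology MeasureTheory Filter

noncomputable section

namespace Pool.Agent.H14.HC

open Pool.Agent.H73 (HQ qi qj)

/-- the ambient space of the model -/
abbrev PP : Type := ℂ × HQ

/-- `Im (conj w * w')` -/
def nu (w w' : ℂ) : ℝ := w.re * w'.im - w.im * w'.re

/-- the vertical part of a velocity -/
def om (p v : PP) : HQ := v.2 + nu p.1 v.1 • (qi * p.2)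

/-- the speed of the velocity `v` at the point `p` -/
def spd (p v : PP) : ℝ := √(‖v.1‖ ^ 2 + ‖om p v‖ ^ 2)

/-- the points of the model: `ℂ × S^3` -/
def SS : Set PP := {p | ‖p.2‖ = 1}

/-- a `C^1` curve on `[0, 1]` in `SS` from `p` to `q` -/
structure PCur (p q : PP) (c : ℝ → PP) : Prop where
  smooth : ContDiffOn ℝ 1 c (Icc 0 1)
  mem : ∀ t ∈ Icc (0 : ℝ) 1, c t ∈ SS
  left : c 0 = p
  right : c 1 = q

/-- the length of a curve of the model -/
def PLen (c : ℝ → PP) : ℝ≥0∞ :=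
  ∫⁻ t in Icc (0 : ℝ) 1, ENNReal.ofReal (spd (c t) (derivWithin c (Icc 0 1) t))

/-- the distance of the model -/
def pD (p q : PP) : ℝ≥0∞ := ⨅ (c : ℝ → PP) (_ : PCur p q c), PLen c

/-- the space on which the manifolds are modelled -/
abbrev EE : Type := HQ × ℝ

/-- the inner product as a bilinear map -/
abbrev ip (E : Type) [NormedAddCommGroup E] [InnerProductSpace ℝ E] : E →L[ℝ] E →L[ℝ] ℝ :=
  Pool.Agent.H73.PQ.ip E

/-- a linear isometry `J` with `J x ⊥ x` (for the quaternions: left multiplication by `i`) -/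
class HasJ (H : Type) [NormedAddCommGroup H] [InnerProductSpace ℝ H] where
  /-- the map -/
  J : H →L[ℝ] H
  norm_J : ∀ x, ‖J x‖ = ‖x‖
  inner_J : ∀ x, inner ℝ x (J x) = (0 : ℝ)

section generic

variable {E H : Type} [NormedAddCommGroup E] [NormedSpace ℝ E] [NormedAddCommGroup H]
  [InnerProductSpace ℝ H]

/-- the derivative of `log ‖A x‖` at `x` -/
def dsg (A : E →L[ℝ] H) (x : E) : E →L[ℝ] ℝ := (‖A x‖ ^ 2)⁻¹ • (ip H (A x)).comp A

variable [HasJ H]

/-- `v ↦ A v + Im (conj w w') J (A x)`, where `w = log ‖A x‖ + i B x` and `w'` is its derivative -/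
def AL (A : E →L[ℝ] H) (B : E →L[ℝ] ℝ) (x : E) : E →L[ℝ] H :=
  A + (Real.log ‖A x‖ • B - B x • dsg A x).smulRight (HasJ.J (A x))

/-- the metric form in the chart -/
def FF (A : E →L[ℝ] H) (B : E →L[ℝ] ℝ) (x : E) : E →L[ℝ] E →L[ℝ] ℝ :=
  (‖A x‖ ^ 2)⁻¹ • (ip H).bilinearComp (AL A B x) (AL A B x) + (ip ℝ).bilinearComp B B

omit [HasJ H] in
lemma dsg_apply (A : E →L[ℝ] H) (x v : E) :
    dsg A x v = (‖A x‖ ^ 2)⁻¹ * inner ℝ (A x) (A v) := rfl

lemma AL_apply (A : E →L[ℝ] H) (B : E →L[ℝ] ℝ) (x v : E) :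
    AL A B x v = A v + (Real.log ‖A x‖ * B v - B x * dsg A x v) • (HasJ.J (A x) : H) := rfl

lemma FF_apply (A : E →L[ℝ] H) (B : E →L[ℝ] ℝ) (x v w : E) :
    FF A B x v w = (‖A x‖ ^ 2)⁻¹ * inner ℝ (AL A B x v) (AL A B x w) + inner ℝ (B v) (B w) := rfl

end generic

/-- a smooth positive definite form on an open set of `E` -/
class MM (E : Type) [NormedAddCommGroup E] [NormedSpace ℝ E] where
  /-- the open set -/
  U : Set E
  isOpen_U : IsOpen U
  /-- the form -/
  F : E → E →L[ℝ] E →L[ℝ] ℝ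
  F_symm : ∀ x v w, F x v w = F x w v
  F_pos : ∀ x ∈ U, ∀ v, v ≠ 0 → 0 < F x v v
  F_smooth : ∀ x ∈ U, ContDiffAt ℝ ∞ F x
  F_vonN : ∀ x ∈ U, IsVonNBounded ℝ {v : E | F x v v < 1}

section MMdefs

variable {E : Type} [NormedAddCommGroup E] [NormedSpace ℝ E] [MM E]

/-- a linear map which preserves the open set and the form -/
structure IsDeck (L : E →L[ℝ] E) : Prop where
  mem : ∀ x ∈ MM.U (E := E), L x ∈ MM.U (E := E)
  form : ∀ x ∈ MM.U (E := E), ∀ v w, MM.F (L x) (L v) (L w) = MM.F x v w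

/-- the norm of a tangent vector in the chart -/
def nF (x v : E) : ℝ := √(MM.F x v v)

/-- a `C^1` curve on `[0, 1]` in `U` from `x` to `y` -/
structure ECur (x y : E) (c : ℝ → E) : Prop where
  smooth : ContDiffOn ℝ 1 c (Icc 0 1)
  mem : ∀ t ∈ Icc (0 : ℝ) 1, c t ∈ MM.U (E := E)
  left : c 0 = x
  right : c 1 = y

/-- the length of a curve in the chart -/
def FLen (c : ℝ → E) (a b : ℝ) : ℝ≥0∞ :=
  ∫⁻ t in Icc a b, ENNReal.ofReal (nF (c t) (derivWithin c (Icc a b) t))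

/-- the distance in the chart -/
def fD (x y : E) : ℝ≥0∞ := ⨅ (c : ℝ → E) (_ : ECur x y c), FLen c 0 1

end MMdefs

/-- from the chart to the model -/
def toP (x : EE) : PP := (⟨Real.log ‖x.1‖, x.2⟩, ‖x.1‖⁻¹ • x.1)

/-- from the model to the chart -/
def fromP (p : PP) : EE := (Real.exp p.1.re • p.2, p.1.im)

/-- right multiplication of the first component -/
def RM (g : HQ) : EE →L[ℝ] EE :=
  (((ContinuousLinearMap.mul ℝ HQ).flip g).comp (ContinuousLinearMap.fst ℝ HQ ℝ)).prod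
    (ContinuousLinearMap.snd ℝ HQ ℝ)

lemma RM_apply (g : HQ) (x : EE) : RM g x = (x.1 * g, x.2) := rfl

/-- `cos t + sin t i` -/
def exq (t : ℝ) : HQ := ⟨Real.cos t, Real.sin t, 0, 0⟩

/-- the distance of `z` to the circle `{exq t}` in `S^3` -/
def dl (z : HQ) : ℝ := Real.arccos √(z.re ^ 2 + z.imI ^ 2)

/-- the base point -/
def oo : PP := (0, 1)

/-- a smooth map of the model which preserves `SS` and the speeds -/
structure PIso (Φ : PP → PP) : Prop where
  smooth : ContDiff ℝ 1 Φ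
  mem : ∀ p ∈ SS, Φ p ∈ SS
  spd_eq : ∀ p ∈ SS, ∀ v : PP, inner ℝ p.2 v.2 = (0 : ℝ) → spd (Φ p) (fderiv ℝ Φ p v) = spd p v

/-- an invertible symmetry of the model -/
structure PEq (Φ Ψ : PP → PP) : Prop where
  fst : PIso Φ
  snd : PIso Ψ
  left : ∀ p ∈ SS, Ψ (Φ p) = p
  right : ∀ p ∈ SS, Φ (Ψ p) = p

/-- right multiplication -/
def Rg (g : HQ) (p : PP) : PP := (p.1, p.2 * g)

/-- translation -/
def Ta (a : ℂ) (p : PP) : PP := (p.1 + a, exq (-nu a p.1) * p.2)

/-- rotation -/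
def Ro (e : ℂ) (p : PP) : PP := (e * p.1, p.2)

/-- left multiplication by `cos t + sin t i` -/
def Lu (t : ℝ) (p : PP) : PP := (p.1, exq t * p.2)

/-- reflection -/
def Sj (p : PP) : PP := ((starRingEnd ℂ) p.1, qj * p.2)

end Pool.Agent.H14.HC
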