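import Pool.Agent.H14.HC.EPb

/-!
# Row EP: the chart and the model have the same distance

`fD_eq`: `≥`: if `ECur x y c` then `PCur (toP x) (toP y) (toP ∘ c)` with `PLen (toP ∘ c) = FLen c 0 1` (`spd_toP`, `contDiffAt_toP`).
`≤`: if `PCur (toP x) (toP y) c` then `e = fromP ∘ c` is a curve `ECur x y e`, `toP ∘ e = c` on `Icc 0 1`, so
`FLen e 0 1 = PLen (toP ∘ e) = PLen c` (`derivWithin_congr`, `setLIntegral_congr_fun`).
-/

open scoped Manifold ContDiff Topology ENNReal Quaternion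
open Set Bundle Bornology MeasureTheory Filter

noncomputable section

namespace Pool.Agent.H14.HC

open Pool.Agent.H73 (HQ qi qj)

private lemma EP_len {x y : EE} {c : ℝ → EE} (hc : ECur x y c) : PLen (toP ∘ c) = FLen c 0 1 := by
  unfold PLen FLen
  refine setLIntegral_congr_fun measurableSet_Icc (fun t ht => ?_)
  have hmem : (c t).1 ≠ 0 := hc.mem t ht
  have hd : DifferentiableWithinAt ℝ c (Icc 0 1) t :=
    (hc.smooth.differentiableOn (by norm_num)) t ht
  have hP : DifferentiableAt ℝ toP (c t) := (contDiffAt_toP hmem).differentiableAt (by norm_num)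
  have hder : derivWithin (toP ∘ c) (Icc 0 1) t = fderiv ℝ toP (c t) (derivWithin c (Icc 0 1) t) :=
    (hP.hasFDerivAt.comp_hasDerivWithinAt t hd.hasDerivWithinAt).derivWithin
      (uniqueDiffOn_Icc zero_lt_one t ht)
  change ENNReal.ofReal (spd (toP (c t)) (derivWithin (toP ∘ c) (Icc 0 1) t)) =
    ENNReal.ofReal (nF (c t) (derivWithin c (Icc 0 1) t))
  rw [hder, spd_toP hmem]

private lemma EP_cur {x y : EE} {c : ℝ → EE} (hc : ECur x y c) : PCur (toP x) (toP y) (toP ∘ c) := by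
  refine ⟨?_, fun t ht => toP_mem (hc.mem t ht), ?_, ?_⟩
  · intro t ht
    exact ContDiffAt.comp_contDiffWithinAt t (contDiffAt_toP (hc.mem t ht)) (hc.smooth t ht)
  · change toP (c 0) = toP x
    rw [hc.left]
  · change toP (c 1) = toP y
    rw [hc.right]

private lemma EP_cur' {x y : EE} (hx : x.1 ≠ 0) (hy : y.1 ≠ 0) {c : ℝ → PP}
    (hc : PCur (toP x) (toP y) c) : ECur x y (fromP ∘ c) := by
  refine ⟨contDiff_fromP.comp_contDiffOn hc.smooth, fun t ht => ?_, ?_, ?_⟩
  · exact fromP_ne (hc.mem t ht)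
  · change fromP (c 0) = x
    rw [hc.left, fromP_toP hx]
  · change fromP (c 1) = y
    rw [hc.right, fromP_toP hy]

private lemma EP_len' {x y : EE} {c : ℝ → PP} (hc : PCur (toP x) (toP y) c) :
    PLen (toP ∘ (fromP ∘ c)) = PLen c := by
  have heq : EqOn (toP ∘ (fromP ∘ c)) c (Icc 0 1) := fun t ht => toP_fromP (hc.mem t ht)
  unfold PLen
  refine setLIntegral_congr_fun measurableSet_Icc (fun t ht => ?_)
  rw [derivWithin_congr heq (heq ht), heq ht]

theorem fD_eq {x y : EE} (hx : x.1 ≠ 0) (hy : y.1 ≠ 0) : fD x y = pD (toP x) (toP y) := by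
  apply le_antisymm
  · refine le_iInf₂ (fun c hc => ?_)
    refine (iInf₂_le (fromP ∘ c) (EP_cur' hx hy hc)).trans (le_of_eq ?_)
    rw [← EP_len (EP_cur' hx hy hc), EP_len' hc]
  · refine le_iInf₂ (fun c hc => ?_)
    refine (iInf₂_le (toP ∘ c) (EP_cur hc)).trans (le_of_eq (EP_len hc))

end Pool.Agent.H14.HC
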