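import Pool.Agent.H14.HC.JQ

/-!
# Row EPa: chart and model, basic facts

`toP x = (⟨log ‖x.1‖, x.2⟩, ‖x.1‖⁻¹ • x.1)`, `fromP p = (exp p.1.re • p.2, p.1.im)`.
-/

open scoped Manifold ContDiff Topology ENNReal Quaternion
open Set Bundle Bornology MeasureTheory Filter

noncomputable section

namespace Pool.Agent.H14.HC

open Pool.Agent.H73 (HQ qi qj)

lemma toP_mem {x : EE} (hx : x.1 ≠ 0) : toP x ∈ SS := by
  change ‖‖x.1‖⁻¹ • x.1‖ = 1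
  rw [norm_smul, norm_inv, norm_norm]
  exact inv_mul_cancel₀ (norm_ne_zero_iff.2 hx)

lemma fromP_ne {p : PP} (hp : p ∈ SS) : (fromP p).1 ≠ 0 := by
  have hp' : ‖p.2‖ = 1 := hp
  change Real.exp p.1.re • p.2 ≠ 0
  refine smul_ne_zero (Real.exp_pos _).ne' ?_
  rw [← norm_ne_zero_iff, hp']
  exact one_ne_zero

lemma toP_fromP {p : PP} (hp : p ∈ SS) : toP (fromP p) = p := by
  have hp' : ‖p.2‖ = 1 := hp
  have h1 : ‖Real.exp p.1.re • p.2‖ = Real.exp p.1.re := by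
    rw [norm_smul, hp', mul_one, Real.norm_eq_abs, Real.abs_exp]
  change ((⟨Real.log ‖Real.exp p.1.re • p.2‖, p.1.im⟩ : ℂ),
    ‖Real.exp p.1.re • p.2‖⁻¹ • (Real.exp p.1.re • p.2)) = p
  rw [h1, Real.log_exp, inv_smul_smul₀ (Real.exp_pos _).ne']

lemma fromP_toP {x : EE} (hx : x.1 ≠ 0) : fromP (toP x) = x := by
  have h0 : 0 < ‖x.1‖ := norm_pos_iff.2 hx
  change (Real.exp (Real.log ‖x.1‖) • (‖x.1‖⁻¹ • x.1), x.2) = x
  rw [Real.exp_log h0, smul_inv_smul₀ h0.ne']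

lemma fromP_Rg (g : HQ) (p : PP) : fromP (Rg g p) = RM g (fromP p) := by
  rw [RM_apply]
  change (Real.exp p.1.re • (p.2 * g), p.1.im) = ((Real.exp p.1.re • p.2) * g, p.1.im)
  rw [smul_mul_assoc]

lemma toP_RM {g : HQ} (hg : ‖g‖ = 1) (x : EE) : toP (RM g x) = Rg g (toP x) := by
  rw [RM_apply]
  have h1 : ‖x.1 * g‖ = ‖x.1‖ := by rw [norm_mul, hg, mul_one]
  change ((⟨Real.log ‖x.1 * g‖, x.2⟩ : ℂ), ‖x.1 * g‖⁻¹ • (x.1 * g)) =
    ((⟨Real.log ‖x.1‖, x.2⟩ : ℂ), (‖x.1‖⁻¹ • x.1) * g)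
  rw [h1, smul_mul_assoc]

lemma contDiffAt_toP {x : EE} (hx : x.1 ≠ 0) : ContDiffAt ℝ 1 toP x := by
  have h1 : ContDiffAt ℝ 1 (fun y : EE => ‖y.1‖) x :=
    (contDiffAt_fst (p := x)).norm ℝ hx
  have h0 : ‖x.1‖ ≠ 0 := norm_ne_zero_iff.2 hx
  have h2 : ContDiffAt ℝ 1 (fun y : EE => Real.log ‖y.1‖) x := h1.log h0
  have h3 : ContDiffAt ℝ 1 (fun y : EE => (Real.log ‖y.1‖, y.2)) x :=
    h2.prodMk (contDiffAt_snd (p := x))
  have h4 : ContDiffAt ℝ 1 (fun y : EE => Complex.equivRealProdCLM.symm (Real.log ‖y.1‖, y.2)) x :=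
    (Complex.equivRealProdCLM.symm.contDiff.contDiffAt).comp x h3
  have h5 : ContDiffAt ℝ 1 (fun y : EE => ‖y.1‖⁻¹ • y.1) x :=
    (h1.inv h0).smul (contDiffAt_fst (p := x))
  exact h4.prodMk h5

lemma contDiff_fromP : ContDiff ℝ 1 fromP := by
  have h1 : ContDiff ℝ 1 (fun p : PP => p.1.re) := Complex.reCLM.contDiff.comp contDiff_fst
  have h2 : ContDiff ℝ 1 (fun p : PP => p.1.im) := Complex.imCLM.contDiff.comp contDiff_fst
  have h3 : ContDiff ℝ 1 (fun p : PP => Real.exp p.1.re • p.2) :=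
    (Real.contDiff_exp.comp h1).smul contDiff_snd
  exact h3.prodMk h2

end Pool.Agent.H14.HC
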