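import Pool.Agent.H14.HC.EPa

/-!
# Row EPb: the speed in the chart
-/

open scoped Manifold ContDiff Topology ENNReal Quaternion
open Set Bundle Bornology MeasureTheory Filter

noncomputable section

namespace Pool.Agent.H14.HC

open Pool.Agent.H73 (HQ qi qj)

private lemma EPb_line {x : EE} (hx : x.1 ≠ 0) (v : EE) : HasDerivAt (fun t : ℝ => toP (x + t • v))
    (((⟨dl' x v, v.2⟩ : ℂ), ‖x.1‖⁻¹ • (v.1 - dl' x v • x.1)) : PP) 0 := by
  have hr : 0 < ‖x.1‖ := norm_pos_iff.2 hx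
  have h1 : HasDerivAt (fun t : ℝ => x.1 + t • v.1) v.1 0 := by
    have h := ((hasDerivAt_id (0 : ℝ)).smul_const v.1).const_add x.1
    rwa [one_smul] at h
  have h0 : x.1 + (0 : ℝ) • v.1 = x.1 := by rw [zero_smul, add_zero]
  have h2 : HasDerivAt (fun t : ℝ => ‖x.1 + t • v.1‖ ^ 2) (2 * inner ℝ x.1 v.1) 0 := by
    have h := h1.norm_sq
    rwa [h0] at h
  have h3 : HasDerivAt (fun t : ℝ => ‖x.1 + t • v.1‖) (inner ℝ x.1 v.1 / ‖x.1‖) 0 := by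
    have h := h2.sqrt (by rw [h0]; positivity)
    rw [h0, Real.sqrt_sq hr.le] at h
    have e1 : (fun t : ℝ => √(‖x.1 + t • v.1‖ ^ 2)) = fun t : ℝ => ‖x.1 + t • v.1‖ := by
      funext t
      exact Real.sqrt_sq (norm_nonneg _)
    rw [e1] at h
    have e2 : 2 * inner ℝ x.1 v.1 / (2 * ‖x.1‖) = inner ℝ x.1 v.1 / ‖x.1‖ := by
      field_simp
    rwa [e2] at h
  have hne : ‖x.1 + (0 : ℝ) • v.1‖ ≠ 0 := by rw [h0]; exact hr.ne'
  have h4 : HasDerivAt (fun t : ℝ => Real.log ‖x.1 + t • v.1‖) (dl' x v) 0 := by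
    have h := h3.log hne
    rw [h0] at h
    have e2 : inner ℝ x.1 v.1 / ‖x.1‖ / ‖x.1‖ = dl' x v := by
      unfold dl'
      field_simp
    rwa [e2] at h
  have h5 : HasDerivAt (fun t : ℝ => ‖x.1 + t • v.1‖⁻¹ • (x.1 + t • v.1))
      (‖x.1‖⁻¹ • (v.1 - dl' x v • x.1)) 0 := by
    have h := (h3.fun_inv hne).smul h1
    rw [h0] at h
    have e2 : ‖x.1‖⁻¹ • v.1 + (-(inner ℝ x.1 v.1 / ‖x.1‖) / ‖x.1‖ ^ 2) • x.1 =
        ‖x.1‖⁻¹ • (v.1 - dl' x v • x.1) := by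
      rw [smul_sub, smul_smul, sub_eq_add_neg, ← neg_smul]
      congr 2
      unfold dl'
      field_simp
    rwa [e2] at h
  have h6 : HasDerivAt (fun t : ℝ => (⟨Real.log ‖x.1 + t • v.1‖, x.2 + t * v.2⟩ : ℂ))
      (⟨dl' x v, v.2⟩ : ℂ) 0 := by
    have e1 : (fun t : ℝ => (⟨Real.log ‖x.1 + t • v.1‖, x.2 + t * v.2⟩ : ℂ)) =
        fun t : ℝ => ((Real.log ‖x.1 + t • v.1‖ : ℝ) : ℂ) + ((x.2 + t * v.2 : ℝ) : ℂ) * Complex.I := by
      funext t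
      rw [Complex.mk_eq_add_mul_I]
    have e2 : (⟨dl' x v, v.2⟩ : ℂ) = ((dl' x v : ℝ) : ℂ) + ((v.2 : ℝ) : ℂ) * Complex.I := by
      rw [Complex.mk_eq_add_mul_I]
    rw [e1, e2]
    have g1 : HasDerivAt (fun t : ℝ => x.2 + t * v.2) v.2 0 := by
      have h := ((hasDerivAt_id (0 : ℝ)).mul_const v.2).const_add x.2
      rwa [one_mul] at h
    exact h4.ofReal_comp.add (g1.ofReal_comp.mul_const Complex.I)
  exact h6.prodMk h5

lemma spd_toP {x : EE} (hx : x.1 ≠ 0) (v : EE) : spd (toP x) (fderiv ℝ toP x v) = nF x v := by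
  have hr : 0 < ‖x.1‖ := norm_pos_iff.2 hx
  have hd : DifferentiableAt ℝ toP x := (contDiffAt_toP hx).differentiableAt (by norm_num)
  have h0 : x + (0 : ℝ) • v = x := by rw [zero_smul, add_zero]
  have hder : fderiv ℝ toP x v =
      (((⟨dl' x v, v.2⟩ : ℂ), ‖x.1‖⁻¹ • (v.1 - dl' x v • x.1)) : PP) := by
    have h1 : HasDerivAt (fun t : ℝ => x + t • v) v 0 := by
      have h := ((hasDerivAt_id (0 : ℝ)).smul_const v).const_add x
      rwa [one_smul] at h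
    have hd' : HasFDerivAt toP (fderiv ℝ toP x) ((fun t : ℝ => x + t • v) 0) := by
      simp only [h0]; exact hd.hasFDerivAt
    have h2 : HasDerivAt (toP ∘ (fun t : ℝ => x + t • v)) (fderiv ℝ toP x v) 0 :=
      HasFDerivAt.comp_hasDerivAt (0 : ℝ) hd' h1
    exact h2.unique (EPb_line hx v)
  rw [hder]
  set s : ℝ := dl' x v with hs
  set n : ℝ := Real.log ‖x.1‖ * v.2 - x.2 * s with hn
  have hom : om (toP x) (((⟨s, v.2⟩ : ℂ), ‖x.1‖⁻¹ • (v.1 - s • x.1)) : PP) =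
      ‖x.1‖⁻¹ • ((v.1 + n • (qi * x.1)) - s • x.1) := by
    change ‖x.1‖⁻¹ • (v.1 - s • x.1) + n • (qi * (‖x.1‖⁻¹ • x.1)) = _
    rw [mul_smul_comm, smul_comm n, ← smul_add]
    congr 1
    abel
  have hin : inner ℝ (v.1 + n • (qi * x.1)) x.1 = ‖x.1‖ ^ 2 * s := by
    rw [inner_add_left, inner_smul_left, real_inner_comm x.1 (qi * x.1), inner_qi_mul, mul_zero, add_zero,
      real_inner_comm, hs]
    unfold dl'
    field_simp
  have hw : ‖(v.1 + n • (qi * x.1)) - s • x.1‖ ^ 2 =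
      ‖v.1 + n • (qi * x.1)‖ ^ 2 - s ^ 2 * ‖x.1‖ ^ 2 := by
    rw [norm_sub_sq_real, inner_smul_right, hin, norm_smul, mul_pow, Real.norm_eq_abs, sq_abs]
    ring
  have hnF := nF_sq hx v
  rw [← hs, ← hn] at hnF
  have hnF0 : 0 ≤ nF x v := Real.sqrt_nonneg _
  unfold spd
  rw [hom]
  have hc : ‖(⟨s, v.2⟩ : ℂ)‖ ^ 2 = s ^ 2 + v.2 ^ 2 := by
    rw [← Complex.normSq_eq_norm_sq, Complex.normSq_mk]
    ring
  rw [← Real.sqrt_sq hnF0]
  congr 1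
  rw [hnF]
  change ‖(⟨s, v.2⟩ : ℂ)‖ ^ 2 + _ = _
  rw [hc, norm_smul, mul_pow, hw, norm_inv, norm_norm]
  field_simp
  ring

end Pool.Agent.H14.HC
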