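import Pool.Agent.H14.HC.Df

/-!
# Quotients of an open set by linear maps: the manifold structure (compare `Pool/Agent/H73/PQA.lean`)
-/

open scoped Manifold ContDiff Topology ENNReal Quaternion
open Set Bundle Bornology MeasureTheory Filter

noncomputable section

namespace Pool.Agent.H14.HC

open Pool.Agent.H73 (HQ qi qj)

variable (E : Type) [NormedAddCommGroup E] [NormedSpace ℝ E] [MM E]

/-- `Y` is covered by the open set `U` of `E`, with deck transformations which are linear and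
preserve the form. -/
class GQ (Y : Type) [TopologicalSpace Y] where
  /-- the projection, with junk values outside `U` -/
  pi : E → Y
  surj : ∀ q, ∃ x, x ∈ MM.U (E := E) ∧ pi x = q
  loc : ∀ x ∈ MM.U (E := E), ∃ e : OpenPartialHomeomorph E Y, x ∈ e.source ∧
    ∀ z ∈ e.source, z ∈ MM.U (E := E) ∧ e z = pi z
  deck : ∀ x ∈ MM.U (E := E), ∀ y ∈ MM.U (E := E), pi x = pi y → ∃ L : E →L[ℝ] E, IsDeck L ∧
    L x = y ∧ ∀ z ∈ MM.U (E := E), pi (L z) = pi z
  cov : IsCoveringMap (fun x : MM.U (E := E) => pi (x : E))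

variable {E}

namespace GQ

variable {Y : Type} [TopologicalSpace Y] [GQ E Y]

/-- projection with explicit target -/
abbrev pr (E : Type) [NormedAddCommGroup E] [NormedSpace ℝ E] [MM E]
    (Y : Type) [TopologicalSpace Y] [GQ E Y] : E → Y := GQ.pi

lemma exists_chart (q : Y) : ∃ e : OpenPartialHomeomorph Y E, q ∈ e.source ∧
    ∀ z ∈ e.target, z ∈ MM.U (E := E) ∧ e.symm z = pr E Y z := by
  obtain ⟨x, hx, hq⟩ := GQ.surj (E := E) q
  obtain ⟨e, hxe, he⟩ := GQ.loc (Y := Y) x hx
  refine ⟨e.symm, ?_, ?_⟩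
  · have := e.map_source hxe
    rw [(he x hxe).2, hq] at this
    simpa using this
  · intro z hz
    simpa using he z (by simpa using hz)

instance (priority := low) instCharted : ChartedSpace E Y where
  atlas := {e | ∀ z ∈ e.target, z ∈ MM.U (E := E) ∧ e.symm z = pr E Y z}
  chartAt q := (exists_chart (E := E) q).choose
  mem_chart_source q := (exists_chart (E := E) q).choose_spec.1
  chart_mem_atlas q := (exists_chart (E := E) q).choose_spec.2

lemma atlas_prop {e : OpenPartialHomeomorph Y E} (he : e ∈ atlas E Y) {z : E}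
    (hz : z ∈ e.target) : z ∈ MM.U (E := E) ∧ e.symm z = pr E Y z := he z hz

lemma pr_chart {e : OpenPartialHomeomorph Y E} (he : e ∈ atlas E Y) {q : Y} (hq : q ∈ e.source) :
    e q ∈ MM.U (E := E) ∧ pr E Y (e q) = q := by
  have h := atlas_prop he (e.map_source hq)
  exact ⟨h.1, by rw [← h.2, e.left_inv hq]⟩

lemma continuousAt_pr {x : E} (hx : x ∈ MM.U (E := E)) : ContinuousAt (pr E Y) x := by
  obtain ⟨e, hxe, he⟩ := GQ.loc (Y := Y) x hx
  have h1 := e.continuousAt hxe
  refine h1.congr ?_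
  filter_upwards [e.open_source.mem_nhds hxe] with z hz
  exact (he z hz).2

/-- charts composed with the projection are locally deck transformations. -/
lemma chart_pr {e : OpenPartialHomeomorph Y E} (he : e ∈ atlas E Y) {u : E}
    (hu0 : u ∈ MM.U (E := E)) (hu : pr E Y u ∈ e.source) :
    ∃ L : E →L[ℝ] E, IsDeck L ∧ ∀ᶠ z in 𝓝 u, pr E Y z ∈ e.source ∧ e (pr E Y z) = L z := by
  obtain ⟨hy0, hy⟩ := pr_chart he hu
  obtain ⟨L, hL, hLu, hLz⟩ := GQ.deck (Y := Y) u hu0 (e (pr E Y u)) hy0 hy.symm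
  refine ⟨L, hL, ?_⟩
  have h1 : ∀ᶠ z in 𝓝 u, L z ∈ e.target := by
    apply L.continuous.continuousAt.preimage_mem_nhds
    rw [hLu]
    exact e.open_target.mem_nhds (e.map_source hu)
  have h2 : ∀ᶠ z in 𝓝 u, z ∈ MM.U (E := E) := MM.isOpen_U.mem_nhds hu0
  filter_upwards [h1, h2] with z hz1 hz2
  have h3 := (atlas_prop he hz1).2
  have h4 : pr E Y (L z) = pr E Y z := hLz z hz2
  rw [← h4, ← h3]
  exact ⟨e.map_target hz1, e.right_inv hz1⟩

instance (priority := low) instManifold : IsManifold 𝓘(ℝ, E) ∞ Y := by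
  apply isManifold_of_contDiffOn
  intro e e' he he'
  intro x hx
  have hx' : x ∈ (e.symm ≫ₕ e').source := by simpa using hx
  have hx1 : x ∈ e.target ∧ e.symm x ∈ e'.source := by
    simpa using hx'
  obtain ⟨hx0, hxpr⟩ := atlas_prop he hx1.1
  have hx2 : pr E Y x ∈ e'.source := by rw [← hxpr]; exact hx1.2
  obtain ⟨L, hL, hl⟩ := chart_pr he' hx0 hx2
  have key : (𝓘(ℝ, E) ∘ (e.symm ≫ₕ e') ∘ 𝓘(ℝ, E).symm) =ᶠ[𝓝 x] L := by
    filter_upwards [hl, e.open_target.mem_nhds hx1.1] with y hy hyt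
    simp only [Function.comp_apply, OpenPartialHomeomorph.coe_trans, mfld_simps]
    rw [(atlas_prop he hyt).2]
    exact hy.2
  have : ContDiffAt ℝ ∞ (𝓘(ℝ, E) ∘ (e.symm ≫ₕ e') ∘ 𝓘(ℝ, E).symm) x := by
    refine ContDiffAt.congr_of_eventuallyEq ?_ key
    exact L.contDiff.contDiffAt
  exact this.contDiffWithinAt

/-- the coordinate of a point in its preferred chart -/
def co (q : Y) : E := chartAt E q q

lemma co_mem (q : Y) : (co q : E) ∈ MM.U (E := E) :=
  (pr_chart (chart_mem_atlas E q) (mem_chart_source E q)).1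

lemma pr_co (q : Y) : pr E Y (co q) = q := (pr_chart (chart_mem_atlas E q) (mem_chart_source E q)).2

end GQ

end Pool.Agent.H14.HC
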