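import Pool.Agent.H14.HC.GA

/-!
# The metric on the quotients (compare `Pool/Agent/H73/PQB.lean`, `PQC.lean`)
-/

open scoped Manifold ContDiff Topology ENNReal Quaternion
open Set Bundle Bornology MeasureTheory Filter

noncomputable section

namespace Pool.Agent.H14.HC

open Pool.Agent.H73 (HQ qi qj)

variable {E : Type} [NormedAddCommGroup E] [NormedSpace ℝ E] [MM E]

lemma nF_deck {L : E →L[ℝ] E} (hL : IsDeck L) {x : E} (hx : x ∈ MM.U (E := E)) (v : E) :
    nF (L x) (L v) = nF x v := by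
  unfold nF
  rw [hL.form x hx]

namespace GQ

variable {Y : Type} [TopologicalSpace Y] [GQ E Y]

/-- the derivative of the projection -/
lemma hasMFDerivAt_pr {u : E} (hu : u ∈ MM.U (E := E)) : ∃ L : E →L[ℝ] E, IsDeck L ∧ L u = co (pr E Y u) ∧
    HasMFDerivAt 𝓘(ℝ, E) 𝓘(ℝ, E) (pr E Y) u L := by
  obtain ⟨L, hL, hl⟩ := chart_pr (chart_mem_atlas E (pr E Y u)) hu
    (mem_chart_source E (pr E Y u))
  refine ⟨L, hL, ?_, continuousAt_pr hu, ?_⟩
  · exact (hl.self_of_nhds).2.symm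
  have key : writtenInExtChartAt 𝓘(ℝ, E) 𝓘(ℝ, E) u (pr E Y) =ᶠ[𝓝 u] L := by
    filter_upwards [hl] with y hy
    simp only [writtenInExtChartAt, extChartAt, mfld_simps]
    exact hy.2
  have h1 : HasFDerivAt (L) (L) u := L.hasFDerivAt
  have h2 := h1.congr_of_eventuallyEq key
  exact h2.hasFDerivWithinAt

lemma contMDiffAt_pr {u : E} (hu : u ∈ MM.U (E := E)) : ContMDiffAt 𝓘(ℝ, E) 𝓘(ℝ, E) ∞ (pr E Y) u := by
  rw [contMDiffAt_iff]
  refine ⟨continuousAt_pr hu, ?_⟩
  obtain ⟨L, hL, hl⟩ := chart_pr (chart_mem_atlas E (pr E Y u)) hu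
    (mem_chart_source E (pr E Y u))
  have key : writtenInExtChartAt 𝓘(ℝ, E) 𝓘(ℝ, E) u (pr E Y) =ᶠ[𝓝 u] L := by
    filter_upwards [hl] with y hy
    simp only [writtenInExtChartAt, extChartAt, mfld_simps]
    exact hy.2
  have h2 : ContDiffAt ℝ ∞ (writtenInExtChartAt 𝓘(ℝ, E) 𝓘(ℝ, E) u (pr E Y)) u := by
    refine ContDiffAt.congr_of_eventuallyEq ?_ key
    exact L.contDiff.contDiffAt
  exact h2.contDiffWithinAt

/-- the inverse trivialisation of the tangent bundle is the derivative of the projection -/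
lemma symm_triv {q0 q : Y} (hq : q ∈ (chartAt E q0).source) : ∃ L : E →L[ℝ] E, IsDeck L ∧
    L (chartAt E q0 q) = co q ∧
    ∀ v : E, (trivializationAt E (TangentSpace 𝓘(ℝ, E) (M := Y)) q0).symm q v = L v := by
  have hqt := (chartAt E q0).map_source hq
  obtain ⟨h0, h1⟩ := pr_chart (chart_mem_atlas E q0) hq
  obtain ⟨L, hL, hLu, hd⟩ := hasMFDerivAt_pr (Y := Y) h0
  rw [h1] at hLu
  refine ⟨L, hL, hLu, ?_⟩
  intro v
  have h2 := TangentBundle.symmL_trivializationAt (I := 𝓘(ℝ, E)) (𝕜 := ℝ) (x₀ := q0) hq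
  have h3 : (trivializationAt E (TangentSpace 𝓘(ℝ, E) (M := Y)) q0).symm q v =
      (trivializationAt E (TangentSpace 𝓘(ℝ, E) (M := Y)) q0).symmL ℝ q v := by
    rw [Trivialization.symmL_apply _ (by simpa using hq)]
  rw [h3, h2]
  have h4 : range (𝓘(ℝ, E) : E → E) = univ := by simp
  rw [h4, mfderivWithin_univ]
  have h5 : ((extChartAt 𝓘(ℝ, E) q0).symm : E → Y) =ᶠ[𝓝 (extChartAt 𝓘(ℝ, E) q0 q)] pr E Y := by
    have : extChartAt 𝓘(ℝ, E) q0 q = chartAt E q0 q := by simp [extChartAt]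
    rw [this]
    filter_upwards [(chartAt E q0).open_target.mem_nhds hqt] with z hz
    have := (atlas_prop (chart_mem_atlas E q0) hz).2
    simpa [extChartAt] using this
  rw [h5.mfderiv_eq]
  have h6 : extChartAt 𝓘(ℝ, E) q0 q = chartAt E q0 q := by simp [extChartAt]
  have h7 : mfderiv 𝓘(ℝ, E) 𝓘(ℝ, E) (pr E Y) (chartAt E q0 q) = L := hd.mfderiv
  rw [h6]
  exact congrArg (fun A : E →L[ℝ] E => A v) h7

lemma smooth_aux (q0 : Y) : ContMDiffAt 𝓘(ℝ, E) 𝓘(ℝ, E →L[ℝ] E →L[ℝ] ℝ) ∞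
    (fun q : Y => MM.F (chartAt E q0 q)) q0 := by
  have h2 : ContMDiffAt 𝓘(ℝ, E) 𝓘(ℝ, E) ∞ (chartAt E q0) q0 :=
    contMDiffAt_extChartAt (I := 𝓘(ℝ, E)) (n := ∞) (x := q0)
  have h0 := (pr_chart (chart_mem_atlas E q0) (mem_chart_source E q0)).1
  exact (MM.F_smooth _ h0).contMDiffAt.comp q0 h2

/-- the bilinear form of the metric at a point -/
def form (q : Y) : E →L[ℝ] E →L[ℝ] ℝ := MM.F (co q)

lemma form_symm (q : Y) (v w : E) : form q v w = form q w v := MM.F_symm (co q) v w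

lemma form_pos (q : Y) (v : E) (hv : v ≠ 0) : 0 < form q v v := MM.F_pos (co q) (co_mem q) v hv

lemma form_deck (q : Y) {L : E →L[ℝ] E} (hL : IsDeck L) {x : E} (hx : x ∈ MM.U (E := E))
    (h : L x = co q) (v w : E) : form q (L v) (L w) = MM.F x v w := by
  unfold form
  rw [← h, hL.form x hx]

set_option backward.isDefEq.respectTransparency false in
/-- The Riemannian metric on the quotient. -/
def metric : ContMDiffRiemannianMetric 𝓘(ℝ, E) ∞ E
    (fun q : Y => TangentSpace 𝓘(ℝ, E) q) where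
  inner q := (form q : E →L[ℝ] E →L[ℝ] ℝ)
  symm q v w := @form_symm E _ _ _ Y _ _ q v w
  pos q v hv := @form_pos E _ _ _ Y _ _ q v hv
  isVonNBounded q := by
    change IsVonNBounded ℝ {v : E | form q v v < 1}
    exact MM.F_vonN (co q) (co_mem q)
  contMDiff := by
    intro q0
    rw [contMDiffAt_section]
    have h1 := smooth_aux (E := E) q0
    refine h1.congr_of_eventuallyEq ?_
    filter_upwards [(chartAt E q0).open_source.mem_nhds (mem_chart_source E q0)] with q hq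
    rw [hom_trivializationAt_apply]
    have hq' : q ∈ (trivializationAt E (TangentSpace 𝓘(ℝ, E) (M := Y)) q0).baseSet := by
      simpa using hq
    refine ContinuousLinearMap.ext fun v => ContinuousLinearMap.ext fun w => ?_
    obtain ⟨L, hL, hLu, hsymm⟩ := symm_triv hq
    change (ContinuousLinearMap.inCoordinates E (TangentSpace 𝓘(ℝ, E)) (E →L[ℝ] ℝ)
              (fun x => TangentSpace 𝓘(ℝ, E) x →L[ℝ] ℝ) q0 q q0 q (form (E := E) q) v) w = _
    rw [inCoordinates_apply_eq₂ hq' hq' (Set.mem_univ _)]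
    rw [hsymm v, hsymm w]
    simp only [Trivial.fiberBundle_trivializationAt', Trivial.linearMapAt_trivialization,
        LinearMap.id_coe, id_eq]
    exact form_deck (E := E) q hL (pr_chart (chart_mem_atlas E q0) hq).1 hLu v w

instance (priority := low) instRiem : RiemannianBundle (fun q : Y => TangentSpace 𝓘(ℝ, E) q) :=
  ⟨(metric (E := E) (Y := Y)).toRiemannianMetric⟩

example : IsContMDiffRiemannianBundle 𝓘(ℝ, E) ∞ E (fun q : Y => TangentSpace 𝓘(ℝ, E) q) :=
  inferInstance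

instance (priority := low) instCont :
    IsContinuousRiemannianBundle E (fun q : Y => TangentSpace 𝓘(ℝ, E) q) :=
  ⟨⟨(metric (E := E) (Y := Y)).inner, (metric (E := E) (Y := Y)).contMDiff.continuous,
    fun _ _ _ => rfl⟩⟩

lemma norm_tangent (q : Y) (v : TangentSpace 𝓘(ℝ, E) q) :
    ‖v‖ = nF (co q : E) (show E from v) := by
  have h1 : ‖v‖ ^ 2 = form (E := E) q v v := by
    rw [← real_inner_self_eq_norm_sq]
    rfl
  have h2 : nF (co q : E) (show E from v) = √(form (E := E) q v v) := rfl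
  rw [h2, ← h1, Real.sqrt_sq (norm_nonneg v)]

/-- the projection is a local isometry -/
lemma norm_mfderiv_pr {u : E} (hu : u ∈ MM.U (E := E)) (v : E) :
    ‖(mfderiv 𝓘(ℝ, E) 𝓘(ℝ, E) (pr E Y) u v : TangentSpace 𝓘(ℝ, E) (pr E Y u))‖ = nF u v := by
  obtain ⟨L, hL, hLu, hd⟩ := hasMFDerivAt_pr (Y := Y) hu
  rw [hd.mfderiv, norm_tangent, ← hLu]
  exact nF_deck hL hu v

end GQ

end Pool.Agent.H14.HC
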