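import Pool.Agent.H14.HC.GB

/-!
# Row GC: lengths of projected curves (compare `Pool/Agent/H73/PQF.lean` and the first lemma of `PQG.lean`)

Port the proofs of `PQ.enorm_mfderiv_pr_comp`, `PQ.pathELength_pr_comp` (there `‖c'‖ / ‖c t‖` is now `nF (c t) c'`).
`riemannianEDist_pr_le`: for a curve `c` with `ECur x y c` the curve `pr E Y ∘ c` is `C^1` on `Icc 0 1`
(`contMDiffAt_pr` composed with `c`), use `riemannianEDist_le_pathELength` and `pathELength_pr_comp`.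
-/

open scoped Manifold ContDiff Topology ENNReal Quaternion
open Set Bundle Bornology MeasureTheory Manifold Filter

noncomputable section

namespace Pool.Agent.H14.HC

namespace GQ

variable {E : Type} [NormedAddCommGroup E] [NormedSpace ℝ E] [MM E]
variable {Y : Type} [TopologicalSpace Y] [GQ E Y]

/-- speed of a projected curve -/
lemma enorm_mfderiv_pr_comp {c : ℝ → E} {c' : E} {t : ℝ} (hc : HasDerivAt c c' t)
    (h0 : c t ∈ MM.U (E := E)) :
    ‖(mfderiv 𝓘(ℝ, ℝ) 𝓘(ℝ, E) (pr E Y ∘ c) t (1 : ℝ) : TangentSpace 𝓘(ℝ, E) ((pr E Y ∘ c) t))‖ₑ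
      = ENNReal.ofReal (nF (c t) c') := by
  have h1 : HasMFDerivAt 𝓘(ℝ, ℝ) 𝓘(ℝ, E) c t (ContinuousLinearMap.toSpanSingleton ℝ c') :=
    hc.hasFDerivAt.hasMFDerivAt
  have h2 : MDifferentiableAt 𝓘(ℝ, E) 𝓘(ℝ, E) (pr E Y) (c t) :=
    (contMDiffAt_pr h0).mdifferentiableAt (by simp)
  have h3 := h2.hasMFDerivAt.comp t h1
  rw [h3.mfderiv]
  have h4 := norm_mfderiv_pr (Y := Y) h0 c'
  rw [← h4, enorm_eq_nnnorm, ← norm_toNNReal, ENNReal.ofReal]
  congr 3
  have h5 : (ContinuousLinearMap.toSpanSingleton ℝ c') (1 : ℝ) = c' := by simp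
  exact congrArg (fun v : E => (mfderiv 𝓘(ℝ, E) 𝓘(ℝ, E) (pr E Y) (c t) : E →L[ℝ] E) v) h5

lemma pathELength_pr_comp {c : ℝ → E} {s t : ℝ} (hst : s ≤ t) (hc : ContDiffOn ℝ 1 c (Icc s t))
    (h0 : ∀ r ∈ Icc s t, c r ∈ MM.U (E := E)) :
    pathELength 𝓘(ℝ, E) (pr E Y ∘ c) s t = FLen c s t := by
  rw [pathELength_eq_lintegral_mfderiv_Ioo, FLen, ← restrict_Ioo_eq_restrict_Icc]
  apply setLIntegral_congr_fun measurableSet_Ioo
  intro r hr
  have hn : Icc s t ∈ 𝓝 r := Icc_mem_nhds hr.1 hr.2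
  have h1 : HasDerivAt c (derivWithin c (Icc s t) r) r :=
    ((hc r (Ioo_subset_Icc_self hr)).differentiableWithinAt one_ne_zero).hasDerivWithinAt.hasDerivAt hn
  exact enorm_mfderiv_pr_comp h1 (h0 r (Ioo_subset_Icc_self hr))

lemma riemannianEDist_pr_le (x y : E) :
    riemannianEDist 𝓘(ℝ, E) (pr E Y x) (pr E Y y) ≤ fD x y := by
  refine le_iInf₂ fun c hc => ?_
  have h1 : ContMDiffOn 𝓘(ℝ, ℝ) 𝓘(ℝ, E) 1 (pr E Y ∘ c) (Icc 0 1) := by
    intro t ht
    have := (contMDiffAt_pr (Y := Y) (hc.mem t ht)).of_le (n := ∞) (m := 1)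
      (by exact_mod_cast le_top)
    exact this.comp_contMDiffWithinAt t (hc.smooth t ht).contMDiffWithinAt
  refine (riemannianEDist_le_pathELength h1 (by simp [hc.left]) (by simp [hc.right])
    zero_le_one).trans ?_
  exact (pathELength_pr_comp zero_le_one hc.smooth hc.mem).le

end GQ

end Pool.Agent.H14.HC
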