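import Pool.Agent.H14.HC.GLa

/-!
# Row GL: the distance of a quotient

`redist_eq`: `≤` by `riemannianEDist_pr_le`; `≥`: as in `PQ.riemannianEDist_eq` (`Pool/Agent/H73/PQG.lean`:
`exists_lt_locally_constant_of_riemannianEDist_lt` gives a curve `γ`), then `exists_lift` and `pathELength_pr_comp`
(`pathELength_congr`).
-/

open scoped Manifold ContDiff Topology ENNReal Quaternion
open Set Bundle Bornology MeasureTheory Manifold Filter

noncomputable section

namespace Pool.Agent.H14.HC

namespace GQ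

variable {E : Type} [NormedAddCommGroup E] [NormedSpace ℝ E] [MM E]
variable {Y : Type} [TopologicalSpace Y] [GQ E Y]

theorem redist_eq {x : E} (hx : x ∈ MM.U (E := E)) (q : Y) :
    riemannianEDist 𝓘(ℝ, E) (pr E Y x) q =
      ⨅ (y : E) (_ : y ∈ MM.U (E := E) ∧ pr E Y y = q), fD x y := by
  apply le_antisymm
  · refine le_iInf₂ fun y hy => ?_
    rw [← hy.2]
    exact riemannianEDist_pr_le x y
  · apply le_of_forall_gt
    intro r hr
    obtain ⟨γ, h0, h1, hγ, hlt, -, -⟩ :=
      exists_lt_locally_constant_of_riemannianEDist_lt hr zero_lt_one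
    refine lt_of_le_of_lt ?_ hlt
    obtain ⟨c, hc, hm, hc0⟩ := exists_lift γ hγ hx h0.symm
    have hI : (1 : ℝ) ∈ Icc (0 : ℝ) 1 := ⟨zero_le_one, le_rfl⟩
    refine iInf₂_le_of_le (c 1) ⟨(hm 1 hI).1, ?_⟩ ?_
    · rw [(hm 1 hI).2, h1]
    · refine iInf₂_le_of_le c ⟨hc, fun t ht => (hm t ht).1, hc0, rfl⟩ ?_
      rw [← pathELength_pr_comp (Y := Y) zero_le_one hc (fun r hr => (hm r hr).1)]
      refine le_of_eq ?_
      exact pathELength_congr (fun t ht => (hm t ht).2)

end GQ

end Pool.Agent.H14.HC
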