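import Pool.Agent.H14.HC.GC

/-!
# Row GLa: lifting `C^1` curves

`exists_lift`: the map `fun x : MM.U => pr E Y x` is a covering map (`GQ.cov`), so the continuous map `γ` restricted to the
unit interval has a continuous lift `Γ` with `Γ 0 = x` (`IsCoveringMap.exists_path_lifts` or `IsCoveringMap.liftPath`, see
`Mathlib/Topology/Homotopy/Lifting.lean`).  Put `c t = Γ (projIcc 0 1 t)`.
`C^1`: at `t0 ∈ Icc 0 1` take `e` from `GQ.loc (Γ t0)`; near `t0` (within `Icc 0 1`) `c t ∈ e.source` and `e (c t) = γ t`, so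
`c t = e.symm (γ t)`; `e.symm` is in the atlas (`instCharted`: its atlas is the set of all `e` with the property in
`atlas_prop`), hence `ContMDiffAt` (`contMDiffAt_of_mem_maximalAtlas (IsManifold.subset_maximalAtlas _)`), compare
`local_claim` in `Pool/Agent/H73/PQG.lean`.
-/

open scoped Manifold ContDiff Topology ENNReal Quaternion
open Set Bundle Bornology MeasureTheory Manifold Filter

noncomputable section

namespace Pool.Agent.H14.HC

namespace GQ

variable {E : Type} [NormedAddCommGroup E] [NormedSpace ℝ E] [MM E]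
variable {Y : Type} [TopologicalSpace Y] [GQ E Y]

lemma exists_lift (γ : ℝ → Y) (hγ : ContMDiff 𝓘(ℝ, ℝ) 𝓘(ℝ, E) 1 γ) {x : E}
    (hx : x ∈ MM.U (E := E)) (h0 : pr E Y x = γ 0) :
    ∃ c : ℝ → E, ContDiffOn ℝ 1 c (Icc 0 1) ∧
      (∀ t ∈ Icc (0 : ℝ) 1, c t ∈ MM.U (E := E) ∧ pr E Y (c t) = γ t) ∧ c 0 = x := by
  let g : C(unitInterval, Y) := ⟨fun t => γ t, hγ.continuous.comp continuous_subtype_val⟩
  obtain ⟨Γ, h1, h2⟩ := (GQ.cov (E := E) (Y := Y)).exists_path_lifts g ⟨x, hx⟩ (by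
    change γ ((0 : unitInterval) : ℝ) = pr E Y x
    rw [h0]
    simp)
  have hΓ : ∀ t : unitInterval, pr E Y (Γ t : E) = γ t := fun t => congrFun h1 t
  let c : ℝ → E := fun t => (Γ (projIcc 0 1 zero_le_one t) : E)
  have hcc : Continuous c :=
    continuous_subtype_val.comp (Γ.continuous.comp continuous_projIcc)
  have hc : ∀ t (ht : t ∈ Icc (0 : ℝ) 1), c t = Γ ⟨t, ht⟩ := fun t ht => by
    simp only [c, projIcc_of_mem _ ht]
  have hU : ∀ t, c t ∈ MM.U (E := E) := fun t => (Γ _).2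
  have hpr : ∀ t ∈ Icc (0 : ℝ) 1, pr E Y (c t) = γ t := fun t ht => by
    rw [hc t ht]
    exact hΓ ⟨t, ht⟩
  refine ⟨c, ?_, fun t ht => ⟨hU t, hpr t ht⟩, ?_⟩
  · intro t0 ht0
    obtain ⟨e, hxe, he⟩ := GQ.loc (Y := Y) (c t0) (hU t0)
    have hmem : e.symm ∈ atlas E Y := by
      intro z hz
      have hz' : z ∈ e.source := by simpa using hz
      exact ⟨(he z hz').1, by simpa using (he z hz').2⟩
    have hγ0 : γ t0 ∈ e.symm.source := by
      have h10 : e (c t0) = pr E Y (c t0) := (he _ hxe).2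
      rw [← hpr t0 ht0, ← h10]
      exact e.map_source hxe
    have h3 : ContMDiffAt 𝓘(ℝ, E) 𝓘(ℝ, E) ∞ e.symm (γ t0) :=
      contMDiffAt_of_mem_maximalAtlas (IsManifold.subset_maximalAtlas hmem) hγ0
    have h4 : ContMDiffAt 𝓘(ℝ, E) 𝓘(ℝ, E) 1 e.symm (γ t0) :=
      h3.of_le (by exact_mod_cast le_top)
    have h5 : ContDiffAt ℝ 1 (e.symm ∘ γ) t0 := (h4.comp t0 (hγ t0)).contDiffAt
    have h9 : ∀ t ∈ Icc (0 : ℝ) 1, c t ∈ e.source → c t = (e.symm ∘ γ) t := by
      intro t h8 h7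
      have h10 : e (c t) = pr E Y (c t) := (he _ h7).2
      change c t = e.symm (γ t)
      rw [← hpr t h8, ← h10, e.left_inv h7]
    refine h5.contDiffWithinAt.congr_of_eventuallyEq ?_ (h9 t0 ht0 hxe)
    have h6 : ∀ᶠ t in 𝓝[Icc 0 1] t0, c t ∈ e.source :=
      mem_nhdsWithin_of_mem_nhds
        (hcc.continuousAt.preimage_mem_nhds (e.open_source.mem_nhds hxe))
    filter_upwards [h6, self_mem_nhdsWithin] with t h7 h8
    exact h9 t h8 h7
  · rw [hc 0 ⟨le_rfl, zero_le_one⟩]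
    exact congrArg Subtype.val h2

end GQ

end Pool.Agent.H14.HC
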