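import Pool.Agent.H14.HC.GB

/-!
# Row GM: maps between quotients compatible with the projections (port of the first part of `Pool/Agent/H73/PQM.lean`)
-/

open scoped Manifold ContDiff Topology ENNReal Quaternion
open Set Bundle Bornology MeasureTheory Manifold Filter

noncomputable section

namespace Pool.Agent.H14.HC

namespace GQ

variable {E : Type} [NormedAddCommGroup E] [NormedSpace ℝ E] [MM E]
variable {Y : Type} [TopologicalSpace Y] [GQ E Y]
variable {Z : Type} [TopologicalSpace Z] [GQ E Z]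

/-- local form of a map between quotients compatible with the projections -/
private lemma gm_local_form {p : Y → Z} (hp : ∀ z ∈ MM.U (E := E), p (pr E Y z) = pr E Z z)
    (q : Y) : p =ᶠ[𝓝 q] fun q' => pr E Z (chartAt E q q') := by
  filter_upwards [(chartAt E q).open_source.mem_nhds (mem_chart_source E q)] with q' hq'
  obtain ⟨h0, h1⟩ := pr_chart (chart_mem_atlas E q) hq'
  rw [← hp _ h0, h1]

lemma contMDiff_of_compat {p : Y → Z} (hp : ∀ z ∈ MM.U (E := E), p (pr E Y z) = pr E Z z) :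
    ContMDiff 𝓘(ℝ, E) 𝓘(ℝ, E) ∞ p := by
  intro q
  refine ContMDiffAt.congr_of_eventuallyEq ?_ (gm_local_form hp q)
  have h1 : ContMDiffAt 𝓘(ℝ, E) 𝓘(ℝ, E) ∞ (chartAt E q) q :=
    contMDiffAt_extChartAt (I := 𝓘(ℝ, E)) (n := ∞) (x := q)
  have h2 : ContMDiffAt 𝓘(ℝ, E) 𝓘(ℝ, E) ∞ (pr E Z) (chartAt E q q) := contMDiffAt_pr (co_mem q)
  exact h2.comp q h1

private lemma gm_hasMFDerivAt_chart (q : Y) :
    HasMFDerivAt 𝓘(ℝ, E) 𝓘(ℝ, E) (chartAt E q) q (ContinuousLinearMap.id ℝ E) := by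
  refine ⟨(chartAt E q).continuousAt (mem_chart_source E q), ?_⟩
  have key : writtenInExtChartAt 𝓘(ℝ, E) 𝓘(ℝ, E) q (chartAt E q) =ᶠ[𝓝 (co q)] id := by
    filter_upwards [(chartAt E q).open_target.mem_nhds
      ((chartAt E q).map_source (mem_chart_source E q))] with y hy
    simp only [writtenInExtChartAt, extChartAt, mfld_simps]
    exact (chartAt E q).right_inv hy
  have h1 : HasFDerivAt (id : E → E) (ContinuousLinearMap.id ℝ E) (co q : E) := hasFDerivAt_id _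
  have h2 := h1.congr_of_eventuallyEq key
  have h3 : extChartAt 𝓘(ℝ, E) q q = co q := by simp [extChartAt, co]
  rw [h3]
  exact h2.hasFDerivWithinAt

lemma norm_mfderiv_of_compat {p : Y → Z} (hp : ∀ z ∈ MM.U (E := E), p (pr E Y z) = pr E Z z) (q : Y)
    (v : TangentSpace 𝓘(ℝ, E) q) :
    ‖(mfderiv 𝓘(ℝ, E) 𝓘(ℝ, E) p q v : TangentSpace 𝓘(ℝ, E) (p q))‖ = ‖v‖ := by
  obtain ⟨L, hL, hLu, hd⟩ := hasMFDerivAt_pr (Y := Z) (co_mem (E := E) q)
  have h1 : HasMFDerivAt 𝓘(ℝ, E) 𝓘(ℝ, E) (fun q' => pr E Z (chartAt E q q')) q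
      (L.comp (ContinuousLinearMap.id ℝ E)) := by
    have hd' : HasMFDerivAt 𝓘(ℝ, E) 𝓘(ℝ, E) (pr E Z) (chartAt E q q) L := hd
    exact hd'.comp q (gm_hasMFDerivAt_chart q)
  have h2 : HasMFDerivAt 𝓘(ℝ, E) 𝓘(ℝ, E) p q (L.comp (ContinuousLinearMap.id ℝ E)) :=
    h1.congr_of_eventuallyEq (gm_local_form hp q)
  rw [h2.mfderiv, norm_tangent, norm_tangent]
  have h3 : p q = pr E Z (co q : E) := by rw [← hp _ (co_mem q), pr_co]
  rw [h3, ← hLu]
  exact nF_deck hL (co_mem q) (show E from v)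

end GQ

end Pool.Agent.H14.HC
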