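import Pool.Agent.H14.HC.MI

/-!
# Row JQ: the quaternions; right multiplications are deck transformations

`norm_AB`: the sup norm of the product.  `isDeck_RM`: `FF_deck` with `g` = right multiplication by the unit quaternion.
`nF_sq`: `nF x v ^ 2 = ‖AL x v‖^2 / ‖x.1‖^2 + v.2^2` from `FF_apply` (`Real.sq_sqrt`).
-/

open scoped Manifold ContDiff Topology ENNReal Quaternion
open Set Bundle Bornology MeasureTheory Filter

noncomputable section

namespace Pool.Agent.H14.HC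

open Pool.Agent.H73 (HQ qi qj)

lemma norm_qi_mul (x : HQ) : ‖qi * x‖ = ‖x‖ := by
  rw [norm_mul, Pool.Agent.H73.normSq_qi, one_mul]

lemma inner_qi_mul (x : HQ) : inner ℝ x (qi * x) = (0 : ℝ) := by
  rw [Quaternion.inner_def]
  simp only [qi, Quaternion.re_mul, Quaternion.re_star, Quaternion.imI_star, Quaternion.imJ_star,
    Quaternion.imK_star, Quaternion.imI_mul, Quaternion.imJ_mul, Quaternion.imK_mul]
  ring

instance instJQ : HasJ HQ where
  J := ContinuousLinearMap.mul ℝ HQ qi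
  norm_J x := norm_qi_mul x
  inner_J x := inner_qi_mul x

/-- the first coordinate -/
def cA : EE →L[ℝ] HQ := ContinuousLinearMap.fst ℝ HQ ℝ
/-- the second coordinate -/
def cB : EE →L[ℝ] ℝ := ContinuousLinearMap.snd ℝ HQ ℝ

lemma norm_AB : ∃ C : ℝ, ∀ v : EE, ‖v‖ ≤ C * (‖cA v‖ + |cB v|) := by
  refine ⟨1, fun v => ?_⟩
  have h1 : cA v = v.1 := rfl
  have h2 : cB v = v.2 := rfl
  rw [h1, h2, one_mul, Prod.norm_def, Real.norm_eq_abs]
  exact max_le (le_add_of_nonneg_right (abs_nonneg _)) (le_add_of_nonneg_left (norm_nonneg _))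

instance instMM : MM EE := mkMM cA cB norm_AB

lemma mem_U {x : EE} : x ∈ MM.U (E := EE) ↔ x.1 ≠ 0 := Iff.rfl

lemma J_apply (x : HQ) : HasJ.J x = qi * x := rfl

/-- the derivative of the logarithmic coordinate -/
def dl' (x v : EE) : ℝ := (‖x.1‖ ^ 2)⁻¹ * inner ℝ x.1 v.1

lemma nF_sq {x : EE} (hx : x.1 ≠ 0) (v : EE) : nF x v ^ 2 =
    ‖v.1 + (Real.log ‖x.1‖ * v.2 - x.2 * dl' x v) • (qi * x.1)‖ ^ 2 / ‖x.1‖ ^ 2 + v.2 ^ 2 := by
  have hF : MM.F x v v = ‖v.1 + (Real.log ‖x.1‖ * v.2 - x.2 * dl' x v) • (qi * x.1)‖ ^ 2 /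
      ‖x.1‖ ^ 2 + v.2 ^ 2 := by
    have h1 : MM.F x v v = (‖x.1‖ ^ 2)⁻¹ *
        inner ℝ (v.1 + (Real.log ‖x.1‖ * v.2 - x.2 * dl' x v) • (qi * x.1))
          (v.1 + (Real.log ‖x.1‖ * v.2 - x.2 * dl' x v) • (qi * x.1)) + inner ℝ v.2 v.2 := rfl
    rw [h1, real_inner_self_eq_norm_sq, real_inner_self_eq_norm_sq, Real.norm_eq_abs, sq_abs]
    ring
  have h0 : 0 ≤ MM.F x v v := by rw [hF]; positivity
  unfold nF
  rw [Real.sq_sqrt h0, hF]

lemma isDeck_RM {g : HQ} (hg : ‖g‖ = 1) : IsDeck (RM g) := by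
  have hg0 : g ≠ 0 := by
    rw [← norm_pos_iff, hg]; norm_num
  constructor
  · intro x hx
    have hx' : x.1 ≠ 0 := hx
    exact mul_ne_zero hx' hg0
  · intro x _ v w
    exact FF_deck cA cB (RM g) ((ContinuousLinearMap.mul ℝ HQ).flip g)
      (fun y => by
        change ‖y * g‖ = ‖y‖
        rw [norm_mul, hg, mul_one])
      (fun y => by
        change qi * y * g = qi * (y * g)
        exact mul_assoc _ _ _)
      (fun y => rfl) (fun y => rfl) x v w

end Pool.Agent.H14.HC
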