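import Pool.Agent.H14.HC.MIs

/-!
# Row MI: the metric form

`E` is a normed space with two continuous linear coordinates `A : E → H` and `B : E → ℝ` (`H` a real inner product space
with `HasJ`), which together bound the norm: `‖v‖ ≤ C (‖A v‖ + |B v|)`.
`FF A B x v v = ‖AL A B x v‖^2 / ‖A x‖^2 + (B v)^2`.
* `FF_pos`: if it is `0` then `B v = 0` and `AL A B x v = 0`; the inner product of `AL A B x v` with `A x` is `inner (A x) (A v)`
  (`HasJ.inner_J`), so `dsg A x v = 0`, hence `A v = AL A B x v = 0`, hence `v = 0`.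
* `FF_vonN`: bounded in norm: `|B v| ≤ 1`, `‖AL A B x v‖ ≤ ‖A x‖`, then `dsg A x v` is bounded by the inner product with `A x`,
  then `A v` is bounded.  Use `NormedSpace.isVonNBounded_iff` or a ball as in `Pool/Agent/H73/PQB.lean` (`metric`).
* `isDeck_of`: `mkMM` is the class structure; `(mkMM ..).U = {x | A x ≠ 0}`, `(mkMM ..).F = FF A B` (by `rfl`).
-/

open scoped Manifold ContDiff Topology ENNReal Quaternion
open Set Bundle Bornology MeasureTheory Filter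

noncomputable section

namespace Pool.Agent.H14.HC

variable {E H : Type} [NormedAddCommGroup E] [NormedSpace ℝ E] [NormedAddCommGroup H]
  [InnerProductSpace ℝ H] [HasJ H]

lemma FF_symm (A : E →L[ℝ] H) (B : E →L[ℝ] ℝ) (x v w : E) : FF A B x v w = FF A B x w v := by
  rw [FF_apply, FF_apply, real_inner_comm, real_inner_comm (B v)]

private lemma HCMI_self (A : E →L[ℝ] H) (B : E →L[ℝ] ℝ) (x v : E) :
    FF A B x v v = (‖A x‖ ^ 2)⁻¹ * ‖AL A B x v‖ ^ 2 + (B v) ^ 2 := by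
  rw [FF_apply, real_inner_self_eq_norm_sq, real_inner_self_eq_norm_sq, Real.norm_eq_abs, sq_abs]

private lemma HCMI_inner (A : E →L[ℝ] H) (B : E →L[ℝ] ℝ) (x v : E) :
    inner ℝ (A x) (AL A B x v) = (inner ℝ (A x) (A v) : ℝ) := by
  rw [AL_apply, inner_add_right, inner_smul_right, HasJ.inner_J, mul_zero, add_zero]

lemma FF_pos (A : E →L[ℝ] H) (B : E →L[ℝ] ℝ) (hAB : ∃ C : ℝ, ∀ v, ‖v‖ ≤ C * (‖A v‖ + |B v|))
    (x : E) (hx : A x ≠ 0) (v : E) (hv : v ≠ 0) : 0 < FF A B x v v := by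
  obtain ⟨C, hC⟩ := hAB
  by_contra hcon
  have hle : FF A B x v v ≤ 0 := not_lt.1 hcon
  rw [HCMI_self] at hle
  have hx0 : 0 < ‖A x‖ := norm_pos_iff.2 hx
  have h1 : 0 ≤ (‖A x‖ ^ 2)⁻¹ * ‖AL A B x v‖ ^ 2 := by positivity
  have h2 : 0 ≤ (B v) ^ 2 := sq_nonneg _
  have h3 : (B v) ^ 2 = 0 := by linarith
  have h4 : (‖A x‖ ^ 2)⁻¹ * ‖AL A B x v‖ ^ 2 = 0 := by linarith
  have hB : B v = 0 := by
    exact pow_eq_zero_iff (two_ne_zero) |>.1 h3
  have hL : AL A B x v = 0 := by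
    have h5 : (‖A x‖ ^ 2)⁻¹ ≠ 0 := by positivity
    have h6 : ‖AL A B x v‖ ^ 2 = 0 := (mul_eq_zero.1 h4).resolve_left h5
    exact norm_eq_zero.1 (pow_eq_zero_iff (two_ne_zero) |>.1 h6)
  have hI : (inner ℝ (A x) (A v) : ℝ) = 0 := by
    rw [← HCMI_inner A B x v, hL, inner_zero_right]
  have hA : A v = 0 := by
    have h7 := AL_apply A B x v
    rw [hL, dsg_apply, hI, hB, mul_zero, mul_zero, mul_zero, sub_zero, zero_smul, add_zero] at h7
    exact h7.symm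
  have h8 := hC v
  rw [hA, hB, norm_zero, abs_zero, add_zero, mul_zero] at h8
  exact hv (norm_le_zero_iff.1 h8)

lemma FF_vonN (A : E →L[ℝ] H) (B : E →L[ℝ] ℝ) (hAB : ∃ C : ℝ, ∀ v, ‖v‖ ≤ C * (‖A v‖ + |B v|))
    (x : E) (hx : A x ≠ 0) : IsVonNBounded ℝ {v : E | FF A B x v v < 1} := by
  obtain ⟨C, hC⟩ := hAB
  have hx0 : 0 < ‖A x‖ := norm_pos_iff.2 hx
  rw [NormedSpace.isVonNBounded_iff]
  refine (Metric.isBounded_closedBall (x := (0 : E))
    (r := |C| * ((‖A x‖ + (|Real.log ‖A x‖| + |B x|) * ‖A x‖) + 1))).subset ?_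
  intro v hv
  have hv' : FF A B x v v < 1 := hv
  rw [HCMI_self] at hv'
  rw [mem_closedBall_zero_iff]
  have h1 : 0 ≤ (‖A x‖ ^ 2)⁻¹ * ‖AL A B x v‖ ^ 2 := by positivity
  have h2 : 0 ≤ (B v) ^ 2 := sq_nonneg _
  have hB : |B v| ≤ 1 := by
    rw [← sq_le_one_iff_abs_le_one]
    linarith
  have hL : ‖AL A B x v‖ ≤ ‖A x‖ := by
    have h3 : (‖A x‖ ^ 2)⁻¹ * ‖AL A B x v‖ ^ 2 ≤ 1 := by linarith
    have h4 : ‖AL A B x v‖ ^ 2 ≤ ‖A x‖ ^ 2 := by
      have h5 : (0 : ℝ) < ‖A x‖ ^ 2 := by positivity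
      rw [inv_mul_le_iff₀ h5, mul_one] at h3
      exact h3
    exact (sq_le_sq₀ (norm_nonneg _) (norm_nonneg _)).1 h4
  have hI : |(inner ℝ (A x) (A v) : ℝ)| ≤ ‖A x‖ ^ 2 := by
    rw [← HCMI_inner A B x v]
    calc |(inner ℝ (A x) (AL A B x v) : ℝ)| ≤ ‖A x‖ * ‖AL A B x v‖ := abs_real_inner_le_norm _ _
      _ ≤ ‖A x‖ * ‖A x‖ := mul_le_mul_of_nonneg_left hL hx0.le
      _ = ‖A x‖ ^ 2 := (sq _).symm
  have hD : |dsg A x v| ≤ 1 := by
    rw [dsg_apply, abs_mul, abs_of_nonneg (by positivity : (0 : ℝ) ≤ (‖A x‖ ^ 2)⁻¹),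
      inv_mul_le_iff₀ (by positivity : (0 : ℝ) < ‖A x‖ ^ 2), mul_one]
    exact hI
  have hJ : ‖(HasJ.J (A x) : H)‖ = ‖A x‖ := HasJ.norm_J _
  have hA : ‖A v‖ ≤ ‖A x‖ + (|Real.log ‖A x‖| + |B x|) * ‖A x‖ := by
    have h6 : A v = AL A B x v - (Real.log ‖A x‖ * B v - B x * dsg A x v) • (HasJ.J (A x) : H) := by
      rw [AL_apply]
      abel
    have h7 : |Real.log ‖A x‖ * B v - B x * dsg A x v| ≤ |Real.log ‖A x‖| + |B x| := by
      calc |Real.log ‖A x‖ * B v - B x * dsg A x v|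
          ≤ |Real.log ‖A x‖ * B v| + |B x * dsg A x v| := abs_sub _ _
        _ = |Real.log ‖A x‖| * |B v| + |B x| * |dsg A x v| := by rw [abs_mul, abs_mul]
        _ ≤ |Real.log ‖A x‖| * 1 + |B x| * 1 :=
            add_le_add (mul_le_mul_of_nonneg_left hB (abs_nonneg _))
              (mul_le_mul_of_nonneg_left hD (abs_nonneg _))
        _ = |Real.log ‖A x‖| + |B x| := by rw [mul_one, mul_one]
    calc ‖A v‖ = ‖AL A B x v - (Real.log ‖A x‖ * B v - B x * dsg A x v) • (HasJ.J (A x) : H)‖ := by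
          rw [← h6]
      _ ≤ ‖AL A B x v‖ + ‖(Real.log ‖A x‖ * B v - B x * dsg A x v) • (HasJ.J (A x) : H)‖ :=
          norm_sub_le _ _
      _ = ‖AL A B x v‖ + |Real.log ‖A x‖ * B v - B x * dsg A x v| * ‖A x‖ := by
          rw [norm_smul, Real.norm_eq_abs, hJ]
      _ ≤ ‖A x‖ + (|Real.log ‖A x‖| + |B x|) * ‖A x‖ :=
          add_le_add hL (mul_le_mul_of_nonneg_right h7 hx0.le)
  calc ‖v‖ ≤ C * (‖A v‖ + |B v|) := hC v
    _ ≤ |C| * (‖A v‖ + |B v|) :=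
        mul_le_mul_of_nonneg_right (le_abs_self C) (by positivity)
    _ ≤ |C| * ((‖A x‖ + (|Real.log ‖A x‖| + |B x|) * ‖A x‖) + 1) :=
        mul_le_mul_of_nonneg_left (add_le_add hA hB) (abs_nonneg C)

/-- the form as a structure -/
@[reducible] def mkMM (A : E →L[ℝ] H) (B : E →L[ℝ] ℝ)
    (hAB : ∃ C : ℝ, ∀ v, ‖v‖ ≤ C * (‖A v‖ + |B v|)) : MM E where
  U := {x | A x ≠ 0}
  isOpen_U := isOpen_ne.preimage A.continuous
  F := FF A B
  F_symm := FF_symm A B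
  F_pos := FF_pos A B hAB
  F_smooth := FF_smooth A B
  F_vonN := FF_vonN A B hAB

/-- a linear map which acts on the coordinates by an isometry commuting with `J` and by the identity -/
lemma FF_deck (A : E →L[ℝ] H) (B : E →L[ℝ] ℝ) (L : E →L[ℝ] E) (g : H →L[ℝ] H)
    (hg : ∀ x, ‖g x‖ = ‖x‖) (hJ : ∀ x, g (HasJ.J x) = HasJ.J (g x))
    (hA : ∀ x, A (L x) = g (A x)) (hB : ∀ x, B (L x) = B x) (x v w : E) :
    FF A B (L x) (L v) (L w) = FF A B x v w := by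
  have hin : ∀ a b : H, (inner ℝ (g a) (g b) : ℝ) = inner ℝ a b := by
    intro a b
    exact LinearIsometry.inner_map_map (⟨g.toLinearMap, hg⟩ : H →ₗᵢ[ℝ] H) a b
  have hdsg : ∀ u : E, dsg A (L x) (L u) = dsg A x u := by
    intro u
    rw [dsg_apply, dsg_apply, hA, hA, hg, hin]
  have hAL : ∀ u : E, AL A B (L x) (L u) = g (AL A B x u) := by
    intro u
    rw [AL_apply, AL_apply, hdsg, hA, hA, hg, hB, hB, map_add, map_smul, hJ]
  rw [FF_apply, FF_apply, hAL, hAL, hin, hA, hg, hB, hB]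

end Pool.Agent.H14.HC
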