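import Pool.Agent.H14.HC.Df

/-!
# Row MIs: smoothness of the metric form

`FF A B x = (‖A x‖ ^ 2)⁻¹ • (ip H).bilinearComp (AL A B x) (AL A B x) + (ip ℝ).bilinearComp B B`. All pieces are smooth at `x` with `A x ≠ 0`:
`Real.log ‖A x‖`, `(‖A x‖^2)⁻¹`, `ip H (A x)`, `(..).comp A`, `smulRight` (bilinear continuous: `ContinuousLinearMap.smulRightL`, or
`ContDiffAt.smulRight`), `HasJ.J (A x)`.  `ContinuousLinearMap.bilinearComp` is built from `comp` and `flip`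
(`f.bilinearComp g h = ((f.comp g).flip.comp h).flip`; `flip` is a continuous linear isometry `ContinuousLinearMap.flipₗᵢ`; `ContDiffAt.clm_comp`).
-/

open scoped Manifold ContDiff Topology ENNReal Quaternion
open Set Bundle Bornology MeasureTheory Filter

noncomputable section

namespace Pool.Agent.H14.HC

variable {E H : Type} [NormedAddCommGroup E] [NormedSpace ℝ E] [NormedAddCommGroup H]
  [InnerProductSpace ℝ H] [HasJ H]

omit [HasJ H] in
private lemma mis_inv (A : E →L[ℝ] H) (x : E) (hx : A x ≠ 0) :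
    ContDiffAt ℝ ∞ (fun y => (‖A y‖ ^ 2)⁻¹) x :=
  ((A.contDiff.norm_sq ℝ).contDiffAt).inv (pow_ne_zero 2 (norm_ne_zero_iff.2 hx))

omit [HasJ H] in
private lemma mis_log (A : E →L[ℝ] H) (x : E) (hx : A x ≠ 0) :
    ContDiffAt ℝ ∞ (fun y => Real.log ‖A y‖) x :=
  (A.contDiff.contDiffAt.norm ℝ hx).log (norm_ne_zero_iff.2 hx)

omit [HasJ H] in
private lemma mis_dsg (A : E →L[ℝ] H) (x : E) (hx : A x ≠ 0) :
    ContDiffAt ℝ ∞ (dsg A) x := by
  have h0 : ContDiffAt ℝ ∞ (fun y => ip H (A y)) x :=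
    ((ip H).contDiff.comp A.contDiff).contDiffAt
  have h1 : ContDiffAt ℝ ∞ (fun y => (ip H (A y)).comp A) x :=
    h0.clm_comp contDiffAt_const
  exact (mis_inv A x hx).smul h1

private lemma mis_AL (A : E →L[ℝ] H) (B : E →L[ℝ] ℝ) (x : E) (hx : A x ≠ 0) :
    ContDiffAt ℝ ∞ (AL A B) x := by
  have h1 : ContDiffAt ℝ ∞ (fun y => Real.log ‖A y‖ • B) x :=
    (mis_log A x hx).smul contDiffAt_const
  have h2 : ContDiffAt ℝ ∞ (fun y => B y • dsg A y) x :=
    B.contDiff.contDiffAt.smul (mis_dsg A x hx)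
  have h3 : ContDiffAt ℝ ∞ (fun y => (HasJ.J (A y) : H)) x :=
    ((HasJ.J : H →L[ℝ] H).contDiff.comp A.contDiff).contDiffAt
  have h4 : ContDiffAt ℝ ∞ (fun y => (Real.log ‖A y‖ • B - B y • dsg A y).smulRight
      (HasJ.J (A y) : H)) x := (h1.sub h2).smulRight h3
  exact contDiffAt_const.add h4

private lemma mis_flip (F G : Type) [NormedAddCommGroup F] [NormedSpace ℝ F]
    [NormedAddCommGroup G] [NormedSpace ℝ G] :
    ContDiff ℝ ∞ (fun f : F →L[ℝ] G →L[ℝ] ℝ => f.flip) := by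
  have h : IsBoundedLinearMap ℝ (fun f : F →L[ℝ] G →L[ℝ] ℝ => f.flip) := by
    refine ⟨⟨fun f g => rfl, fun c f => rfl⟩, 1, one_pos, fun f => ?_⟩
    rw [ContinuousLinearMap.opNorm_flip, one_mul]
  exact h.contDiff

lemma FF_smooth (A : E →L[ℝ] H) (B : E →L[ℝ] ℝ) (x : E) (hx : A x ≠ 0) :
    ContDiffAt ℝ ∞ (FF A B) x := by
  have h0 : ContDiffAt ℝ ∞ (fun y => (‖A y‖ ^ 2)⁻¹ • AL A B y) x :=
    (mis_inv A x hx).smul (mis_AL A B x hx)
  have h1 : ContDiffAt ℝ ∞ (fun y => (ip H).comp ((‖A y‖ ^ 2)⁻¹ • AL A B y)) x :=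
    contDiffAt_const.clm_comp h0
  have h2 : ContDiffAt ℝ ∞ (fun y => ((ip H).comp ((‖A y‖ ^ 2)⁻¹ • AL A B y)).flip) x :=
    (mis_flip E H).contDiffAt.comp x h1
  have h3 : ContDiffAt ℝ ∞
      (fun y => (((ip H).comp ((‖A y‖ ^ 2)⁻¹ • AL A B y)).flip).comp (AL A B y)) x :=
    h2.clm_comp (mis_AL A B x hx)
  have h4 : ContDiffAt ℝ ∞
      (fun y => ((((ip H).comp ((‖A y‖ ^ 2)⁻¹ • AL A B y)).flip).comp (AL A B y)).flip) x :=
    (mis_flip E E).contDiffAt.comp x h3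
  have h5 := h4.add (contDiffAt_const (c := (ip ℝ).bilinearComp B B))
  refine h5.congr_of_eventuallyEq (Eventually.of_forall fun y => ?_)
  ext v w
  rw [FF_apply]
  change _ = inner ℝ ((‖A y‖ ^ 2)⁻¹ • AL A B y v) (AL A B y w) + inner ℝ (B v) (B w)
  rw [real_inner_smul_left]

end Pool.Agent.H14.HC
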