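import Pool.Agent.H14.HC.P8

/-!
# Row NH: `N` is not homogeneous

`NMod pt`: `pt : PP → N` is onto on `SS`, and the distance of `N` is `min` over the four powers of `i` (`iq k`, `k : Fin 4` or `ℕ`,
`iq k = qi ^ k`) of `dd p (q · i^k)`.
`Arel x y`: for each `ε > 0` there is `R` such that each `z` with `dist x z > R` has `dist y z ^ 2 ≤ dist x z ^ 2 + ε`.
`z1 = ⟨1/√2, 0, 0, 1/√2⟩`-like unit with `z1 * qi = qj * z1`: take `zz = (1/√2) • ⟨1, 0, 0, 1⟩` (`k i = j`, `j k = i`: check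
`zz * qi = (qi + qk qi)/√2 = (i + j)/√2`, `qj * zz = (j + j k)/√2 = (j + i)/√2`).
* `relA`: `Arel (pt (0, zz)) (pt (0, qi * zz))`. Given `z = pt (w, ζ)` let `k` attain `dist (pt (0, zz)) z = dd (0, zz) (w, ζ i^k) = dd oo (w, ζ i^k zz⁻¹)`
  (`dd_mv`; `nu 0 w = 0`). `dist (pt (0, qi * zz)) z ≤ dd (0, qi * zz) (w, ζ i^k) = dd oo (w, ζ i^k zz⁻¹ qi⁻¹)`; `dl` of the two second components is the same
  (`qi⁻¹ = exq (-π/2)`, `dl_mul_exq`). `dd_oo_ge` and `dd_oo_le`: the squares differ by at most `4 π^2 / ‖w‖^2`; `dd oo (w, _) ≤ ‖w‖ + π` (`dd_oo_le_rad`) so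
  `‖w‖ > R - π`; take `R = π + 1 + 2π/√ε`.
* `relB`: `Arel (pt oo) x → dist (pt oo) x ≤ π / 4`. `x = pt (wx, zx)`; for `l > 0` let `z = pt (w, 1)`, `w = - l • e`, `e = wx / ‖wx‖` (or `1`).
  `dist (pt oo) z ≤ dd oo (w, 1) ≤ l` (`dd_oo_le_rad`, `angle 1 1 = 0`) and `≥ l` (attained at some `k`, `dd_oo_ge`). `dist x z = dd (wx, zx) (w, i^k) = dd oo (mv ..)`,
  `≥ √(‖w - wx‖^2 + dl (exq _ * i^k * zx⁻¹)^2)`, `dl` there is `dl zx`, `‖w - wx‖ = l + ‖wx‖`. So `(l + ‖wx‖)^2 + dl zx^2 ≤ l^2 + ε` for all `l > R`: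
  `wx = 0`, `dl zx = 0` (for each `ε`), `zx = exq t` (`exq_of_dl`), and `dist (pt oo) (pt (0, exq t)) ≤ dd oo (0, exq t * i^k) ≤ |t + k π/2 - 2 π m| ≤ π/4` for
  a suitable `k` (`dd_oo_le_rad`, `angle 1 (exq s) = arccos (cos s)`).
* `relC`: `π / 2 ≤ dist (pt (0, zz)) (pt (0, qi * zz))`: attained at `k`: `dd (0, zz) (0, qi * zz * i^k) = dd oo (0, qi * zz * i^k * zz⁻¹)` and
  `zz * i^k * zz⁻¹ = j^k`, so the quaternion is `i, i j, -i, - i j`: pure units, `dd_pure`.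
-/

open scoped Manifold ContDiff Topology ENNReal Quaternion
open Set Bundle Bornology MeasureTheory Filter InnerProductGeometry

noncomputable section

namespace Pool.Agent.H14.HC

open Pool.Agent.H73 (HQ qi qj IsHomogeneous)

/-- a metric space which is the quotient of the model by right multiplications by powers of `i` -/
structure NMod {N : Type} [MetricSpace N] (pt : PP → N) : Prop where
  surj : ∀ x, ∃ p ∈ SS, pt p = x
  le : ∀ p ∈ SS, ∀ q ∈ SS, ∀ k : ℕ, dist (pt p) (pt q) ≤ dd p (Rg (qi ^ k) q)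
  att : ∀ p ∈ SS, ∀ q ∈ SS, ∃ k : ℕ, k < 4 ∧ dist (pt p) (pt q) = dd p (Rg (qi ^ k) q)

/-- the relation of the asymptotic comparison -/
def Arel {N : Type} [MetricSpace N] (x y : N) : Prop :=
  ∀ ε > 0, ∃ R : ℝ, ∀ z : N, R < dist x z → dist y z ^ 2 ≤ dist x z ^ 2 + ε

/-- a unit with `zz * i = j * zz` -/
def zz : HQ := ⟨√2 / 2, 0, 0, √2 / 2⟩

lemma norm_zz : ‖zz‖ = 1 := by
  have h1 : ‖zz‖ * ‖zz‖ = 1 := by
    rw [← Quaternion.normSq_eq_norm_mul_self, Quaternion.normSq_def']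
    have h2 : √(2 : ℝ) ^ 2 = 2 := Real.sq_sqrt (by norm_num)
    show (√2 / 2) ^ 2 + 0 ^ 2 + 0 ^ 2 + (√2 / 2) ^ 2 = (1 : ℝ)
    rw [div_pow, h2]
    norm_num
  nlinarith [norm_nonneg zz]

lemma zz_qi : zz * qi = qj * zz := by
  show (⟨√2 / 2, 0, 0, √2 / 2⟩ : HQ) * ⟨0, 1, 0, 0⟩ = (⟨0, 0, 1, 0⟩ : HQ) * ⟨√2 / 2, 0, 0, √2 / 2⟩
  erw [QuaternionAlgebra.mk_mul_mk, QuaternionAlgebra.mk_mul_mk]
  simp

variable {N : Type} [MetricSpace N] {pt : PP → N}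

private lemma NH_norm_qi : ‖qi‖ = 1 := by
  have h1 : ‖qi‖ * ‖qi‖ = 1 := by
    rw [← Quaternion.normSq_eq_norm_mul_self, Quaternion.normSq_def']
    show (0 : ℝ) ^ 2 + 1 ^ 2 + 0 ^ 2 + 0 ^ 2 = (1 : ℝ)
    norm_num
  nlinarith [norm_nonneg qi]

private lemma NH_qi_inv : (qi)⁻¹ = exq (-(Real.pi / 2)) := by
  have h0 : qi ≠ 0 := by
    intro h
    have := NH_norm_qi
    rw [h, norm_zero] at this
    norm_num at this
  have h1 : exq (-(Real.pi / 2)) * qi = 1 := by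
    show (⟨Real.cos (-(Real.pi / 2)), Real.sin (-(Real.pi / 2)), 0, 0⟩ : HQ) * ⟨0, 1, 0, 0⟩
      = (⟨1, 0, 0, 0⟩ : HQ)
    erw [QuaternionAlgebra.mk_mul_mk]
    simp
  rw [← mul_one (exq (-(Real.pi / 2))), ← mul_inv_cancel₀ h0, ← mul_assoc, h1, one_mul]

theorem relA (htri : Tri) (h : NMod pt) : Arel (pt (0, zz)) (pt (0, qi * zz)) := by
  intro ε hε
  have hx : ((0, zz) : PP) ∈ SS := norm_zz
  have hy : ((0, qi * zz) : PP) ∈ SS := by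
    show ‖qi * zz‖ = 1
    rw [norm_mul, NH_norm_qi, norm_zz, one_mul]
  have hε' : 0 < √ε := Real.sqrt_pos.2 hε
  refine ⟨Real.pi + 1 + 2 * Real.pi / √ε, fun z hz => ?_⟩
  obtain ⟨⟨w, ζ⟩, hwz, rfl⟩ := h.surj z
  obtain ⟨k, -, hk⟩ := h.att _ hx _ hwz
  have hle := h.le _ hy _ hwz k
  have hg : ‖(qi ^ k : HQ)‖ = 1 := by rw [norm_pow, NH_norm_qi, one_pow]
  have hq : Rg (qi ^ k) (w, ζ) ∈ SS := by
    show ‖ζ * qi ^ k‖ = 1
    rw [norm_mul, hg, mul_one]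
    exact hwz
  rw [dd_mv hx hq] at hk
  rw [dd_mv hy hq] at hle
  -- the two points
  obtain ⟨u, hu⟩ : ∃ u : HQ, u = exq (nu 0 w) * (ζ * qi ^ k) * zz⁻¹ := ⟨_, rfl⟩
  have e1 : mv (0, zz) (Rg (qi ^ k) (w, ζ)) = (w, u) := by
    rw [hu]
    show (w - 0, _) = (w, _)
    rw [sub_zero]
    rfl
  have e2 : mv (0, qi * zz) (Rg (qi ^ k) (w, ζ)) = (w, u * exq (-(Real.pi / 2))) := by
    rw [hu, ← NH_qi_inv]
    show (w - 0, exq (nu 0 w) * (ζ * qi ^ k) * (qi * zz)⁻¹) = (w, _)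
    rw [sub_zero, mul_inv_rev, mul_assoc (exq (nu 0 w) * (ζ * qi ^ k))]
  have m1 := mv_mem hx hq
  have m2 := mv_mem hy hq
  rw [e1] at m1 hk
  rw [e2] at m2 hle
  have h1 := dd_oo_ge m1
  have h2 := dd_oo_le_rad m1
  rw [← hk] at h1 h2
  simp only at h1 h2
  -- the first coordinate is large
  have hπ := Real.pi_pos
  have ha0 := angle_nonneg (1 : HQ) u
  have ha := angle_le_pi (1 : HQ) u
  have hw1 : dist (pt (0, zz)) (pt (w, ζ)) ≤ ‖w‖ + Real.pi := by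
    refine abs_le_of_sq_le_sq' ?_ (by positivity) |>.2
    nlinarith [norm_nonneg w]
  have hwl : 1 + 2 * Real.pi / √ε < ‖w‖ := by linarith
  have hq0 : 0 < 2 * Real.pi / √ε := by positivity
  have hw0 : w ≠ 0 := by
    intro h0
    rw [h0, norm_zero] at hwl
    linarith
  have h3 := dd_oo_le htri m2 hw0
  have h4 : dist (pt (0, qi * zz)) (pt (w, ζ)) ^ 2 ≤ dd oo (w, u * exq (-(Real.pi / 2))) ^ 2 :=
    pow_le_pow_left₀ dist_nonneg hle 2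
  simp only [dl_mul_exq] at h3
  have hwpos : 0 < ‖w‖ := norm_pos_iff.2 hw0
  have h5 : 4 * Real.pi ^ 2 / ‖w‖ ^ 2 ≤ ε := by
    rw [div_le_iff₀ (by positivity)]
    have h6 : 2 * Real.pi ≤ ‖w‖ * √ε := by
      have : 2 * Real.pi / √ε ≤ ‖w‖ := by linarith
      rwa [div_le_iff₀ hε'] at this
    have h7 : (2 * Real.pi) ^ 2 ≤ (‖w‖ * √ε) ^ 2 := pow_le_pow_left₀ (by positivity) h6 2
    rw [mul_pow, mul_pow, Real.sq_sqrt hε.le] at h7
    nlinarith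
  linarith

end Pool.Agent.H14.HC
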