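import Pool.Agent.H14.HC.NH

/-!
# Row NHb: see the header of `NH.lean`
-/

open scoped Manifold ContDiff Topology ENNReal Quaternion
open Set Bundle Bornology MeasureTheory Filter InnerProductGeometry

noncomputable section

namespace Pool.Agent.H14.HC

open Pool.Agent.H73 (HQ qi qj IsHomogeneous)

variable {N : Type} [MetricSpace N] {pt : PP → N}

private lemma hcb_qi : qi = exq (Real.pi / 2) := by
  ext <;> simp [qi, exq]

private lemma hcb_qi_pow (k : ℕ) : qi ^ k = exq ((k : ℝ) * (Real.pi / 2)) := by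
  induction k with
  | zero =>
    ext <;> simp [exq]
  | succ n ih =>
    rw [pow_succ, ih, hcb_qi, ← exq_add]
    congr 1
    push_cast
    ring

private lemma hcb_angle (s : ℝ) (hs : |s| ≤ Real.pi / 4) : angle (1 : HQ) (exq s) = |s| := by
  unfold InnerProductGeometry.angle
  have h1 : inner ℝ (1 : HQ) (exq s) = Real.cos s := by
    rw [Quaternion.inner_def]
    simp [exq]
  rw [h1, norm_exq, norm_one, one_mul, div_one, ← Real.cos_abs]
  exact Real.arccos_cos (abs_nonneg s) (by linarith [Real.pi_pos])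

lemma dist_circle (h : NMod pt) (t : ℝ) : dist (pt oo) (pt (0, exq t)) ≤ Real.pi / 4 := by
  have hpi := Real.pi_pos
  set m : ℤ := round (t / (Real.pi / 2)) with hm
  set s : ℝ := t - m * (Real.pi / 2) with hs
  have hs1 : |s| ≤ Real.pi / 4 := by
    have h1 := abs_sub_round (t / (Real.pi / 2))
    have h2 : s = (t / (Real.pi / 2) - m) * (Real.pi / 2) := by
      rw [hs, sub_mul, div_mul_cancel₀ _ (by positivity)]
    rw [h2, abs_mul, abs_of_pos (by positivity : 0 < Real.pi / 2)]
    rw [← hm] at h1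
    nlinarith
  obtain ⟨k, l, hk⟩ : ∃ (k : ℕ) (l : ℤ), m + k = 4 * l := by
    refine ⟨((-m) % 4).toNat, -((-m) / 4), ?_⟩
    have h1 : 0 ≤ (-m) % 4 := Int.emod_nonneg _ (by norm_num)
    rw [Int.toNat_of_nonneg h1]
    have h2 := Int.emod_add_mul_ediv (-m) 4
    omega
  have hq : exq t * qi ^ k = exq s := by
    rw [hcb_qi_pow, ← exq_add]
    have e1 : t + (k : ℝ) * (Real.pi / 2) = s + l * (2 * Real.pi) := by
      have h1 : (m : ℝ) + k = 4 * l := by exact_mod_cast hk
      rw [hs]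
      have h2 : (k : ℝ) = 4 * l - m := by linarith
      rw [h2]
      ring
    rw [e1]
    unfold exq
    rw [Real.cos_add_int_mul_two_pi, Real.sin_add_int_mul_two_pi]
  have ho : oo ∈ SS := by
    change ‖(1 : HQ)‖ = 1
    exact norm_one
  have hc : ((0 : ℂ), exq t) ∈ SS := norm_exq t
  have h1 := h.le oo ho ((0 : ℂ), exq t) hc k
  have h2 : Rg (qi ^ k) ((0 : ℂ), exq t) = ((0 : ℂ), exq s) := by
    unfold Rg
    rw [hq]
  rw [h2] at h1
  have h3 := dd_oo_le_rad (p := ((0 : ℂ), exq s)) (norm_exq s)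
  have h4 : dd oo ((0 : ℂ), exq s) ^ 2 ≤ (Real.pi / 4) ^ 2 := by
    refine h3.trans ?_
    change ‖(0 : ℂ)‖ ^ 2 + angle 1 (exq s) ^ 2 ≤ (Real.pi / 4) ^ 2
    rw [hcb_angle s hs1, norm_zero]
    have h5 := abs_nonneg s
    nlinarith
  exact h1.trans ((le_abs_self _).trans (abs_le_of_sq_le_sq h4 (by positivity)))

end Pool.Agent.H14.HC
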