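import Pool.Agent.H14.HC.NH

/-!
# Row NHe: `relC` (see the header of `NH.lean`)
-/

open scoped Manifold ContDiff Topology ENNReal Quaternion
open Set Bundle Bornology MeasureTheory Filter InnerProductGeometry

noncomputable section

namespace Pool.Agent.H14.HC

open Pool.Agent.H73 (HQ qi qj IsHomogeneous)

variable {N : Type} [MetricSpace N] {pt : PP → N}

private lemma rcE_ne : zz ≠ 0 := by
  rw [← norm_pos_iff, norm_zz]
  exact one_pos

private lemma rcE_pow (k : ℕ) : zz * qi ^ k = qj ^ k * zz := by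
  induction k with
  | zero => rw [pow_zero, pow_zero, mul_one, one_mul]
  | succ n ih => rw [pow_succ, ← mul_assoc, ih, mul_assoc, zz_qi, ← mul_assoc, ← pow_succ]

private lemma rcE_quat (k : ℕ) : qi * zz * qi ^ k * zz⁻¹ = qi * qj ^ k := by
  rw [mul_assoc qi zz, rcE_pow, mul_assoc qi, mul_assoc (qj ^ k), mul_inv_cancel₀ rcE_ne, mul_one]

private lemma rcE_re (k : ℕ) : (qi * qj ^ k).re = 0 := by
  have h : ∀ n : ℕ, (qi * qj ^ n).re = 0 ∧ (qi * qj ^ n).imJ = 0 := by
    intro n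
    induction n with
    | zero =>
      rw [pow_zero, mul_one]
      exact ⟨rfl, rfl⟩
    | succ n ih =>
      rw [pow_succ, ← mul_assoc]
      generalize qi * qj ^ n = x at ih ⊢
      constructor
      · rw [Quaternion.re_mul]
        simp [qj, ih.2]
      · rw [Quaternion.imJ_mul]
        simp [qj, ih.1]
  exact (h k).1

private lemma rcE_norm (k : ℕ) : ‖qi * qj ^ k‖ = 1 := by
  rw [norm_mul, norm_pow, Pool.Agent.H73.normSq_qi, Pool.Agent.H73.normSq_qj, one_pow, mul_one]

private lemma rcE_mv (g : HQ) : mv (0, zz) (Rg g (0, qi * zz)) = (0, qi * zz * g * zz⁻¹) := by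
  have h1 : nu 0 0 = 0 := by simp [nu]
  have h2 : exq 0 = 1 := by
    unfold exq
    rw [Real.cos_zero, Real.sin_zero]
    rfl
  unfold mv Rg
  simp only [sub_zero, h1, h2, one_mul]

theorem relC (h : NMod pt) : Real.pi / 2 ≤ dist (pt (0, zz)) (pt (0, qi * zz)) := by
  have hp : ((0, zz) : PP) ∈ SS := norm_zz
  have hq : ((0, qi * zz) : PP) ∈ SS := by
    change ‖qi * zz‖ = 1
    rw [norm_mul, Pool.Agent.H73.normSq_qi, norm_zz, mul_one]
  obtain ⟨k, -, hk⟩ := h.att _ hp _ hq
  have hr : Rg (qi ^ k) (0, qi * zz) ∈ SS := by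
    change ‖qi * zz * qi ^ k‖ = 1
    rw [norm_mul, norm_mul, norm_pow, Pool.Agent.H73.normSq_qi, norm_zz, one_pow, mul_one, mul_one]
  rw [hk, dd_mv hp hr, rcE_mv, rcE_quat, dd_pure (rcE_re k) (rcE_norm k)]

end Pool.Agent.H14.HC
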