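import Pool.Agent.H14.HC.NHd
import Pool.Agent.H14.HC.NHe

/-!
# `N` is not homogeneous: assembly
-/

open scoped Manifold ContDiff Topology ENNReal Quaternion
open Set Bundle Bornology MeasureTheory Filter InnerProductGeometry

noncomputable section

namespace Pool.Agent.H14.HC

open Pool.Agent.H73 (HQ qi qj IsHomogeneous)

variable {N : Type} [MetricSpace N] {pt : PP → N}

theorem not_homog (htri : Tri) (h : NMod pt) : ¬ IsHomogeneous N := by
  intro hh
  obtain ⟨f, hf⟩ := hh (pt oo) (pt (0, zz))
  have h1 : Arel (pt oo) (f.symm (pt (0, qi * zz))) := by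
    intro ε hε
    obtain ⟨R, hR⟩ := relA htri h ε hε
    refine ⟨R, fun z hz => ?_⟩
    have h2 : dist (pt (0, zz)) (f z) = dist (pt oo) z := by rw [← hf, f.dist_eq]
    have h3 : dist (pt (0, qi * zz)) (f z) = dist (f.symm (pt (0, qi * zz))) z := by
      rw [← f.symm.dist_eq, f.symm_apply_apply]
    have h4 := hR (f z) (by rw [h2]; exact hz)
    rwa [h2, h3] at h4
  have h5 := relB h h1
  have h6 : dist (pt oo) (f.symm (pt (0, qi * zz))) = dist (pt (0, zz)) (pt (0, qi * zz)) := by
    rw [← f.dist_eq, f.apply_symm_apply, hf]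
  have h7 := relC h
  have h8 := Real.pi_pos
  rw [h6] at h5
  linarith

end Pool.Agent.H14.HC
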