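import Pool.Agent.H14.HC.NHb

/-!
# Row NHd (`relB`): see the header of `NH.lean`
-/

open scoped Manifold ContDiff Topology ENNReal Quaternion
open Set Bundle Bornology MeasureTheory Filter InnerProductGeometry

noncomputable section

namespace Pool.Agent.H14.HC

open Pool.Agent.H73 (HQ qi qj IsHomogeneous)

variable {N : Type} [MetricSpace N] {pt : PP → N}

private lemma qi_pow (k : ℕ) : ∃ t : ℝ, (qi : HQ) ^ k = exq t := by
  have h1 : (qi : HQ) = exq (Real.pi / 2) := by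
    unfold exq qi
    rw [Real.cos_pi_div_two, Real.sin_pi_div_two]
  have h0 : (1 : HQ) = exq 0 := by
    unfold exq
    rw [Real.cos_zero, Real.sin_zero]
    rfl
  induction k with
  | zero => exact ⟨0, by rw [pow_zero, h0]⟩
  | succ k ih =>
    obtain ⟨t, ht⟩ := ih
    exact ⟨t + Real.pi / 2, by rw [pow_succ, ht, h1, exq_add]⟩

private lemma rg_mem (w : ℂ) (k : ℕ) : Rg ((qi : HQ) ^ k) (w, 1) ∈ SS := by
  obtain ⟨t, ht⟩ := qi_pow k
  change ‖(1 : HQ) * qi ^ k‖ = 1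
  rw [ht, one_mul, norm_exq]

private lemma one_mem (w : ℂ) : ((w, 1) : PP) ∈ SS := by
  change ‖(1 : HQ)‖ = 1
  exact norm_one

/-- the main inequality -/
private lemma relB_aux (h : NMod pt) {p : PP} (hp : p ∈ SS) (hx : Arel (pt oo) (pt p)) {ε : ℝ}
    (hε : 0 < ε) : ‖p.1‖ ^ 2 + dl p.2 ^ 2 ≤ ε := by
  obtain ⟨R, hR⟩ := hx ε hε
  obtain ⟨l, hl⟩ : ∃ l : ℝ, l = max R 0 + 1 := ⟨_, rfl⟩
  have hlR : R < l := by
    rw [hl]
    have := le_max_left R 0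
    linarith
  have hl0 : 0 < l := by
    rw [hl]
    have := le_max_right R 0
    linarith
  obtain ⟨e, he, hpe⟩ : ∃ e : ℂ, ‖e‖ = 1 ∧ p.1 = (‖p.1‖ : ℂ) * e := by
    by_cases h0 : p.1 = 0
    · exact ⟨1, norm_one, by rw [h0, norm_zero]; simp⟩
    · have h1 : ‖p.1‖ ≠ 0 := norm_ne_zero_iff.2 h0
      refine ⟨p.1 / (‖p.1‖ : ℂ), ?_, ?_⟩
      · rw [norm_div, Complex.norm_real, norm_norm, div_self h1]
      · have h2 : (‖p.1‖ : ℂ) ≠ 0 := Complex.ofReal_ne_zero.2 h1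
        field_simp
  obtain ⟨w, hw⟩ : ∃ w : ℂ, w = -((l : ℂ) * e) := ⟨_, rfl⟩
  have hwn : ‖w‖ = l := by
    rw [hw, norm_neg, norm_mul, he, mul_one, Complex.norm_real, Real.norm_eq_abs, abs_of_pos hl0]
  have hwd : ‖w - p.1‖ = l + ‖p.1‖ := by
    have h1 : w - p.1 = -(((l + ‖p.1‖ : ℝ) : ℂ) * e) := by
      rw [hw]
      conv_lhs => rw [hpe]
      push_cast
      ring
    rw [h1, norm_neg, norm_mul, he, mul_one, Complex.norm_real, Real.norm_eq_abs,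
      abs_of_nonneg (by positivity)]
  have hoo : (oo : PP) ∈ SS := one_mem 0
  -- the distance from the base point
  have h1 : l ≤ dist (pt oo) (pt (w, 1)) := by
    obtain ⟨k, -, hk⟩ := h.att oo hoo (w, 1) (one_mem w)
    rw [hk]
    have h2 := dd_oo_ge (rg_mem w k)
    have h3 : (Rg ((qi : HQ) ^ k) (w, 1)).1 = w := rfl
    rw [h3, hwn] at h2
    have h4 : l ^ 2 ≤ dd oo (Rg ((qi : HQ) ^ k) (w, 1)) ^ 2 := by
      have := sq_nonneg (dl (Rg ((qi : HQ) ^ k) (w, 1)).2)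
      linarith
    exact le_of_sq_le_sq h4 (dd_nonneg _ _)
  have h2 : dist (pt oo) (pt (w, 1)) ^ 2 ≤ l ^ 2 := by
    have h3 := h.le oo hoo (w, 1) (one_mem w) 0
    have h4 := dd_oo_le_rad (rg_mem w 0)
    have h5 : (Rg ((qi : HQ) ^ 0) (w, 1)).1 = w := rfl
    have h6 : (Rg ((qi : HQ) ^ 0) (w, 1)).2 = 1 := by
      change (1 : HQ) * qi ^ 0 = 1
      rw [pow_zero, mul_one]
    rw [h5, h6, hwn, angle_self one_ne_zero] at h4
    have h7 : dist (pt oo) (pt (w, 1)) ^ 2 ≤ dd oo (Rg ((qi : HQ) ^ 0) (w, 1)) ^ 2 :=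
      pow_le_pow_left₀ dist_nonneg h3 2
    linarith
  -- the distance from the other point
  have h3 : (l + ‖p.1‖) ^ 2 + dl p.2 ^ 2 ≤ dist (pt p) (pt (w, 1)) ^ 2 := by
    obtain ⟨k, -, hk⟩ := h.att p hp (w, 1) (one_mem w)
    rw [hk, dd_mv hp (rg_mem w k)]
    have h4 := dd_oo_ge (mv_mem hp (rg_mem w k))
    have h5 : (mv p (Rg ((qi : HQ) ^ k) (w, 1))).1 = w - p.1 := rfl
    have h6 : dl (mv p (Rg ((qi : HQ) ^ k) (w, 1))).2 = dl p.2 := by
      obtain ⟨t, ht⟩ := qi_pow k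
      change dl (exq (nu p.1 w) * ((1 : HQ) * qi ^ k) * (p.2)⁻¹) = dl p.2
      rw [ht, one_mul, mul_assoc, dl_exq_mul, dl_exq_mul, dl_inv hp]
    rw [h5, h6, hwd] at h4
    exact h4
  have h4 := hR (pt (w, 1)) (lt_of_lt_of_le hlR h1)
  have h5 : 0 ≤ ‖p.1‖ := norm_nonneg _
  nlinarith [mul_nonneg hl0.le h5]

theorem relB (h : NMod pt) {x : N} (hx : Arel (pt oo) x) : dist (pt oo) x ≤ Real.pi / 4 := by
  obtain ⟨p, hp, rfl⟩ := h.surj x
  have h1 : ‖p.1‖ ^ 2 + dl p.2 ^ 2 ≤ 0 := by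
    refine le_of_forall_pos_le_add fun ε hε => ?_
    rw [zero_add]
    exact relB_aux h hp hx hε
  have h2 : ‖p.1‖ ^ 2 = 0 := le_antisymm (by linarith [sq_nonneg (dl p.2)]) (sq_nonneg _)
  have h3 : dl p.2 ^ 2 = 0 := le_antisymm (by linarith [sq_nonneg ‖p.1‖]) (sq_nonneg _)
  have h4 : p.1 = 0 := norm_eq_zero.1 (pow_eq_zero_iff two_ne_zero |>.1 h2)
  obtain ⟨t, ht⟩ := exq_of_dl hp (pow_eq_zero_iff two_ne_zero |>.1 h3)
  have h5 : p = (0, exq t) := Prod.ext h4 ht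
  rw [h5]
  exact dist_circle h t

end Pool.Agent.H14.HC
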