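import Pool.Agent.H14.HC.P8

/-!
# Row NHf: constant displacement

`cd_Rg`: for `g = qi ^ k`: `pD p (Rg g p) = pD oo (mv p (Rg g p)) = pD oo (0, p.2 * g * p.2⁻¹)` (`nu w w = 0`, `exq 0 = 1`); for `k = 0`: `(0, 1)`, for `k = 2`: `(0, -1)`,
for `k = 1, 3` the second component is a pure unit (`re (x y) = re (y x)`), `dd_pure` (and `pD_ne_top`). (`qi ^ k` depends on `k % 4`.)
-/

open scoped Manifold ContDiff Topology ENNReal Quaternion
open Set Bundle Bornology MeasureTheory Filter InnerProductGeometry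

noncomputable section

namespace Pool.Agent.H14.HC

open Pool.Agent.H73 (HQ qi qj)

private lemma cd_mv (g : HQ) (p : PP) : mv p (Rg g p) = (0, p.2 * g * (p.2)⁻¹) := by
  have h0 : nu p.1 p.1 = 0 := by
    unfold nu
    ring
  have h1 : exq 0 = 1 := by
    unfold exq
    rw [Real.cos_zero, Real.sin_zero]
    rfl
  unfold mv Rg
  simp only [h0, h1, sub_self, one_mul]

private lemma cd_inv {a : HQ} (ha : ‖a‖ = 1) : a⁻¹ = star a := by
  apply inv_eq_of_mul_eq_one_right
  rw [Quaternion.self_mul_star, Quaternion.normSq_eq_norm_mul_self, ha, mul_one]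
  rfl

private lemma cd_mem {g : HQ} (hg : ‖g‖ = 1) {p : PP} (hp : p ∈ SS) : Rg g p ∈ SS := by
  have h1 : ‖p.2‖ = 1 := hp
  show ‖p.2 * g‖ = 1
  rw [norm_mul, h1, hg, one_mul]

private lemma cd_pure {g : HQ} (h0 : g.re = 0) (hg : ‖g‖ = 1) {p : PP} (hp : p ∈ SS) :
    dd p (Rg g p) = Real.pi / 2 := by
  have h1 : ‖p.2‖ = 1 := hp
  rw [dd_mv hp (cd_mem hg hp), cd_mv]
  apply dd_pure
  · rw [cd_inv h1]
    simp only [Quaternion.re_mul, Quaternion.imI_mul, Quaternion.imJ_mul, Quaternion.imK_mul, Quaternion.re_star,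
      Quaternion.imI_star, Quaternion.imJ_star, Quaternion.imK_star, h0]
    ring
  · rw [norm_mul, norm_mul, norm_inv, h1, hg]
    norm_num

private lemma cd_norm_qi : ‖qi‖ = 1 := by
  have h : ‖qi‖ * ‖qi‖ = 1 := by
    rw [← Quaternion.normSq_eq_norm_mul_self, Quaternion.normSq_def']
    unfold qi
    norm_num
  nlinarith [norm_nonneg qi]

private lemma cd_sq : qi * qi = -1 := by
  unfold qi
  ext <;> simp

theorem cd_Rg (k : ℕ) : ∃ c : ℝ, ∀ p ∈ SS, dd p (Rg (qi ^ k) p) = c := by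
  have h4 : qi ^ 4 = 1 := by
    calc qi ^ 4 = (qi * qi) * (qi * qi) := by noncomm_ring
      _ = 1 := by rw [cd_sq]; noncomm_ring
  have hk : qi ^ k = qi ^ (k % 4) := by
    conv_lhs => rw [← Nat.div_add_mod k 4]
    rw [pow_add, pow_mul, h4, one_pow, one_mul]
  rw [hk]
  have hlt : k % 4 < 4 := Nat.mod_lt _ (by norm_num)
  interval_cases (k % 4)
  · refine ⟨dd oo (0, 1), fun p hp => ?_⟩
    have h1 : ‖p.2‖ = 1 := hp
    have hne : p.2 ≠ 0 := fun h => by rw [h, norm_zero] at h1; exact zero_ne_one h1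
    rw [pow_zero, dd_mv hp (cd_mem (norm_one) hp), cd_mv, mul_one, mul_inv_cancel₀ hne]
  · refine ⟨Real.pi / 2, fun p hp => ?_⟩
    rw [pow_one]
    exact cd_pure rfl cd_norm_qi hp
  · refine ⟨dd oo (0, -1), fun p hp => ?_⟩
    have h1 : ‖p.2‖ = 1 := hp
    have hne : p.2 ≠ 0 := fun h => by rw [h, norm_zero] at h1; exact zero_ne_one h1
    rw [pow_two, cd_sq, dd_mv hp (cd_mem (by rw [norm_neg, norm_one]) hp), cd_mv, mul_neg, mul_one, neg_mul,
      mul_inv_cancel₀ hne]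
  · refine ⟨Real.pi / 2, fun p hp => ?_⟩
    have h3 : qi ^ 3 = -qi := by
      calc qi ^ 3 = (qi * qi) * qi := by noncomm_ring
        _ = -qi := by rw [cd_sq]; noncomm_ring
    rw [h3]
    refine cd_pure ?_ (by rw [norm_neg]; exact cd_norm_qi) hp
    rw [Quaternion.re_neg]
    unfold qi
    norm_num

end Pool.Agent.H14.HC
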