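import Pool.Agent.H14.HC.Df

/-!
# Row P1a: tangent vectors, symmetries

* `PIso.pD_le`: if `c` is a curve (`PCur p q c`) then `Φ ∘ c` is one (`PCur (Φ p) (Φ q)`), with the same speeds on `Icc 0 1`:
  `derivWithin (Φ ∘ c) = fderiv Φ (c t) (derivWithin c ..)`, and the velocity of `c` is tangent: `‖(c t).2‖ ^ 2 = 1` on `Icc 0 1`, so
  `inner (c t).2 (derivWithin c ..).2 = 0` (`tangent`; the unit interval has unique derivatives).
-/

open scoped Manifold ContDiff Topology ENNReal Quaternion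
open Set Bundle Bornology MeasureTheory Filter

noncomputable section

namespace Pool.Agent.H14.HC

open Pool.Agent.H73 (HQ qi qj)

lemma PCur.tangent {p q : PP} {c : ℝ → PP} (hc : PCur p q c) {t : ℝ} (ht : t ∈ Icc (0 : ℝ) 1) :
    inner ℝ (c t).2 (derivWithin c (Icc 0 1) t).2 = (0 : ℝ) := by
  have hd : DifferentiableWithinAt ℝ c (Icc 0 1) t := hc.smooth.differentiableOn one_ne_zero t ht
  have h1 : HasDerivWithinAt c (derivWithin c (Icc 0 1) t) (Icc 0 1) t := hd.hasDerivWithinAt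
  have h2 : HasDerivWithinAt (fun s => (c s).2) (derivWithin c (Icc 0 1) t).2 (Icc 0 1) t :=
    (ContinuousLinearMap.snd ℝ ℂ HQ).hasFDerivAt.comp_hasDerivWithinAt t h1
  have h3 := h2.inner ℝ h2
  have h4 : HasDerivWithinAt (fun s => inner ℝ (c s).2 (c s).2) (0 : ℝ) (Icc 0 1) t := by
    refine (hasDerivWithinAt_const t (Icc (0 : ℝ) 1) (1 : ℝ)).congr (fun s hs => ?_) ?_
    · have h5 : ‖(c s).2‖ = 1 := hc.mem s hs
      rw [real_inner_self_eq_norm_sq, h5, one_pow]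
    · have h5 : ‖(c t).2‖ = 1 := hc.mem t ht
      rw [real_inner_self_eq_norm_sq, h5, one_pow]
  have h6 := (uniqueDiffOn_Icc (zero_lt_one' ℝ) t ht).eq_deriv _ h3 h4
  have h7 : inner ℝ (derivWithin c (Icc 0 1) t).2 (c t).2
      = inner ℝ (c t).2 (derivWithin c (Icc 0 1) t).2 := real_inner_comm _ _
  rw [h7] at h6
  linarith

lemma PIso.pD_le {Φ : PP → PP} (hΦ : PIso Φ) (p q : PP) : pD (Φ p) (Φ q) ≤ pD p q := by
  unfold pD
  refine le_iInf₂ fun c hc => ?_
  have hcur : PCur (Φ p) (Φ q) (Φ ∘ c) :=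
    { smooth := hΦ.smooth.comp_contDiffOn hc.smooth
      mem := fun t ht => hΦ.mem _ (hc.mem t ht)
      left := by rw [Function.comp_apply, hc.left]
      right := by rw [Function.comp_apply, hc.right] }
  refine iInf₂_le_of_le (Φ ∘ c) hcur ?_
  unfold PLen
  apply le_of_eq
  apply setLIntegral_congr_fun measurableSet_Icc
  intro t ht
  have hd : DifferentiableWithinAt ℝ c (Icc 0 1) t := hc.smooth.differentiableOn one_ne_zero t ht
  have h1 : HasDerivWithinAt c (derivWithin c (Icc 0 1) t) (Icc 0 1) t := hd.hasDerivWithinAt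
  have h2 : HasFDerivAt Φ (fderiv ℝ Φ (c t)) (c t) :=
    (hΦ.smooth.differentiable one_ne_zero (c t)).hasFDerivAt
  have h3 : derivWithin (Φ ∘ c) (Icc 0 1) t = fderiv ℝ Φ (c t) (derivWithin c (Icc 0 1) t) :=
    (h2.comp_hasDerivWithinAt t h1).derivWithin (uniqueDiffOn_Icc (zero_lt_one' ℝ) t ht)
  show ENNReal.ofReal (spd (Φ (c t)) (derivWithin (Φ ∘ c) (Icc 0 1) t)) = _
  rw [h3, hΦ.spd_eq (c t) (hc.mem t ht) _ (hc.tangent ht)]

lemma PEq.pD_eq {Φ Ψ : PP → PP} (h : PEq Φ Ψ) {p q : PP} (hp : p ∈ SS) (hq : q ∈ SS) :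
    pD (Φ p) (Φ q) = pD p q := by
  apply le_antisymm (h.fst.pD_le p q)
  have h1 := h.snd.pD_le (Φ p) (Φ q)
  rwa [h.left p hp, h.left q hq] at h1

end Pool.Agent.H14.HC
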