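import Pool.Agent.H14.HC.P1a

/-!
# Row P1b: calibrations; upper bounds by curves

* `cal_le`: `f ∘ c` is `C^1` on `Icc 0 1`, use `enorm_sub_le_lintegral_derivWithin_Icc_of_contDiffOn_Icc` as in
  `Pool/Agent/H73/PQE.lean` (`calF_le_pLen`), `PCur.tangent`.
* `pD_le_of_curve`: `iInf₂_le_of_le`, the integral of a constant over `Icc 0 1`.
-/

open scoped Manifold ContDiff Topology ENNReal Quaternion
open Set Bundle Bornology MeasureTheory Filter

noncomputable section

namespace Pool.Agent.H14.HC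

open Pool.Agent.H73 (HQ qi qj)

lemma cal_le {f : PP → ℝ} (hf : ∀ p ∈ SS, ContDiffAt ℝ 1 f p)
    (h : ∀ p ∈ SS, ∀ v : PP, inner ℝ p.2 v.2 = (0 : ℝ) → |fderiv ℝ f p v| ≤ spd p v) (p q : PP) :
    ENNReal.ofReal (f q - f p) ≤ pD p q := by
  refine le_iInf₂ fun c hc => ?_
  have h1 : ContDiffOn ℝ 1 (fun t => f (c t)) (Icc 0 1) := by
    intro t ht
    exact (hf _ (hc.mem t ht)).comp_contDiffWithinAt t (hc.smooth t ht)
  have h2 := enorm_sub_le_lintegral_derivWithin_Icc_of_contDiffOn_Icc h1 zero_le_one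
  refine le_trans ?_ (h2.trans ?_)
  · simp only [hc.left, hc.right]
    rw [Real.enorm_eq_ofReal_abs]
    exact ENNReal.ofReal_le_ofReal (le_abs_self _)
  · unfold PLen
    apply setLIntegral_mono' measurableSet_Icc
    intro t ht
    have h3 : HasDerivWithinAt c (derivWithin c (Icc 0 1) t) (Icc 0 1) t :=
      ((hc.smooth t ht).differentiableWithinAt one_ne_zero).hasDerivWithinAt
    have h4 : HasDerivWithinAt (fun t => f (c t)) (fderiv ℝ f (c t) (derivWithin c (Icc 0 1) t))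
        (Icc 0 1) t :=
      (((hf _ (hc.mem t ht)).differentiableAt one_ne_zero).hasFDerivAt).comp_hasDerivWithinAt t h3
    rw [h4.derivWithin (uniqueDiffOn_Icc zero_lt_one t ht), Real.enorm_eq_ofReal_abs]
    exact ENNReal.ofReal_le_ofReal (h _ (hc.mem t ht) _ (hc.tangent ht))

lemma pD_le_of_curve {p q : PP} {c : ℝ → PP} {C : ℝ} (hc : PCur p q c)
    (h : ∀ t ∈ Icc (0 : ℝ) 1, spd (c t) (derivWithin c (Icc 0 1) t) ≤ C) :
    pD p q ≤ ENNReal.ofReal C := by
  refine iInf₂_le_of_le c hc ?_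
  unfold PLen
  calc ∫⁻ t in Icc (0 : ℝ) 1, ENNReal.ofReal (spd (c t) (derivWithin c (Icc 0 1) t))
      ≤ ∫⁻ _t in Icc (0 : ℝ) 1, ENNReal.ofReal C := by
        apply setLIntegral_mono' measurableSet_Icc
        intro t ht
        exact ENNReal.ofReal_le_ofReal (h t ht)
    _ = ENNReal.ofReal C := by
        simp

end Pool.Agent.H14.HC
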