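import Pool.Agent.H14.HC.Df

/-!
# Row P2: symmetries of the model, part 1

Each map is smooth with an explicit derivative; the second component of the image of a velocity `v` at `p`
(`inner p.2 v.2 = 0` is not even needed for these) satisfies `om (Φ p) (DΦ v) = om p v * g`, `om p v`, `exq t * om p v`,
`qj * om p v` respectively, and the first component has the norm of `v.1`:
* `Rg g`: `nu` unchanged, `(v.2 * g) + nu • (qi * (p.2 * g)) = om p v * g`.
* `Ro e`, `‖e‖ = 1`: `nu (e w) (e w') = ‖e‖^2 nu w w'`.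
* `Lu t`: `qi * exq t = exq t * qi`.
* `Sj`: `nu (conj w) (conj w') = - nu w w'`, `qi * qj = - qj * qi`.
`PIso.comp`: chain rule; `Φ` keeps the tangent condition: `fderiv Φ p v` is tangent at `Φ p` when `v` is tangent at `p`, because
`‖(Φ p).2‖ = 1` on `SS` (take the curve `s ↦ (p.1 + s v.1, (p.2 + s v.2) / ‖p.2 + s v.2‖)` in `SS`), this is `PIso.tan`.
-/

open scoped Manifold ContDiff Topology ENNReal Quaternion
open Set Bundle Bornology MeasureTheory Filter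

noncomputable section

namespace Pool.Agent.H14.HC

open Pool.Agent.H73 (HQ qi qj)

private lemma p2_nf (c : ℝ) : HasDerivAt (fun s : ℝ => (√(1 + s ^ 2 * c))⁻¹) 0 0 := by
  have h1 : HasDerivAt (fun s : ℝ => 1 + s ^ 2 * c) 0 0 := by
    have h := ((hasDerivAt_id (0 : ℝ)).pow 2).mul_const c
    have h' := h.const_add 1
    refine HasDerivAt.congr_deriv h' ?_
    simp
  have h2 := h1.sqrt (by norm_num)
  have h3 := h2.inv (by norm_num)
  refine HasDerivAt.congr_deriv h3 ?_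
  simp

lemma PIso.tan {Φ : PP → PP} (hs : ContDiff ℝ 1 Φ) (hm : ∀ p ∈ SS, Φ p ∈ SS) {p : PP} (hp : p ∈ SS)
    {v : PP} (hv : inner ℝ p.2 v.2 = (0 : ℝ)) : inner ℝ (Φ p).2 (fderiv ℝ Φ p v).2 = (0 : ℝ) := by
  have hp1 : ‖p.2‖ = 1 := hp
  obtain ⟨γ, hγ⟩ : ∃ γ : ℝ → PP, γ = fun s =>
      (p.1 + s • v.1, (√(1 + s ^ 2 * ‖v.2‖ ^ 2))⁻¹ • (p.2 + s • v.2)) := ⟨_, rfl⟩
  have hnorm : ∀ s : ℝ, ‖p.2 + s • v.2‖ ^ 2 = 1 + s ^ 2 * ‖v.2‖ ^ 2 := by
    intro s
    rw [norm_add_sq_real, inner_smul_right, hv, norm_smul, hp1, mul_pow, Real.norm_eq_abs, sq_abs]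
    ring
  have hS : ∀ s : ℝ, γ s ∈ SS := by
    intro s
    rw [hγ]
    show ‖(√(1 + s ^ 2 * ‖v.2‖ ^ 2))⁻¹ • (p.2 + s • v.2)‖ = 1
    have h1 : 0 < 1 + s ^ 2 * ‖v.2‖ ^ 2 := by positivity
    rw [norm_smul, ← hnorm s, Real.sqrt_sq (norm_nonneg _), norm_inv, norm_norm]
    refine inv_mul_cancel₀ ?_
    intro h0
    have h2 := hnorm s
    rw [h0] at h2
    linarith
  have h0 : γ 0 = p := by
    rw [hγ]
    simp
  have hd : HasDerivAt γ v 0 := by
    have h1 : HasDerivAt (fun s : ℝ => p.1 + s • v.1) v.1 0 := by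
      have h := ((hasDerivAt_id (0 : ℝ)).smul_const v.1).const_add p.1
      refine HasDerivAt.congr_deriv h ?_
      simp
    have h2 : HasDerivAt (fun s : ℝ => p.2 + s • v.2) v.2 0 := by
      have h := ((hasDerivAt_id (0 : ℝ)).smul_const v.2).const_add p.2
      refine HasDerivAt.congr_deriv h ?_
      simp
    have h3 : HasDerivAt (fun s : ℝ => (√(1 + s ^ 2 * ‖v.2‖ ^ 2))⁻¹ • (p.2 + s • v.2)) v.2 0 := by
      have h := (p2_nf (‖v.2‖ ^ 2)).smul h2
      refine HasDerivAt.congr_deriv h ?_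
      simp
    rw [hγ]
    exact h1.prodMk h3
  have hΦ : HasFDerivAt Φ (fderiv ℝ Φ (γ 0)) (γ 0) :=
    ((hs.differentiable (by norm_num)) (γ 0)).hasFDerivAt
  have h4 : HasDerivAt (fun s => Φ (γ s)) (fderiv ℝ Φ (γ 0) v) 0 := hΦ.comp_hasDerivAt 0 hd
  have h5 : HasDerivAt (fun s => (Φ (γ s)).2) (fderiv ℝ Φ (γ 0) v).2 0 :=
    (ContinuousLinearMap.snd ℝ ℂ HQ).hasFDerivAt.comp_hasDerivAt 0 h4
  have h6 := h5.inner ℝ h5
  have h7 : (fun s => inner ℝ (Φ (γ s)).2 (Φ (γ s)).2) = fun _ : ℝ => (1 : ℝ) := by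
    funext s
    have h8 : ‖(Φ (γ s)).2‖ = 1 := hm _ (hS s)
    rw [real_inner_self_eq_norm_sq, h8, one_pow]
  rw [h7] at h6
  have h9 := h6.unique (hasDerivAt_const (0 : ℝ) (1 : ℝ))
  rw [h0, real_inner_comm (fderiv ℝ Φ p v).2 (Φ p).2] at h9
  have h10 := real_inner_comm (fderiv ℝ Φ p v).2 (Φ p).2
  linarith

lemma PIso.comp {Φ Φ' : PP → PP} (h : PIso Φ) (h' : PIso Φ') : PIso (Φ ∘ Φ') := by
  refine ⟨h.smooth.comp h'.smooth, fun p hp => h.mem _ (h'.mem p hp), fun p hp v hv => ?_⟩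
  have d1 : DifferentiableAt ℝ Φ (Φ' p) := (h.smooth.differentiable (by norm_num)) _
  have d2 : DifferentiableAt ℝ Φ' p := (h'.smooth.differentiable (by norm_num)) _
  rw [fderiv_comp p d1 d2]
  show spd (Φ (Φ' p)) (fderiv ℝ Φ (Φ' p) (fderiv ℝ Φ' p v)) = spd p v
  rw [h.spd_eq _ (h'.mem p hp) _ (PIso.tan h'.smooth h'.mem hp hv), h'.spd_eq p hp v hv]

lemma PEq.comp {Φ Ψ Φ' Ψ' : PP → PP} (h : PEq Φ Ψ) (h' : PEq Φ' Ψ') : PEq (Φ ∘ Φ') (Ψ' ∘ Ψ) where
  fst := h.fst.comp h'.fst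
  snd := h'.snd.comp h.snd
  left p hp := by
    simp only [Function.comp_apply]
    rw [h.left _ (h'.fst.mem p hp), h'.left p hp]
  right p hp := by
    simp only [Function.comp_apply]
    rw [h'.right _ (h.snd.mem p hp), h.right p hp]

lemma PEq.symm {Φ Ψ : PP → PP} (h : PEq Φ Ψ) : PEq Ψ Φ := ⟨h.snd, h.fst, h.right, h.left⟩

lemma piso_Rg {g : HQ} (hg : ‖g‖ = 1) : PIso (Rg g) := by
  obtain ⟨L, hL⟩ : ∃ L : PP →L[ℝ] PP, ∀ p, L p = (p.1, p.2 * g) :=
    ⟨(ContinuousLinearMap.fst ℝ ℂ HQ).prod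
      (((ContinuousLinearMap.mul ℝ HQ).flip g).comp (ContinuousLinearMap.snd ℝ ℂ HQ)),
      fun p => rfl⟩
  have hR : Rg g = L := by
    funext p
    rw [hL]
    rfl
  refine ⟨?_, ?_, ?_⟩
  · rw [hR]
    exact L.contDiff
  · intro p hp
    have hp1 : ‖p.2‖ = 1 := hp
    show ‖p.2 * g‖ = 1
    rw [norm_mul, hp1, hg, one_mul]
  · intro p hp v hv
    have h1 : fderiv ℝ (Rg g) p v = (v.1, v.2 * g) := by
      rw [hR, ContinuousLinearMap.fderiv, hL]
    rw [h1]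
    unfold spd
    have h2 : om (Rg g p) (v.1, v.2 * g) = om p v * g := by
      unfold om Rg
      simp only [add_mul, smul_mul_assoc, mul_assoc]
    rw [h2, norm_mul, hg, mul_one]

lemma piso_Ro {e : ℂ} (he : ‖e‖ = 1) : PIso (Ro e) := by
  obtain ⟨L, hL⟩ : ∃ L : PP →L[ℝ] PP, ∀ p, L p = (e * p.1, p.2) :=
    ⟨((ContinuousLinearMap.mul ℝ ℂ e).comp (ContinuousLinearMap.fst ℝ ℂ HQ)).prod
      (ContinuousLinearMap.snd ℝ ℂ HQ), fun p => rfl⟩
  have hR : Ro e = L := by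
    funext p
    rw [hL]
    rfl
  have hnu : ∀ w w' : ℂ, nu (e * w) (e * w') = nu w w' := by
    intro w w'
    have h1 : e.re * e.re + e.im * e.im = 1 := by
      have h2 := Complex.sq_norm e
      rw [he, Complex.normSq_apply] at h2
      linarith
    unfold nu
    simp only [Complex.mul_re, Complex.mul_im]
    linear_combination (w.re * w'.im - w.im * w'.re) * h1
  refine ⟨?_, ?_, ?_⟩
  · rw [hR]
    exact L.contDiff
  · intro p hp
    exact hp
  · intro p hp v hv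
    have h1 : fderiv ℝ (Ro e) p v = (e * v.1, v.2) := by
      rw [hR, ContinuousLinearMap.fderiv, hL]
    rw [h1]
    unfold spd
    have h2 : om (Ro e p) (e * v.1, v.2) = om p v := by
      unfold om Ro
      simp only [hnu]
    rw [h2]
    show √(‖e * v.1‖ ^ 2 + _) = _
    rw [norm_mul, he, one_mul]

end Pool.Agent.H14.HC
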