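import Pool.Agent.H14.HC.P2

/-!
# Row P2b: symmetries of the model, part 2 (see the header of `P2.lean`)

`Ta a`: first component `w + a`, second `u * z` with `u = exq (- nu a w)`. For a velocity `v = (w', z')`: `nu a` is linear in its second
argument, the derivative of `u` is `- nu a w' • (qi * u)` (`exq` has derivative `t ↦ qi * exq t`), `u` commutes with `qi`, and
`nu (w + a) w' = nu w w' + nu a w'`. Hence `om (Ta a p) (D v) = - nu a w' • (qi * u * z) + u * z' + (nu w w' + nu a w') • (qi * (u * z))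
= u * om p v`, and `‖u‖ = 1`.
-/

open scoped Manifold ContDiff Topology ENNReal Quaternion
open Set Bundle Bornology MeasureTheory Filter

noncomputable section

namespace Pool.Agent.H14.HC

open Pool.Agent.H73 (HQ qi qj)

lemma P2b_exq_eq (t : ℝ) : exq t = Real.cos t • (1 : HQ) + Real.sin t • qi := by
  ext <;> simp [exq, qi]

lemma norm_exq (t : ℝ) : ‖exq t‖ = 1 := by
  have h : ‖exq t‖ * ‖exq t‖ = 1 := by
    rw [← Quaternion.normSq_eq_norm_mul_self, Quaternion.normSq_def']
    simp only [exq]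
    have := Real.sin_sq_add_cos_sq t
    linarith
  nlinarith [norm_nonneg (exq t)]

lemma exq_add (s t : ℝ) : exq (s + t) = exq s * exq t := by
  ext
  · simp [exq, Real.cos_add]
  · simp [exq, Real.sin_add]
    ring
  · simp [exq]
  · simp [exq]

lemma exq_comm_qi (t : ℝ) : exq t * qi = qi * exq t := by
  ext <;> simp [exq, qi]

lemma hasDerivAt_exq (t : ℝ) : HasDerivAt exq (qi * exq t) t := by
  have h1 : HasDerivAt (fun t : ℝ => Real.cos t • (1 : HQ) + Real.sin t • qi)
      ((-Real.sin t) • (1 : HQ) + Real.cos t • qi) t :=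
    ((Real.hasDerivAt_cos t).smul_const (1 : HQ)).add ((Real.hasDerivAt_sin t).smul_const qi)
  have h2 : exq = fun t : ℝ => Real.cos t • (1 : HQ) + Real.sin t • qi := funext P2b_exq_eq
  have h3 : qi * exq t = (-Real.sin t) • (1 : HQ) + Real.cos t • qi := by
    ext <;> simp [exq, qi]
  rw [h3, h2]
  exact h1

lemma P2b_exq_smooth : ContDiff ℝ 1 exq := by
  have h2 : exq = fun t : ℝ => Real.cos t • (1 : HQ) + Real.sin t • qi := funext P2b_exq_eq
  rw [h2]
  exact (Real.contDiff_cos.smul contDiff_const).add (Real.contDiff_sin.smul contDiff_const)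

lemma P2b_nu_smooth (a : ℂ) : ContDiff ℝ 1 (fun w : ℂ => -nu a w) := by
  have h : (fun w : ℂ => -nu a w) = fun w : ℂ => -(a.re * Complex.imCLM w - a.im * Complex.reCLM w) := by
    funext w
    simp [nu]
  rw [h]
  exact ((contDiff_const.mul Complex.imCLM.contDiff).sub
    (contDiff_const.mul Complex.reCLM.contDiff)).neg

lemma P2b_Ta_smooth (a : ℂ) : ContDiff ℝ 1 (Ta a) := by
  have h1 : ContDiff ℝ 1 (fun p : PP => p.1 + a) := contDiff_fst.add contDiff_const
  have h2 : ContDiff ℝ 1 (fun p : PP => exq (-nu a p.1) * p.2) :=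
    (P2b_exq_smooth.comp ((P2b_nu_smooth a).comp contDiff_fst)).mul contDiff_snd
  exact h1.prodMk h2

lemma P2b_fderiv_Ta (a : ℂ) (p v : PP) : fderiv ℝ (Ta a) p v =
    (v.1, (-nu a v.1) • (qi * exq (-nu a p.1)) * p.2 + exq (-nu a p.1) * v.2) := by
  have h1 : HasDerivAt (fun s : ℝ => p + s • v) v 0 := by
    have h := ((hasDerivAt_id (0 : ℝ)).smul_const v).const_add p
    simpa using h
  have hd : HasFDerivAt (Ta a) (fderiv ℝ (Ta a) p) (p + (0 : ℝ) • v) := by
    rw [zero_smul, add_zero]
    exact ((P2b_Ta_smooth a).differentiable one_ne_zero p).hasFDerivAt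
  have h3 : HasDerivAt (fun s : ℝ => Ta a (p + s • v)) (fderiv ℝ (Ta a) p v) 0 := by
    have h := HasFDerivAt.comp_hasDerivAt (f := fun s : ℝ => p + s • v) (0 : ℝ) hd h1
    exact h
  have e1 : HasDerivAt (fun s : ℝ => (p + s • v).1 + a) v.1 0 := by
    have h := (((hasDerivAt_id (0 : ℝ)).smul_const v.1).const_add p.1).add_const a
    simpa using h
  have e2 : HasDerivAt (fun s : ℝ => (p + s • v).2) v.2 0 := by
    have h := ((hasDerivAt_id (0 : ℝ)).smul_const v.2).const_add p.2
    simpa using h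
  have e3 : HasDerivAt (fun s : ℝ => -nu a (p + s • v).1) (-nu a v.1) 0 := by
    have h : (fun s : ℝ => -nu a (p + s • v).1) = fun s : ℝ => -nu a p.1 + s * (-nu a v.1) := by
      funext s
      simp [nu]
      ring
    rw [h]
    have h' := ((hasDerivAt_id (0 : ℝ)).mul_const (-nu a v.1)).const_add (-nu a p.1)
    simpa using h'
  have e4 : HasDerivAt (fun s : ℝ => exq (-nu a (p + s • v).1))
      ((-nu a v.1) • (qi * exq (-nu a p.1))) 0 := by
    have h := (hasDerivAt_exq (-nu a (p + (0 : ℝ) • v).1)).scomp (0 : ℝ) e3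
    rw [zero_smul, add_zero] at h
    exact h
  have e5 := e4.mul e2
  have e6 : HasDerivAt (fun s : ℝ => Ta a (p + s • v))
      (v.1, (-nu a v.1) • (qi * exq (-nu a p.1)) * p.2 + exq (-nu a p.1) * v.2) 0 := by
    have h := e1.prodMk e5
    simp only [zero_smul, add_zero] at h
    exact h
  exact h3.unique e6

lemma piso_Ta (a : ℂ) : PIso (Ta a) where
  smooth := P2b_Ta_smooth a
  mem p hp := by
    have hp' : ‖p.2‖ = 1 := hp
    change ‖exq (-nu a p.1) * p.2‖ = 1
    rw [norm_mul, norm_exq, hp', one_mul]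
  spd_eq p hp v hv := by
    rw [P2b_fderiv_Ta]
    have h1 : om (Ta a p) (v.1, (-nu a v.1) • (qi * exq (-nu a p.1)) * p.2 + exq (-nu a p.1) * v.2) =
        exq (-nu a p.1) * om p v := by
      have hn : nu (p.1 + a) v.1 = nu p.1 v.1 + nu a v.1 := by
        simp [nu]
        ring
      change (-nu a v.1) • (qi * exq (-nu a p.1)) * p.2 + exq (-nu a p.1) * v.2 +
        nu (p.1 + a) v.1 • (qi * (exq (-nu a p.1) * p.2)) =
        exq (-nu a p.1) * (v.2 + nu p.1 v.1 • (qi * p.2))
      rw [hn, mul_add, mul_smul_comm, ← mul_assoc (exq (-nu a p.1)) qi, exq_comm_qi, smul_mul_assoc,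
        ← mul_assoc qi, add_smul, neg_smul]
      abel
    unfold spd
    rw [h1, norm_mul, norm_exq, one_mul]

end Pool.Agent.H14.HC
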