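import Pool.Agent.H14.HC.P2b

/-!
# Row P2c: `Lu`, `Sj` (see the header of `P2.lean`)
-/

open scoped Manifold ContDiff Topology ENNReal Quaternion
open Set Bundle Bornology MeasureTheory Filter

noncomputable section

namespace Pool.Agent.H14.HC

open Pool.Agent.H73 (HQ qi qj)

/-- `Lu t` as a continuous linear map -/
private def P2c_LuL (t : ℝ) : PP →L[ℝ] PP :=
  (ContinuousLinearMap.fst ℝ ℂ HQ).prod
    ((ContinuousLinearMap.mul ℝ HQ (exq t)).comp (ContinuousLinearMap.snd ℝ ℂ HQ))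

/-- `Sj` as a continuous linear map -/
private def P2c_SjL : PP →L[ℝ] PP :=
  ((Complex.conjCLE : ℂ →L[ℝ] ℂ).comp (ContinuousLinearMap.fst ℝ ℂ HQ)).prod
    ((ContinuousLinearMap.mul ℝ HQ qj).comp (ContinuousLinearMap.snd ℝ ℂ HQ))

private lemma P2c_Lu_eq (t : ℝ) : Lu t = P2c_LuL t := rfl

private lemma P2c_Sj_eq : Sj = P2c_SjL := rfl

private lemma P2c_nu_conj (w w' : ℂ) :
    nu ((starRingEnd ℂ) w) ((starRingEnd ℂ) w') = -nu w w' := by
  simp only [nu, Complex.conj_re, Complex.conj_im]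
  ring

private lemma P2c_qi_qj (z : HQ) : qi * (qj * z) = -(qj * (qi * z)) := by
  have h : (qi : HQ) * qj = -(qj * qi) := by
    apply Quaternion.ext
    · rw [Quaternion.re_neg, Quaternion.re_mul, Quaternion.re_mul]
      simp [qi, qj]
    · rw [Quaternion.imI_neg, Quaternion.imI_mul, Quaternion.imI_mul]
      simp [qi, qj]
    · rw [Quaternion.imJ_neg, Quaternion.imJ_mul, Quaternion.imJ_mul]
      simp [qi, qj]
    · rw [Quaternion.imK_neg, Quaternion.imK_mul, Quaternion.imK_mul]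
      simp [qi, qj]
  rw [← mul_assoc, h, neg_mul, mul_assoc]

private lemma P2c_norm_qj : ‖(qj : HQ)‖ = 1 := by
  have h : ‖(qj : HQ)‖ * ‖(qj : HQ)‖ = 1 := by
    rw [← Quaternion.normSq_eq_norm_mul_self, Quaternion.normSq_def']
    simp [qj]
  nlinarith [norm_nonneg (qj : HQ)]

lemma piso_Lu (t : ℝ) : PIso (Lu t) := by
  refine ⟨?_, ?_, ?_⟩
  · rw [P2c_Lu_eq]
    exact (P2c_LuL t).contDiff
  · intro p hp
    change ‖exq t * p.2‖ = 1
    rw [norm_mul, norm_exq, one_mul]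
    exact hp
  · intro p _ v _
    have h1 : fderiv ℝ (Lu t) p v = (v.1, exq t * v.2) := by
      rw [P2c_Lu_eq, ContinuousLinearMap.fderiv]
      rfl
    have h2 : om (Lu t p) (v.1, exq t * v.2) = exq t * om p v := by
      change exq t * v.2 + nu p.1 v.1 • (qi * (exq t * p.2)) =
        exq t * (v.2 + nu p.1 v.1 • (qi * p.2))
      rw [mul_add, mul_smul_comm, ← mul_assoc, ← exq_comm_qi, mul_assoc]
    unfold spd
    rw [h1, h2, norm_mul, norm_exq, one_mul]

lemma piso_Sj : PIso Sj := by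
  refine ⟨?_, ?_, ?_⟩
  · rw [P2c_Sj_eq]
    exact P2c_SjL.contDiff
  · intro p hp
    change ‖qj * p.2‖ = 1
    rw [norm_mul, P2c_norm_qj, one_mul]
    exact hp
  · intro p _ v _
    have h1 : fderiv ℝ Sj p v = ((starRingEnd ℂ) v.1, qj * v.2) := by
      rw [P2c_Sj_eq, ContinuousLinearMap.fderiv]
      rfl
    have h2 : om (Sj p) ((starRingEnd ℂ) v.1, qj * v.2) = qj * om p v := by
      change qj * v.2 + nu ((starRingEnd ℂ) p.1) ((starRingEnd ℂ) v.1) • (qi * (qj * p.2)) =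
        qj * (v.2 + nu p.1 v.1 • (qi * p.2))
      rw [P2c_nu_conj, P2c_qi_qj, mul_add, mul_smul_comm, neg_smul, smul_neg, neg_neg]
    unfold spd
    rw [h1, h2, norm_mul, P2c_norm_qj, one_mul]
    simp only [RCLike.norm_conj]

end Pool.Agent.H14.HC
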