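import Pool.Agent.H14.HC.P2c

/-!
# Row P3: invertible symmetries

`peq_*`: inverses are `Rg g⁻¹`, `Ro e⁻¹`, `Lu (-t)`, `Ta (-a)`; for `Sj` the inverse is `Sj` followed by multiplication with `-1`
(`qj * qj = -1`, `Rg (-1)`).
`move_oo`: compute.
-/

open scoped Manifold ContDiff Topology ENNReal Quaternion
open Set Bundle Bornology MeasureTheory Filter

noncomputable section

namespace Pool.Agent.H14.HC

open Pool.Agent.H73 (HQ qi qj)

lemma P3_exq_zero : exq 0 = 1 := by
  ext <;> simp [exq]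

lemma P3_qj2 (z : HQ) : qj * (qj * z) = -z := by
  have h : qj * qj = (-1 : HQ) := by
    ext <;> simp [qj]
  rw [← mul_assoc, h, neg_one_mul]

lemma peq_Rg {g : HQ} (hg : ‖g‖ = 1) : PEq (Rg g) (Rg g⁻¹) := by
  have h0 : g ≠ 0 := by
    intro h
    rw [h, norm_zero] at hg
    exact zero_ne_one hg
  refine ⟨piso_Rg hg, piso_Rg (by rw [norm_inv, hg, inv_one]), fun p _ => ?_, fun p _ => ?_⟩
  · simp only [Rg]
    rw [mul_inv_cancel_right₀ h0]
  · simp only [Rg]
    rw [inv_mul_cancel_right₀ h0]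

lemma peq_Ro {e : ℂ} (he : ‖e‖ = 1) : PEq (Ro e) (Ro e⁻¹) := by
  have h0 : e ≠ 0 := by
    intro h
    rw [h, norm_zero] at he
    exact zero_ne_one he
  refine ⟨piso_Ro he, piso_Ro (by rw [norm_inv, he, inv_one]), fun p _ => ?_, fun p _ => ?_⟩
  · simp only [Ro]
    rw [inv_mul_cancel_left₀ h0]
  · simp only [Ro]
    rw [mul_inv_cancel_left₀ h0]

lemma peq_Lu (t : ℝ) : PEq (Lu t) (Lu (-t)) := by
  refine ⟨piso_Lu t, piso_Lu (-t), fun p _ => ?_, fun p _ => ?_⟩
  · simp only [Lu]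
    rw [← mul_assoc, ← exq_add, neg_add_cancel, P3_exq_zero, one_mul]
  · simp only [Lu]
    rw [← mul_assoc, ← exq_add, add_neg_cancel, P3_exq_zero, one_mul]

lemma peq_Ta (a : ℂ) : PEq (Ta a) (Ta (-a)) := by
  refine ⟨piso_Ta a, piso_Ta (-a), fun p _ => ?_, fun p _ => ?_⟩
  · simp only [Ta]
    have h : -nu (-a) (p.1 + a) + -nu a p.1 = 0 := by
      simp only [nu, Complex.neg_re, Complex.neg_im, Complex.add_re, Complex.add_im]
      ring
    rw [← mul_assoc, ← exq_add, h, P3_exq_zero, one_mul, add_neg_cancel_right]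
  · simp only [Ta]
    have h : -nu a (p.1 + -a) + -nu (-a) p.1 = 0 := by
      simp only [nu, Complex.neg_re, Complex.neg_im, Complex.add_re, Complex.add_im]
      ring
    rw [← mul_assoc, ← exq_add, h, P3_exq_zero, one_mul, neg_add_cancel_right]

lemma peq_Sj : PEq Sj (Rg (-1) ∘ Sj) := by
  refine ⟨piso_Sj, (piso_Rg (by rw [norm_neg, norm_one])).comp piso_Sj, fun p _ => ?_, fun p _ => ?_⟩
  · simp only [Function.comp_apply, Sj, Rg]
    rw [P3_qj2, mul_neg_one, neg_neg, Complex.conj_conj]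
  · simp only [Function.comp_apply, Sj, Rg]
    rw [mul_neg_one, mul_neg, P3_qj2, neg_neg, Complex.conj_conj]

/-- moving a point to the base point -/
lemma move_oo {p : PP} (hp : p ∈ SS) : (Rg (p.2)⁻¹ ∘ Ta (-p.1)) p = oo := by
  have hp1 : ‖p.2‖ = 1 := hp
  have h0 : p.2 ≠ 0 := by
    intro h
    rw [h, norm_zero] at hp1
    exact zero_ne_one hp1
  have h : -nu (-p.1) p.1 = 0 := by
    simp only [nu, Complex.neg_re, Complex.neg_im]
    ring
  simp only [Function.comp_apply, Rg, Ta, oo]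
  rw [h, P3_exq_zero, one_mul, mul_inv_cancel₀ h0, add_neg_cancel]

end Pool.Agent.H14.HC
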