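import Pool.Agent.H14.HC.P3

/-!
# Row P3b: the model is weakly symmetric

`exists_swap`: let `p, q ∈ SS`. By `Ta` (with `a = -(p.1 + q.1) / 2`) and `Ro` (as `‖e‖ = 1` with `e * (p.1 - q.1)` real, `≥ 0`) we may conjugate to
`p = (r, z1)`, `q = (-r, z2)`, `r` real (conjugation of a swap by a symmetry is a swap: `PEq.comp`, `PEq.symm`). Put `P = z2 * star z1` (unit). Choose a unit `J = b qj + c qk` (no real and no `i` part) with `inner J P = 0`
(from the `j, k` components of `P`; if both vanish take `qj`). Put `g = star z1 * star J * z2` (unit).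
Swap: `Φ (w, z) = (- conj w, J * z * g)`. It is a composition of `Sj`, `Ro (-1)`, `Lu t`, `Rg g`: `J = exq t * qj` for some `t`
(`b = cos t`, `c = sin t`; `exq t * qj = cos t j + sin t k`). `Φ (r, z1) = (-r, J z1 star z1 star J z2) = (-r, z2)`.
`Φ (-r, z2) = (r, J z2 star z1 star J z2) = (r, J P star J P z1)` and `J P star J P = 1`: `Y = P star J` is a unit with real part
`inner P J = 0`, so `Y * Y = -1`, and `J (P star J) P = J Y Y J = - J J = 1` (as `P = Y J`).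
(`star J = - J`, `J * J = -1`.)
-/

open scoped Manifold ContDiff Topology ENNReal Quaternion
open Set Bundle Bornology MeasureTheory Filter

noncomputable section

namespace Pool.Agent.H14.HC

open Pool.Agent.H73 (HQ qi qj)

private lemma P3b_sq {Y : HQ} (hY : ‖Y‖ = 1) (h0 : Y.re = 0) : Y * Y = -1 := by
  have h1 : Y * star Y = (1 : HQ) := by
    rw [Quaternion.self_mul_star, Quaternion.normSq_eq_norm_mul_self, hY, one_mul]
    rfl
  have h2 : star Y = -Y := by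
    ext <;> simp [h0]
  rw [h2, mul_neg] at h1
  rw [← h1, neg_neg]

private lemma P3b_angle (c d : ℝ) : ∃ t : ℝ, Real.cos t * c + Real.sin t * d = 0 := by
  refine ⟨Complex.arg ⟨d, -c⟩, ?_⟩
  by_cases h0 : (⟨d, -c⟩ : ℂ) = 0
  · have h1 := congrArg Complex.re h0
    have h2 := congrArg Complex.im h0
    simp only [Complex.zero_re, Complex.zero_im] at h1 h2
    have h3 : c = 0 := by linarith
    rw [h1, h3]
    ring
  · have h1 := Complex.norm_mul_cos_arg (⟨d, -c⟩ : ℂ)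
    have h2 := Complex.norm_mul_sin_arg (⟨d, -c⟩ : ℂ)
    simp only at h1 h2
    have h3 : ‖(⟨d, -c⟩ : ℂ)‖ ≠ 0 := norm_ne_zero_iff.mpr h0
    have h4 : ‖(⟨d, -c⟩ : ℂ)‖ * (Real.cos (Complex.arg ⟨d, -c⟩) * c +
        Real.sin (Complex.arg ⟨d, -c⟩) * d) = 0 := by
      linear_combination c * h1 + d * h2
    exact (mul_eq_zero.mp h4).resolve_left h3

private lemma P3b_J {P : HQ} (hP : ‖P‖ = 1) :
    ∃ t : ℝ, (exq t * qj) * P * (exq t * qj)⁻¹ * P = 1 := by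
  obtain ⟨t, ht⟩ := P3b_angle P.imJ P.imK
  refine ⟨t, ?_⟩
  obtain ⟨J, hJ⟩ : ∃ J : HQ, J = exq t * qj := ⟨_, rfl⟩
  have hc : J = ⟨0, 0, Real.cos t, Real.sin t⟩ := by
    rw [hJ]
    apply Quaternion.ext
    · rw [Quaternion.re_mul]
      simp [exq, qj]
    · rw [Quaternion.imI_mul]
      simp [exq, qj]
    · rw [Quaternion.imJ_mul]
      simp [exq, qj]
    · rw [Quaternion.imK_mul]
      simp [exq, qj]
  have hn : ‖J‖ = 1 := by
    rw [hJ, norm_mul, norm_exq, Pool.Agent.H73.normSq_qj, one_mul]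
  have hJ2 : J * J = -1 := P3b_sq hn (by rw [hc])
  have hJi : J⁻¹ = -J := by
    refine inv_eq_of_mul_eq_one_right ?_
    rw [mul_neg, hJ2, neg_neg]
  have hY : (P * J) * (P * J) = -1 := by
    refine P3b_sq (by rw [norm_mul, hP, hn, one_mul]) ?_
    rw [Quaternion.re_mul, hc]
    simp only
    linarith
  rw [← hJ, hJi]
  have hP0 : P ≠ 0 := by
    intro h
    rw [h, norm_zero] at hP
    exact zero_ne_one hP
  have h1 : P * (J * P * -J * P) = P * 1 := by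
    calc P * (J * P * -J * P) = -((P * J) * (P * J)) * P := by
          simp only [mul_neg, neg_mul, mul_assoc]
      _ = P * 1 := by rw [hY, neg_neg, one_mul, mul_one]
  exact mul_left_cancel₀ hP0 h1

/-- the swap for points `(r, z1)`, `(-r, z2)` with `r` real -/
private lemma P3b_swap0 (r : ℝ) {z1 z2 : HQ} (h1 : ‖z1‖ = 1) (h2 : ‖z2‖ = 1) :
    ∃ Φ Ψ : PP → PP, PEq Φ Ψ ∧ Φ ((r : ℂ), z1) = (-(r : ℂ), z2) ∧ Φ (-(r : ℂ), z2) = ((r : ℂ), z1) := by
  have hz1 : z1 ≠ 0 := by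
    intro h
    rw [h, norm_zero] at h1
    exact zero_ne_one h1
  obtain ⟨t, ht⟩ := P3b_J (P := z2 * z1⁻¹) (by rw [norm_mul, norm_inv, h1, h2, inv_one, one_mul])
  have hJn : ‖exq t * qj‖ = 1 := by
    rw [norm_mul, norm_exq, Pool.Agent.H73.normSq_qj, one_mul]
  have hJ0 : exq t * qj ≠ 0 := by
    intro h
    rw [h, norm_zero] at hJn
    exact zero_ne_one hJn
  obtain ⟨g, hg⟩ : ∃ g : HQ, g = z1⁻¹ * (exq t * qj)⁻¹ * z2 := ⟨_, rfl⟩
  have hgn : ‖g‖ = 1 := by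
    rw [hg, norm_mul, norm_mul, norm_inv, norm_inv, h1, h2, hJn]
    norm_num
  have hm : ‖(-1 : ℂ)‖ = 1 := by simp
  have hE := (peq_Rg hgn).comp ((peq_Lu t).comp (peq_Sj.comp (peq_Ro hm)))
  refine ⟨_, _, hE, ?_, ?_⟩
  · simp only [Function.comp_apply, Rg, Lu, Sj, Ro]
    refine Prod.ext ?_ ?_
    · simp
    · show exq t * (qj * z1) * g = z2
      rw [hg]
      calc exq t * (qj * z1) * (z1⁻¹ * (exq t * qj)⁻¹ * z2)
          = (exq t * qj) * (z1 * z1⁻¹) * (exq t * qj)⁻¹ * z2 := by simp only [mul_assoc]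
        _ = z2 := by rw [mul_inv_cancel₀ hz1, mul_one, mul_inv_cancel₀ hJ0, one_mul]
  · simp only [Function.comp_apply, Rg, Lu, Sj, Ro]
    refine Prod.ext ?_ ?_
    · simp
    · show exq t * (qj * z2) * g = z1
      rw [hg]
      calc exq t * (qj * z2) * (z1⁻¹ * (exq t * qj)⁻¹ * z2)
          = ((exq t * qj) * (z2 * z1⁻¹) * (exq t * qj)⁻¹ * (z2 * z1⁻¹)) * z1 := by
            rw [mul_assoc _ (z2 * z1⁻¹) z1, inv_mul_cancel_right₀ hz1]
            simp only [mul_assoc]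
        _ = z1 := by rw [ht, one_mul]

theorem exists_swap {p q : PP} (hp : p ∈ SS) (hq : q ∈ SS) :
    ∃ Φ Ψ : PP → PP, PEq Φ Ψ ∧ Φ p = q ∧ Φ q = p := by
  have hp1 : ‖p.2‖ = 1 := hp
  have hq1 : ‖q.2‖ = 1 := hq
  obtain ⟨d, hd⟩ : ∃ d : ℂ, d = (p.1 - q.1) / 2 := ⟨_, rfl⟩
  obtain ⟨e, he, r, hr⟩ : ∃ e : ℂ, ‖e‖ = 1 ∧ ∃ r : ℝ, e * d = (r : ℂ) := by
    by_cases h0 : d = 0
    · exact ⟨1, norm_one, 0, by rw [h0]; simp⟩
    · refine ⟨(starRingEnd ℂ) d / (‖d‖ : ℂ), ?_, ‖d‖, ?_⟩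
      · rw [norm_div, Complex.norm_conj, Complex.norm_real, norm_norm, div_self (norm_ne_zero_iff.mpr h0)]
      · have h1 : ((‖d‖ : ℝ) : ℂ) ≠ 0 := by
          exact_mod_cast norm_ne_zero_iff.mpr h0
        rw [div_mul_eq_mul_div, div_eq_iff h1, mul_comm, Complex.mul_conj, Complex.normSq_eq_norm_sq]
        push_cast
        ring
  have hA := (peq_Ro he).comp (peq_Ta (-(p.1 + q.1) / 2))
  have hAp := hA.fst.mem p hp
  have hAq := hA.fst.mem q hq
  obtain ⟨A, hAd⟩ : ∃ A : PP → PP, A = Ro e ∘ Ta (-(p.1 + q.1) / 2) := ⟨_, rfl⟩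
  obtain ⟨B, hBd⟩ : ∃ B : PP → PP, B = Ta (-(-(p.1 + q.1) / 2)) ∘ Ro e⁻¹ := ⟨_, rfl⟩
  rw [← hAd] at hA hAp hAq
  rw [← hBd] at hA
  have h1 : A p = ((r : ℂ), (A p).2) := by
    refine Prod.ext ?_ rfl
    rw [hAd]
    simp only [Function.comp_apply, Ro, Ta]
    rw [← hr, hd]
    ring
  have h2 : A q = (-(r : ℂ), (A q).2) := by
    refine Prod.ext ?_ rfl
    rw [hAd]
    simp only [Function.comp_apply, Ro, Ta]
    rw [← hr, hd]
    ring
  obtain ⟨Φ, Ψ, hE, e1, e2⟩ := P3b_swap0 r (z1 := (A p).2) (z2 := (A q).2) hAp hAq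
  rw [← h1, ← h2] at e1 e2
  refine ⟨_, _, hA.symm.comp (hE.comp hA), ?_, ?_⟩
  · simp only [Function.comp_apply]
    rw [e1, hA.left q hq]
  · simp only [Function.comp_apply]
    rw [e2, hA.left p hp]

end Pool.Agent.H14.HC
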