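import Pool.Agent.H14.HC.P1

/-!
# Row P4: the distance of the base point to the pure units in the fibre is at least `π / 2`

`Gf c (w, z) = inner c z * h`, `h = (1 + ‖w‖^2)^(-1/2)` (written `inner c z / √(1 + ‖w‖^2)`).
At `p = (w, z) ∈ SS` and a tangent velocity `v = (w', z')` put `f = inner c z`, `g = inner c (qi * z)`, `o = om p v = z' + nu w w' • (qi * z)`,
`R = Re (conj w w') = w.re w'.re + w.im w'.im`, `N = nu w w'`. The derivative of `Gf c` is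
`D = h * inner c z' - h^3 * f * R = h * inner c o - h * g * N - h^3 * f * R`.
* `f^2 + g^2 ≤ ‖c‖^2 = 1` (`z`, `qi * z` are orthonormal: Bessel; in coordinates also fine).
* `inner z o = 0`, so `(inner c o)^2 ≤ ‖o‖^2 (1 - f^2)` (subtract `f • z` from `c`).
* `R^2 + N^2 = ‖w‖^2 ‖w'‖^2`.
* Cauchy-Schwarz: `D^2 ≤ (‖o‖^2 + ‖w'‖^2) * (h^2 (1 - f^2) + ‖w‖^2 (h^2 g^2 + h^6 f^2)) ≤ spd^2 * (1 - h^2 f^2)`, because
  `h^2 (1 + ‖w‖^2) = 1` and `h^2 + ‖w‖^2 h^2 (1 - f^2) + ‖w‖^2 h^6 f^2 = 1 - ‖w‖^2 h^2 f^2 (1 - h^4) ≤ 1`.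
-/

open scoped Manifold ContDiff Topology ENNReal Quaternion
open Set Bundle Bornology MeasureTheory Filter

noncomputable section

namespace Pool.Agent.H14.HC

open Pool.Agent.H73 (HQ qi qj)

/-- the calibrating function -/
def Gf (c : HQ) (p : PP) : ℝ := inner ℝ c p.2 / √(1 + ‖p.1‖ ^ 2)

private lemma p4_pos (w : ℂ) : 0 < 1 + ‖w‖ ^ 2 := by positivity

lemma contDiff_Gf (c : HQ) : ContDiff ℝ 1 (Gf c) := by
  have h1 : ContDiff ℝ 1 (fun p : PP => inner ℝ c p.2) := contDiff_const.inner ℝ contDiff_snd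
  have h2 : ContDiff ℝ 1 (fun p : PP => √(1 + ‖p.1‖ ^ 2)) :=
    (contDiff_const.add (contDiff_fst.norm_sq ℝ)).sqrt (fun p => (p4_pos p.1).ne')
  exact h1.div h2 (fun p => (Real.sqrt_pos.2 (p4_pos p.1)).ne')

lemma fderiv_Gf (c : HQ) (p v : PP) : fderiv ℝ (Gf c) p v =
    inner ℝ c v.2 / √(1 + ‖p.1‖ ^ 2) -
      inner ℝ c p.2 * (p.1.re * v.1.re + p.1.im * v.1.im) / √(1 + ‖p.1‖ ^ 2) ^ 3 := by
  have h1 : HasFDerivAt (fun q : PP => (inner ℝ c q.2 : ℝ))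
      ((innerSL ℝ c).comp (ContinuousLinearMap.snd ℝ ℂ HQ)) p :=
    ((innerSL ℝ c).comp (ContinuousLinearMap.snd ℝ ℂ HQ)).hasFDerivAt
  have h2 : HasFDerivAt (fun q : PP => ‖q.1‖ ^ 2)
      (2 • (innerSL ℝ p.1).comp (ContinuousLinearMap.fst ℝ ℂ HQ)) p :=
    (hasFDerivAt_fst (𝕜 := ℝ) (p := p)).norm_sq
  have hpos := p4_pos p.1
  have hs : 0 < √(1 + ‖p.1‖ ^ 2) := Real.sqrt_pos.2 hpos
  have h3 := (h2.const_add 1).sqrt hpos.ne'
  have hc : HasDerivAt (fun t : ℝ => Gf c (p + t • v)) (fderiv ℝ (Gf c) p v) 0 := by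
    have h4 : HasFDerivAt (Gf c) (fderiv ℝ (Gf c) p) (p + (0 : ℝ) • v) := by
      rw [zero_smul, add_zero]
      exact (((contDiff_Gf c).differentiable (by norm_num)) p).hasFDerivAt
    have h5 : HasDerivAt (fun t : ℝ => p + t • v) v 0 := by
      simpa using ((hasDerivAt_id (0 : ℝ)).smul_const v).const_add p
    exact h4.comp_hasDerivAt (0 : ℝ) h5
  have h5 : HasDerivAt (fun t : ℝ => p + t • v) v 0 := by
    simpa using ((hasDerivAt_id (0 : ℝ)).smul_const v).const_add p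
  have e0 : p + (0 : ℝ) • v = p := by simp
  have h1' := (e0.symm ▸ h1).comp_hasDerivAt (0 : ℝ) h5
  have h3' := (e0.symm ▸ h3).comp_hasDerivAt (0 : ℝ) h5
  have hd := h1'.div h3' (by
    simp only [Function.comp_apply, e0]
    exact hs.ne')
  have hu := hc.unique hd
  rw [hu]
  have hI : (inner ℝ p.1 v.1 : ℝ) = p.1.re * v.1.re + p.1.im * v.1.im := by
    rw [Complex.inner]
    simp
    ring
  simp only [Function.comp_apply, e0]
  have q1 : ((innerSL ℝ) c ∘SL ContinuousLinearMap.snd ℝ ℂ HQ) v = (inner ℝ c v.2 : ℝ) := rfl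
  have q2 : ((1 / (2 * √(1 + ‖p.1‖ ^ 2))) • 2 • (innerSL ℝ) p.1 ∘SL ContinuousLinearMap.fst ℝ ℂ HQ) v =
      (1 / (2 * √(1 + ‖p.1‖ ^ 2))) * (2 * (p.1.re * v.1.re + p.1.im * v.1.im)) := by
    rw [← hI]
    change (1 / (2 * √(1 + ‖p.1‖ ^ 2))) * (2 • (inner ℝ p.1 v.1 : ℝ)) = _
    rw [nsmul_eq_mul]
    norm_num
  rw [q1, q2]
  field_simp

private lemma p4_inner (a b : HQ) : inner ℝ a b =
    a.re * b.re + a.imI * b.imI + a.imJ * b.imJ + a.imK * b.imK := by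
  rw [Quaternion.inner_def]
  simp

private lemma p4_norm (a : HQ) : ‖a‖ ^ 2 = a.re ^ 2 + a.imI ^ 2 + a.imJ ^ 2 + a.imK ^ 2 := by
  rw [← real_inner_self_eq_norm_sq, p4_inner]
  ring

private lemma p4_bessel (c z : HQ) (hc : ‖c‖ = 1) (hz : ‖z‖ = 1) :
    (inner ℝ c z) ^ 2 + (inner ℝ c (qi * z)) ^ 2 ≤ (1 : ℝ) := by
  set f : ℝ := inner ℝ c z with hf
  set g : ℝ := inner ℝ c (qi * z) with hg
  have hq : ‖qi * z‖ ^ 2 = 1 := by
    rw [p4_norm]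
    have h := p4_norm z
    rw [hz] at h
    simp [qi]
    nlinarith
  have ho : inner ℝ z (qi * z) = (0 : ℝ) := by
    rw [p4_inner]
    simp [qi]
    ring
  have h := real_inner_self_nonneg (x := c - f • z - g • (qi * z))
  have e : inner ℝ (c - f • z - g • (qi * z)) (c - f • z - g • (qi * z)) = (1 : ℝ) - f ^ 2 - g ^ 2 := by
    have ho' : inner ℝ (qi * z) z = (0 : ℝ) := by rw [real_inner_comm, ho]
    simp only [inner_sub_left, inner_sub_right, real_inner_smul_left, real_inner_smul_right,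
      real_inner_self_eq_norm_sq, hc, ho, ho', real_inner_comm c z, real_inner_comm c (qi * z),
      ← hf, ← hg, norm_smul, mul_pow, Real.norm_eq_abs, sq_abs, hq, hz]
    ring
  rw [e] at h
  linarith

private lemma p4_cs (c z o : HQ) (hc : ‖c‖ = 1) (hz : ‖z‖ = 1) (hzo : inner ℝ z o = (0 : ℝ)) :
    (inner ℝ c o) ^ 2 ≤ ‖o‖ ^ 2 * (1 - (inner ℝ c z) ^ 2) := by
  set f : ℝ := inner ℝ c z with hf
  have e1 : inner ℝ c o = (inner ℝ (c - f • z) o : ℝ) := by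
    rw [inner_sub_left, real_inner_smul_left, hzo]
    ring
  have e2 : ‖c - f • z‖ ^ 2 = 1 - f ^ 2 := by
    rw [← real_inner_self_eq_norm_sq]
    simp only [inner_sub_left, inner_sub_right, real_inner_smul_left, real_inner_smul_right,
      real_inner_self_eq_norm_sq, hc, real_inner_comm c z, ← hf, norm_smul, mul_pow,
      Real.norm_eq_abs, sq_abs, hz]
    ring
  rw [e1, ← e2, ← mul_pow, mul_comm]
  have h := abs_real_inner_le_norm (c - f • z) o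
  exact sq_le_sq' (by linarith [(abs_le.1 h).1]) (abs_le.1 h).2

private lemma p4_mix {X Y O A V B : ℝ} (hO : 0 ≤ O) (hA : 0 ≤ A) (hV : 0 ≤ V) (hB : 0 ≤ B)
    (h1 : X ^ 2 ≤ O * A) (h2 : Y ^ 2 ≤ V * B) : (X - Y) ^ 2 ≤ (O + V) * (A + B) := by
  have h3 : (2 * (X * Y)) ^ 2 ≤ (O * B + V * A) ^ 2 := by
    have h4 : X ^ 2 * Y ^ 2 ≤ (O * A) * (V * B) := mul_le_mul h1 h2 (sq_nonneg _) (by positivity)
    nlinarith [sq_nonneg (O * B - V * A)]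
  have h5 := abs_le_of_sq_le_sq' h3 (by positivity)
  nlinarith [h5.1]

lemma Gf_sq_le {c : HQ} (hc : ‖c‖ = 1) {p : PP} (hp : p ∈ SS) : Gf c p ^ 2 ≤ 1 := by
  have hz : ‖p.2‖ = 1 := hp
  have h1 := p4_bessel c p.2 hc hz
  have hpos := p4_pos p.1
  unfold Gf
  rw [div_pow, Real.sq_sqrt hpos.le, div_le_one hpos]
  nlinarith [sq_nonneg ‖p.1‖, sq_nonneg (inner ℝ c (qi * p.2) : ℝ)]

lemma Gf_ineq {c : HQ} (hc : ‖c‖ = 1) {p : PP} (hp : p ∈ SS) {v : PP}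
    (hv : inner ℝ p.2 v.2 = (0 : ℝ)) :
    (fderiv ℝ (Gf c) p v) ^ 2 ≤ spd p v ^ 2 * (1 - Gf c p ^ 2) := by
  have hz : ‖p.2‖ = 1 := hp
  have hpos := p4_pos p.1
  have hs : 0 < √(1 + ‖p.1‖ ^ 2) := Real.sqrt_pos.2 hpos
  have hfg := p4_bessel c p.2 hc hz
  have hzq : inner ℝ p.2 (qi * p.2) = (0 : ℝ) := by
    rw [p4_inner]
    simp [qi]
    ring
  have hzo : inner ℝ p.2 (om p v) = (0 : ℝ) := by
    unfold om
    rw [inner_add_right, real_inner_smul_right, hv, hzq]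
    ring
  have hco := p4_cs c p.2 (om p v) hc hz hzo
  have hov : inner ℝ c (om p v) = (inner ℝ c v.2 : ℝ) + nu p.1 v.1 * inner ℝ c (qi * p.2) := by
    unfold om
    rw [inner_add_right, real_inner_smul_right]
  have hRN : (p.1.re * v.1.re + p.1.im * v.1.im) ^ 2 + nu p.1 v.1 ^ 2 = ‖p.1‖ ^ 2 * ‖v.1‖ ^ 2 := by
    rw [Complex.sq_norm, Complex.sq_norm, Complex.normSq_apply, Complex.normSq_apply]
    unfold nu
    ring
  rw [fderiv_Gf]
  have hsp : spd p v ^ 2 = ‖om p v‖ ^ 2 + ‖v.1‖ ^ 2 := by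
    unfold spd
    rw [Real.sq_sqrt (by positivity)]
    ring
  rw [hsp]
  unfold Gf
  set f : ℝ := inner ℝ c p.2 with hf
  set g : ℝ := inner ℝ c (qi * p.2) with hg
  set a : ℝ := inner ℝ c (om p v) with ha
  set N : ℝ := nu p.1 v.1 with hN
  set R : ℝ := p.1.re * v.1.re + p.1.im * v.1.im with hR
  have hcv : (inner ℝ c v.2 : ℝ) = a - N * g := by linarith
  rw [hcv]
  set h : ℝ := (√(1 + ‖p.1‖ ^ 2))⁻¹ with hh
  have hh0 : 0 < h := inv_pos.2 hs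
  have hh2 : h ^ 2 * (1 + ‖p.1‖ ^ 2) = 1 := by
    rw [hh, inv_pow, Real.sq_sqrt hpos.le, inv_mul_cancel₀ hpos.ne']
  have hW := sq_nonneg ‖p.1‖
  set W : ℝ := ‖p.1‖ ^ 2 with hWd
  have e1 : (a - N * g) / √(1 + W) - f * R / √(1 + W) ^ 3 =
      h * a - (h * g * N + h ^ 3 * f * R) := by
    rw [hh]
    field_simp
    ring
  have e2 : f / √(1 + W) = h * f := by
    rw [hh]
    field_simp
  rw [e1, e2]
  have hf1 : f ^ 2 ≤ 1 := by nlinarith [sq_nonneg g]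
  have hh1 : h ^ 2 ≤ 1 := by nlinarith [sq_nonneg h]
  have hX : (h * a) ^ 2 ≤ ‖om p v‖ ^ 2 * (h ^ 2 * (1 - f ^ 2)) := by
    rw [mul_pow]
    nlinarith [sq_nonneg h]
  have hY : (h * g * N + h ^ 3 * f * R) ^ 2 ≤ ‖v.1‖ ^ 2 * (W * (h ^ 2 * g ^ 2 + h ^ 6 * f ^ 2)) := by
    have h7 : (h * g * N + h ^ 3 * f * R) ^ 2 ≤ (h ^ 2 * g ^ 2 + h ^ 6 * f ^ 2) * (R ^ 2 + N ^ 2) := by
      nlinarith [sq_nonneg (h * g * R - h ^ 3 * f * N)]
    rw [hRN] at h7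
    linarith
  have h8 := p4_mix (sq_nonneg ‖om p v‖) (mul_nonneg (sq_nonneg h) (by linarith) : 0 ≤ h ^ 2 * (1 - f ^ 2)) (sq_nonneg ‖v.1‖)
    (by positivity : 0 ≤ W * (h ^ 2 * g ^ 2 + h ^ 6 * f ^ 2)) hX hY
  refine h8.trans (mul_le_mul_of_nonneg_left ?_ (by positivity))
  have h9 : h ^ 4 ≤ 1 := by nlinarith [sq_nonneg h]
  have h10 : W * (h ^ 2 * g ^ 2) ≤ W * (h ^ 2 * (1 - f ^ 2)) :=
    mul_le_mul_of_nonneg_left (mul_le_mul_of_nonneg_left (by linarith) (sq_nonneg h)) hW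
  have h11 : 0 ≤ W * h ^ 2 * f ^ 2 * (1 - h ^ 4) := by
    have : 0 ≤ 1 - h ^ 4 := by linarith
    positivity
  have e3 : h ^ 2 * (1 - f ^ 2) + W * (h ^ 2 * (1 - f ^ 2)) + W * (h ^ 6 * f ^ 2) =
      1 - (h * f) ^ 2 - W * h ^ 2 * f ^ 2 * (1 - h ^ 4) := by
    linear_combination hh2
  linarith [e3, h10, h11, mul_add W (h ^ 2 * g ^ 2) (h ^ 6 * f ^ 2)]

end Pool.Agent.H14.HC
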