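import Pool.Agent.H14.HC.P4

/-!
# Row P4b: the lower bound (definitions and notation in `P4.lean`)

`lemA`: for `κ < 1` use `cal_le` with `arcsin (κ * Gf c)`: its derivative is `κ D / √(1 - κ^2 Gf^2)`, in absolute value `≤ spd`.
`Gf c oo = c.re = 0`, `Gf c (0, c) = 1`. Let `κ → 1` (compare `Pool/Agent/H73/PQE.lean`, `mD_le_pLen`).
-/

open scoped Manifold ContDiff Topology ENNReal Quaternion
open Set Bundle Bornology MeasureTheory Filter

noncomputable section

namespace Pool.Agent.H14.HC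

open Pool.Agent.H73 (HQ qi qj)

private lemma lemA_aux {c : HQ} (hc : ‖c‖ = 1) {κ : ℝ} (h0 : 0 ≤ κ) (h1 : κ < 1) (p q : PP) :
    ENNReal.ofReal (Real.arcsin (κ * Gf c q) - Real.arcsin (κ * Gf c p)) ≤ pD p q := by
  have hlt : ∀ p ∈ SS, (κ * Gf c p) ^ 2 < 1 := by
    intro p hp
    have hG := Gf_sq_le hc hp
    rw [mul_pow]
    nlinarith [sq_nonneg (Gf c p), mul_nonneg h0 h0]
  have hne : ∀ p ∈ SS, κ * Gf c p ≠ -1 ∧ κ * Gf c p ≠ 1 := by
    intro p hp
    have := hlt p hp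
    constructor
    · intro h
      rw [h] at this
      norm_num at this
    · intro h
      rw [h] at this
      norm_num at this
  apply cal_le (f := fun p => Real.arcsin (κ * Gf c p))
  · intro p hp
    have h3 : ContDiffAt ℝ 1 (fun p => κ * Gf c p) p :=
      contDiffAt_const.mul (contDiff_Gf c).contDiffAt
    have h4 : ContDiffAt ℝ 1 (Real.arcsin ∘ fun p => κ * Gf c p) p :=
      ContDiffAt.comp (g := Real.arcsin) p
        (Real.contDiffAt_arcsin (hne p hp).1 (hne p hp).2) h3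
    exact h4
  · intro p hp v hv
    have hd0 : HasFDerivAt (Gf c) (fderiv ℝ (Gf c) p) p :=
      ((contDiff_Gf c).differentiable one_ne_zero p).hasFDerivAt
    have hd1 : HasFDerivAt (fun p => κ * Gf c p) (κ • fderiv ℝ (Gf c) p) p :=
      hd0.const_mul κ
    have hd2 := (Real.hasDerivAt_arcsin (hne p hp).1 (hne p hp).2).comp_hasFDerivAt p hd1
    have hd3 : fderiv ℝ (fun p => Real.arcsin (κ * Gf c p)) p =
        (1 / √(1 - (κ * Gf c p) ^ 2)) • (κ • fderiv ℝ (Gf c) p) := hd2.fderiv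
    rw [hd3]
    have hpos : 0 < 1 - (κ * Gf c p) ^ 2 := by linarith [hlt p hp]
    have hsq : 0 < √(1 - (κ * Gf c p) ^ 2) := Real.sqrt_pos.mpr hpos
    have hG := Gf_ineq hc hp hv
    have hspd : 0 ≤ spd p v := Real.sqrt_nonneg _
    simp only [_root_.smul_apply, smul_eq_mul]
    rw [one_div, ← div_eq_inv_mul, abs_div, abs_of_pos hsq, div_le_iff₀ hsq]
    apply abs_le_of_sq_le_sq _ (by positivity)
    rw [mul_pow, mul_pow, Real.sq_sqrt hpos.le, mul_pow]
    have h5 : κ ^ 2 ≤ 1 := by nlinarith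
    have h6 : κ ^ 2 * (fderiv ℝ (Gf c) p v) ^ 2 ≤ κ ^ 2 * (spd p v ^ 2 * (1 - Gf c p ^ 2)) :=
      mul_le_mul_of_nonneg_left hG (sq_nonneg κ)
    have h7 : 0 ≤ spd p v ^ 2 * (1 - κ ^ 2) := mul_nonneg (sq_nonneg _) (by linarith)
    nlinarith

theorem lemA {c : HQ} (h0 : c.re = 0) (hc : ‖c‖ = 1) :
    ENNReal.ofReal (Real.pi / 2) ≤ pD oo (0, c) := by
  have ho : Gf c oo = 0 := by
    have h1 : inner ℝ c (1 : HQ) = c.re := by
      rw [Quaternion.inner_def]
      simp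
    unfold Gf oo
    simp only [h1, h0, zero_div]
  have h1 : Gf c (0, c) = 1 := by
    unfold Gf
    simp only [norm_zero]
    rw [real_inner_self_eq_norm_sq, hc]
    norm_num
  have key : ∀ κ : ℝ, κ ∈ Ico (0 : ℝ) 1 → ENNReal.ofReal (Real.arcsin κ) ≤ pD oo (0, c) := by
    intro κ hκ
    have h5 := lemA_aux hc hκ.1 hκ.2 oo (0, c)
    rw [ho, h1, mul_one, mul_zero, Real.arcsin_zero, sub_zero] at h5
    exact h5
  have hlim : Tendsto (fun κ : ℝ => ENNReal.ofReal (Real.arcsin κ)) (𝓝[<] 1)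
      (𝓝 (ENNReal.ofReal (Real.arcsin 1))) := by
    apply Tendsto.mono_left _ nhdsWithin_le_nhds
    exact (ENNReal.continuous_ofReal.comp Real.continuous_arcsin).tendsto 1
  rw [Real.arcsin_one] at hlim
  refine le_of_tendsto hlim ?_
  have h7 : Ico (0 : ℝ) 1 ∈ 𝓝[<] (1 : ℝ) := Ico_mem_nhdsLT zero_lt_one
  filter_upwards [h7] with κ hκ using key κ hκ

end Pool.Agent.H14.HC
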