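import Pool.Agent.H14.HC.P1

/-!
# Row P5: lower bound for the distance to the base point

`Cf z = z.re^2 + z.imI^2 - z.imJ^2 - z.imK^2`; on `SS` it is `cos (2 dl z)` (`dl z = arccos √(z.re^2 + z.imI^2)`).
`Cf_ineq`: for a tangent velocity `v` at `p = (w, z) ∈ SS`, `o = om p v`: the derivative `D` of `Cf` in direction `v.2` equals the one in
direction `o` (`inner`-wise: `D = 2 (z.re v.re + z.imI v.imI - z.imJ v.imJ - z.imK v.imK)` and the direction `qi * z` gives `0`), `inner z o = 0`, so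
`D^2 ≤ 4 ‖o‖^2 (1 - Cf^2)`: with `z' = (z.re, z.imI, -z.imJ, -z.imK)`, `D = 2 inner z' o`, and `inner z z' = Cf z`, `‖z'‖ = 1`.
-/

open scoped Manifold ContDiff Topology ENNReal Quaternion
open Set Bundle Bornology MeasureTheory Filter

noncomputable section

namespace Pool.Agent.H14.HC

open Pool.Agent.H73 (HQ qi qj)

/-- the second calibrating function -/
def Cf (z : HQ) : ℝ := z.re ^ 2 + z.imI ^ 2 - z.imJ ^ 2 - z.imK ^ 2

private def P5_c0 : HQ →L[ℝ] ℝ :=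
  ⟨⟨⟨fun q => q.re, fun _ _ => rfl⟩, fun _ _ => rfl⟩, Quaternion.continuous_re⟩

private def P5_c1 : HQ →L[ℝ] ℝ :=
  ⟨⟨⟨fun q => q.imI, fun _ _ => rfl⟩, fun _ _ => rfl⟩, Quaternion.continuous_imI⟩

private def P5_c2 : HQ →L[ℝ] ℝ :=
  ⟨⟨⟨fun q => q.imJ, fun _ _ => rfl⟩, fun _ _ => rfl⟩, Quaternion.continuous_imJ⟩

private def P5_c3 : HQ →L[ℝ] ℝ :=
  ⟨⟨⟨fun q => q.imK, fun _ _ => rfl⟩, fun _ _ => rfl⟩, Quaternion.continuous_imK⟩

private lemma P5_Cf_c (z : HQ) : Cf z = P5_c0 z ^ 2 + P5_c1 z ^ 2 - P5_c2 z ^ 2 - P5_c3 z ^ 2 := rfl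

private lemma P5_hasF (L : HQ →L[ℝ] ℝ) (p : PP) : HasFDerivAt (fun p : PP => L p.2 ^ 2)
    ((2 * L p.2) • (L.comp (ContinuousLinearMap.snd ℝ ℂ HQ))) p := by
  have h := ((L.comp (ContinuousLinearMap.snd ℝ ℂ HQ)).hasFDerivAt (x := p)).pow 2
  simpa using h

private lemma P5_normq {z : HQ} (hz : ‖z‖ = 1) : z.re ^ 2 + z.imI ^ 2 + z.imJ ^ 2 + z.imK ^ 2 = 1 := by
  have h := Quaternion.normSq_eq_norm_mul_self z
  rw [hz, Quaternion.normSq_def', mul_one] at h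
  exact h

lemma contDiff_Cf : ContDiff ℝ 1 (fun p : PP => Cf p.2) := by
  have h : ∀ L : HQ →L[ℝ] ℝ, ContDiff ℝ 1 (fun p : PP => L p.2 ^ 2) := fun L =>
    ((L.comp (ContinuousLinearMap.snd ℝ ℂ HQ)).contDiff).pow 2
  exact (((h P5_c0).add (h P5_c1)).sub (h P5_c2)).sub (h P5_c3)

lemma fderiv_Cf (p v : PP) : fderiv ℝ (fun p : PP => Cf p.2) p v =
    2 * (p.2.re * v.2.re + p.2.imI * v.2.imI - p.2.imJ * v.2.imJ - p.2.imK * v.2.imK) := by
  have h := (((P5_hasF P5_c0 p).add (P5_hasF P5_c1 p)).sub (P5_hasF P5_c2 p)).sub (P5_hasF P5_c3 p)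
  have h2 : fderiv ℝ (fun p : PP => Cf p.2) p = _ := h.fderiv
  rw [h2]
  change 2 * p.2.re * v.2.re + 2 * p.2.imI * v.2.imI - 2 * p.2.imJ * v.2.imJ -
    2 * p.2.imK * v.2.imK = _
  ring

lemma Cf_sq_le {z : HQ} (hz : ‖z‖ = 1) : Cf z ^ 2 ≤ 1 := by
  have h := P5_normq hz
  unfold Cf
  nlinarith [mul_nonneg (add_nonneg (sq_nonneg z.re) (sq_nonneg z.imI))
    (add_nonneg (sq_nonneg z.imJ) (sq_nonneg z.imK))]

lemma Cf_ineq {p : PP} (hp : p ∈ SS) {v : PP} (hv : inner ℝ p.2 v.2 = (0 : ℝ)) :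
    (fderiv ℝ (fun p : PP => Cf p.2) p v) ^ 2 ≤ 4 * ‖om p v‖ ^ 2 * (1 - Cf p.2 ^ 2) := by
  have hn := P5_normq (z := p.2) hp
  rw [fderiv_Cf]
  have hv' : p.2.re * v.2.re + p.2.imI * v.2.imI + p.2.imJ * v.2.imJ + p.2.imK * v.2.imK = 0 := by
    rw [Quaternion.inner_def] at hv
    simp only [Quaternion.re_mul, Quaternion.re_star, Quaternion.imI_star, Quaternion.imJ_star,
      Quaternion.imK_star] at hv
    linarith
  have hq : ‖om p v‖ ^ 2 = (om p v).re ^ 2 + (om p v).imI ^ 2 + (om p v).imJ ^ 2 +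
      (om p v).imK ^ 2 := by
    rw [sq, ← Quaternion.normSq_eq_norm_mul_self, Quaternion.normSq_def']
  rw [hq]
  obtain ⟨n, hnn⟩ : ∃ n, n = nu p.1 v.1 := ⟨_, rfl⟩
  have e0 : (om p v).re = v.2.re - n * p.2.imI := by
    unfold om
    rw [← hnn]
    simp [qi, Quaternion.re_mul]
    ring
  have e1 : (om p v).imI = v.2.imI + n * p.2.re := by
    unfold om
    rw [← hnn]
    simp [qi, Quaternion.imI_mul]
  have e2 : (om p v).imJ = v.2.imJ - n * p.2.imK := by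
    unfold om
    rw [← hnn]
    simp [qi, Quaternion.imJ_mul]
    ring
  have e3 : (om p v).imK = v.2.imK + n * p.2.imJ := by
    unfold om
    rw [← hnn]
    simp [qi, Quaternion.imK_mul]
  generalize (om p v).re = o0 at *
  generalize (om p v).imI = o1 at *
  generalize (om p v).imJ = o2 at *
  generalize (om p v).imK = o3 at *
  unfold Cf
  generalize p.2.re = a at *
  generalize p.2.imI = b at *
  generalize p.2.imJ = c at *
  generalize p.2.imK = d at *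
  obtain ⟨s, hs⟩ : ∃ s, s = a * o0 + b * o1 := ⟨_, rfl⟩
  have hs2 : c * o2 + d * o3 = -s := by
    rw [hs, e0, e1, e2, e3]
    linarith
  have hD : 2 * (a * v.2.re + b * v.2.imI - c * v.2.imJ - d * v.2.imK) = 4 * s := by
    have h1 : 2 * (a * v.2.re + b * v.2.imI - c * v.2.imJ - d * v.2.imK) =
        2 * (a * o0 + b * o1) - 2 * (c * o2 + d * o3) := by
      rw [e0, e1, e2, e3]
      ring
    rw [h1, hs2, ← hs]
    ring
  rw [hD]
  have h1 : s ^ 2 ≤ (a ^ 2 + b ^ 2) * (o0 ^ 2 + o1 ^ 2) := by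
    rw [hs]
    nlinarith [sq_nonneg (a * o1 - b * o0)]
  have h2 : s ^ 2 ≤ (c ^ 2 + d ^ 2) * (o2 ^ 2 + o3 ^ 2) := by
    have h3 : s ^ 2 = (c * o2 + d * o3) ^ 2 := by
      rw [hs2]
      ring
    rw [h3]
    nlinarith [sq_nonneg (c * o3 - d * o2)]
  have h4 : 1 - (a ^ 2 + b ^ 2 - c ^ 2 - d ^ 2) ^ 2 = 4 * ((a ^ 2 + b ^ 2) * (c ^ 2 + d ^ 2)) := by
    have : (1 : ℝ) = (a ^ 2 + b ^ 2 + c ^ 2 + d ^ 2) ^ 2 := by rw [hn]; ring
    rw [this]
    ring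
  rw [h4]
  have h5 := mul_le_mul_of_nonneg_left h1 (add_nonneg (sq_nonneg c) (sq_nonneg d))
  have h6 := mul_le_mul_of_nonneg_left h2 (add_nonneg (sq_nonneg a) (sq_nonneg b))
  have h7 : (c ^ 2 + d ^ 2) * s ^ 2 + (a ^ 2 + b ^ 2) * s ^ 2 = s ^ 2 := by
    have : (c ^ 2 + d ^ 2) * s ^ 2 + (a ^ 2 + b ^ 2) * s ^ 2 =
        (a ^ 2 + b ^ 2 + c ^ 2 + d ^ 2) * s ^ 2 := by ring
    rw [this, hn, one_mul]
  nlinarith

lemma Cf_eq {z : HQ} (hz : ‖z‖ = 1) : Cf z = Real.cos (2 * dl z) := by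
  have h := P5_normq hz
  have h0 : 0 ≤ z.re ^ 2 + z.imI ^ 2 := by positivity
  have h1 : √(z.re ^ 2 + z.imI ^ 2) ≤ 1 := by
    have h2 : z.re ^ 2 + z.imI ^ 2 ≤ 1 := by nlinarith [sq_nonneg z.imJ, sq_nonneg z.imK]
    exact (Real.sqrt_le_sqrt h2).trans Real.sqrt_one.le
  rw [Real.cos_two_mul]
  unfold dl Cf
  rw [Real.cos_arccos (by linarith [Real.sqrt_nonneg (z.re ^ 2 + z.imI ^ 2)]) h1,
    Real.sq_sqrt h0]
  linarith

end Pool.Agent.H14.HC
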