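import Pool.Agent.H14.HC.P5

/-!
# Row P5b: the lower bound (definitions and notation in `P5.lean`)

`lemB`: let `D = √(‖w‖^2 + dl z^2) > 0`, `a = ‖w‖ / D`, `b = dl z / D`, `e = w / ‖w‖` (or `1` if `w = 0`). For `κ < 1` use `cal_le` with
`f = a * (e.re x.re + e.im x.im) - b * (1/2) arcsin (κ Cf)`; `|df v| ≤ a ‖v.1‖ + b ‖o‖ ≤ spd`. `f oo = - b/2 arcsin κ`,
`f p = a ‖w‖ - b/2 arcsin (κ Cf z)`; as `κ → 1`: `f p - f oo → a ‖w‖ + b (π/4 - arcsin (Cf z) / 2) = a ‖w‖ + b dl z = D`.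
(`arcsin (cos 2δ) = π/2 - 2δ`.) Compare `Pool/Agent/H73/PQE.lean`.
-/

open scoped Manifold ContDiff Topology ENNReal Quaternion
open Set Bundle Bornology MeasureTheory Filter

noncomputable section

namespace Pool.Agent.H14.HC

open Pool.Agent.H73 (HQ qi qj)

private def P5b_lin (a : ℝ) (e : ℂ) : PP →L[ℝ] ℝ :=
  a • ((e.re • Complex.reCLM + e.im • Complex.imCLM).comp (ContinuousLinearMap.fst ℝ ℂ HQ))

private lemma P5b_lin_apply (a : ℝ) (e : ℂ) (x : PP) :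
    P5b_lin a e x = a * (e.re * x.1.re + e.im * x.1.im) := rfl

private def P5b_f (a b κ : ℝ) (e : ℂ) (x : PP) : ℝ :=
  P5b_lin a e x - b * ((1 / 2) * Real.arcsin (κ * Cf x.2))

private lemma P5b_ne {z : HQ} (hz : ‖z‖ = 1) {κ : ℝ} (h0 : 0 ≤ κ) (h1 : κ < 1) :
    κ * Cf z ≠ -1 ∧ κ * Cf z ≠ 1 ∧ 0 < 1 - (κ * Cf z) ^ 2 := by
  have h := Cf_sq_le hz
  have h2 : (κ * Cf z) ^ 2 < 1 := by
    rw [mul_pow]
    have h3 : κ ^ 2 < 1 := by nlinarith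
    nlinarith [sq_nonneg κ, sq_nonneg (Cf z)]
  refine ⟨fun h3 => ?_, fun h3 => ?_, by linarith⟩ <;> rw [h3] at h2 <;> norm_num at h2

private lemma P5b_has {p : PP} (hp : p ∈ SS) (a b : ℝ) {κ : ℝ} (h0 : 0 ≤ κ) (h1 : κ < 1) (e : ℂ) :
    HasFDerivAt (P5b_f a b κ e) (P5b_lin a e - b • ((1 / 2 : ℝ) •
      ((1 / √(1 - (κ * Cf p.2) ^ 2)) • (κ • fderiv ℝ (fun p : PP => Cf p.2) p)))) p := by
  obtain ⟨h2, h3, _⟩ := P5b_ne (z := p.2) hp h0 h1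
  have h4 : HasFDerivAt (fun p : PP => Cf p.2) (fderiv ℝ (fun p : PP => Cf p.2) p) p :=
    (contDiff_Cf.contDiffAt.differentiableAt one_ne_zero).hasFDerivAt
  have h5 := (Real.hasDerivAt_arcsin h2 h3).comp_hasFDerivAt p (h4.const_mul κ)
  exact (P5b_lin a e).hasFDerivAt.sub ((h5.const_mul (1 / 2)).const_mul b)

private lemma P5b_cd {p : PP} (hp : p ∈ SS) (a b : ℝ) {κ : ℝ} (h0 : 0 ≤ κ) (h1 : κ < 1) (e : ℂ) :
    ContDiffAt ℝ 1 (P5b_f a b κ e) p := by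
  obtain ⟨h2, h3, _⟩ := P5b_ne (z := p.2) hp h0 h1
  have h4 : ContDiffAt ℝ 1 (fun p : PP => κ * Cf p.2) p :=
    contDiffAt_const.mul contDiff_Cf.contDiffAt
  have h5 : ContDiffAt ℝ 1 (fun p : PP => Real.arcsin (κ * Cf p.2)) p :=
    ContDiffAt.comp (g := Real.arcsin) (f := fun p : PP => κ * Cf p.2) p
      (Real.contDiffAt_arcsin h2 h3) h4
  exact (P5b_lin a e).contDiff.contDiffAt.sub (contDiffAt_const.mul (contDiffAt_const.mul h5))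

private lemma P5b_est {p : PP} (hp : p ∈ SS) {v : PP} (hv : inner ℝ p.2 v.2 = (0 : ℝ)) {κ a b : ℝ}
    {e : ℂ} (h0 : 0 ≤ κ) (h1 : κ < 1) (ha : 0 ≤ a) (hb : 0 ≤ b) (hab : a ^ 2 + b ^ 2 = 1)
    (he : e.re ^ 2 + e.im ^ 2 ≤ 1) : |fderiv ℝ (P5b_f a b κ e) p v| ≤ spd p v := by
  rw [(P5b_has hp a b h0 h1 e).fderiv]
  change |a * (e.re * v.1.re + e.im * v.1.im) - b * ((1 / 2 : ℝ) *
      ((1 / √(1 - (κ * Cf p.2) ^ 2)) * (κ * fderiv ℝ (fun p : PP => Cf p.2) p v)))| ≤ spd p v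
  obtain ⟨_, _, h2⟩ := P5b_ne (z := p.2) hp h0 h1
  have h3 := Cf_ineq hp hv
  obtain ⟨dC, hdC⟩ : ∃ dC, dC = fderiv ℝ (fun p : PP => Cf p.2) p v := ⟨_, rfl⟩
  obtain ⟨C, hC⟩ : ∃ C, C = Cf p.2 := ⟨_, rfl⟩
  obtain ⟨s, hs⟩ : ∃ s, s = √(1 - (κ * Cf p.2) ^ 2) := ⟨_, rfl⟩
  have hspos : 0 < s := by rw [hs]; exact Real.sqrt_pos.mpr h2
  have hs2 : s ^ 2 = 1 - (κ * C) ^ 2 := by rw [hs, hC]; exact Real.sq_sqrt h2.le
  rw [← hdC, ← hs]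
  rw [← hdC, ← hC] at h3
  have h4 : |e.re * v.1.re + e.im * v.1.im| ≤ ‖v.1‖ := by
    refine abs_le_of_sq_le_sq ?_ (norm_nonneg _)
    rw [Complex.sq_norm, Complex.normSq_apply]
    nlinarith [sq_nonneg (e.re * v.1.im - e.im * v.1.re), sq_nonneg v.1.re, sq_nonneg v.1.im,
      mul_nonneg (sub_nonneg.2 he) (add_nonneg (sq_nonneg v.1.re) (sq_nonneg v.1.im))]
  have h5 : |κ * dC| ≤ 2 * ‖om p v‖ * s := by
    refine abs_le_of_sq_le_sq ?_ (by positivity)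
    have h6 : κ ^ 2 ≤ 1 := by nlinarith
    have h7 : κ ^ 2 * dC ^ 2 ≤ κ ^ 2 * (4 * ‖om p v‖ ^ 2 * (1 - C ^ 2)) :=
      mul_le_mul_of_nonneg_left h3 (sq_nonneg κ)
    have h8 : 0 ≤ 4 * ‖om p v‖ ^ 2 * (1 - κ ^ 2) := by
      have : 0 ≤ 1 - κ ^ 2 := by linarith
      positivity
    calc (κ * dC) ^ 2 = κ ^ 2 * dC ^ 2 := by ring
      _ ≤ κ ^ 2 * (4 * ‖om p v‖ ^ 2 * (1 - C ^ 2)) := h7
      _ ≤ κ ^ 2 * (4 * ‖om p v‖ ^ 2 * (1 - C ^ 2)) + 4 * ‖om p v‖ ^ 2 * (1 - κ ^ 2) := by linarith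
      _ = 4 * ‖om p v‖ ^ 2 * s ^ 2 := by rw [hs2]; ring
      _ = (2 * ‖om p v‖ * s) ^ 2 := by ring
  have h6 : |(1 / 2 : ℝ) * ((1 / s) * (κ * dC))| ≤ ‖om p v‖ := by
    rw [abs_mul, abs_mul, abs_of_pos (by norm_num : (0 : ℝ) < 1 / 2),
      abs_of_pos (by positivity : 0 < 1 / s)]
    calc 1 / 2 * (1 / s * |κ * dC|) ≤ 1 / 2 * (1 / s * (2 * ‖om p v‖ * s)) := by gcongr
      _ = ‖om p v‖ := by field_simp
  unfold spd
  have h7 : a * ‖v.1‖ + b * ‖om p v‖ ≤ √(‖v.1‖ ^ 2 + ‖om p v‖ ^ 2) := by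
    apply Real.le_sqrt_of_sq_le
    have h8 : (a * ‖v.1‖ + b * ‖om p v‖) ^ 2 + (a * ‖om p v‖ - b * ‖v.1‖) ^ 2 =
        (a ^ 2 + b ^ 2) * (‖v.1‖ ^ 2 + ‖om p v‖ ^ 2) := by ring
    rw [hab, one_mul] at h8
    linarith [sq_nonneg (a * ‖om p v‖ - b * ‖v.1‖)]
  refine le_trans ?_ h7
  refine (abs_sub _ _).trans ?_
  rw [abs_mul, abs_mul, abs_of_nonneg ha, abs_of_nonneg hb]
  exact add_le_add (mul_le_mul_of_nonneg_left h4 ha) (mul_le_mul_of_nonneg_left h6 hb)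

theorem lemB {p : PP} (hp : p ∈ SS) :
    ENNReal.ofReal √(‖p.1‖ ^ 2 + dl p.2 ^ 2) ≤ pD oo p := by
  obtain ⟨D, hD⟩ : ∃ D, D = √(‖p.1‖ ^ 2 + dl p.2 ^ 2) := ⟨_, rfl⟩
  rw [← hD]
  have hD0 : 0 ≤ D := by rw [hD]; exact Real.sqrt_nonneg _
  rcases hD0.eq_or_lt with h | hpos
  · rw [← h]
    simp
  have hDsq : D ^ 2 = ‖p.1‖ ^ 2 + dl p.2 ^ 2 := by
    rw [hD]
    exact Real.sq_sqrt (by positivity)
  have hd0 : 0 ≤ dl p.2 := Real.arccos_nonneg _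
  have hd1 : dl p.2 ≤ Real.pi / 2 := by
    unfold dl
    exact Real.arccos_le_pi_div_two.2 (Real.sqrt_nonneg _)
  obtain ⟨a, ha⟩ : ∃ a, a = ‖p.1‖ / D := ⟨_, rfl⟩
  obtain ⟨b, hb⟩ : ∃ b, b = dl p.2 / D := ⟨_, rfl⟩
  obtain ⟨e, he⟩ : ∃ e : ℂ, e = (‖p.1‖⁻¹ : ℝ) • p.1 := ⟨_, rfl⟩
  have ha0 : 0 ≤ a := by rw [ha]; positivity
  have hb0 : 0 ≤ b := by rw [hb]; positivity
  have hab : a ^ 2 + b ^ 2 = 1 := by
    rw [ha, hb, div_pow, div_pow, ← add_div, ← hDsq, div_self (by positivity)]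
  have hre : e.re = ‖p.1‖⁻¹ * p.1.re := by rw [he, Complex.smul_re, smul_eq_mul]
  have him : e.im = ‖p.1‖⁻¹ * p.1.im := by rw [he, Complex.smul_im, smul_eq_mul]
  have hn : ‖p.1‖ ^ 2 = p.1.re ^ 2 + p.1.im ^ 2 := by
    rw [Complex.sq_norm, Complex.normSq_apply]
    ring
  have he1 : e.re ^ 2 + e.im ^ 2 ≤ 1 := by
    rw [hre, him, mul_pow, mul_pow, ← mul_add, ← hn]
    rcases eq_or_ne ‖p.1‖ 0 with h | h
    · rw [h]
      norm_num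
    · rw [← mul_pow, inv_mul_cancel₀ h]
      norm_num
  have he2 : e.re * p.1.re + e.im * p.1.im = ‖p.1‖ := by
    rw [hre, him]
    have : ‖p.1‖⁻¹ * p.1.re * p.1.re + ‖p.1‖⁻¹ * p.1.im * p.1.im = ‖p.1‖⁻¹ * ‖p.1‖ ^ 2 := by
      rw [hn]
      ring
    rw [this]
    rcases eq_or_ne ‖p.1‖ 0 with h | h
    · rw [h]
      norm_num
    · field_simp
  have hCo : Cf (1 : HQ) = 1 := by
    unfold Cf
    simp
  have key : ∀ κ : ℝ, κ ∈ Ico (0 : ℝ) 1 → ENNReal.ofReal (a * ‖p.1‖ -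
      b * ((1 / 2) * Real.arcsin (κ * Cf p.2)) + b * ((1 / 2) * Real.arcsin κ)) ≤ pD oo p := by
    intro κ hκ
    have h5 := cal_le (f := P5b_f a b κ e) (fun q hq => P5b_cd hq a b hκ.1 hκ.2 e)
      (fun q hq v hv => P5b_est hq hv hκ.1 hκ.2 ha0 hb0 hab he1) oo p
    refine le_trans (le_of_eq ?_) h5
    congr 1
    unfold P5b_f
    rw [P5b_lin_apply, P5b_lin_apply, he2]
    have h6 : oo.1 = 0 := rfl
    have h7 : oo.2 = 1 := rfl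
    rw [h6, h7, hCo, Complex.zero_re, Complex.zero_im]
    ring_nf
  have hval : a * ‖p.1‖ - b * ((1 / 2) * Real.arcsin (1 * Cf p.2)) +
      b * ((1 / 2) * Real.arcsin 1) = D := by
    have h6 : Real.arcsin (1 * Cf p.2) = Real.pi / 2 - 2 * dl p.2 := by
      rw [one_mul, Cf_eq hp, Real.arcsin_eq_pi_div_two_sub_arccos,
        Real.arccos_cos (by linarith) (by linarith)]
    rw [h6, Real.arcsin_one]
    have h7 : a * ‖p.1‖ + b * dl p.2 = D := by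
      rw [ha, hb, div_mul_eq_mul_div, div_mul_eq_mul_div, ← add_div, ← sq, ← sq, ← hDsq]
      field_simp
    linarith
  have hlim : Tendsto (fun κ : ℝ => ENNReal.ofReal (a * ‖p.1‖ -
      b * ((1 / 2) * Real.arcsin (κ * Cf p.2)) + b * ((1 / 2) * Real.arcsin κ))) (𝓝[<] 1)
      (𝓝 (ENNReal.ofReal (a * ‖p.1‖ -
      b * ((1 / 2) * Real.arcsin (1 * Cf p.2)) + b * ((1 / 2) * Real.arcsin 1)))) := by
    apply Tendsto.mono_left _ nhdsWithin_le_nhds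
    have : Continuous (fun κ : ℝ => ENNReal.ofReal (a * ‖p.1‖ -
        b * ((1 / 2) * Real.arcsin (κ * Cf p.2)) + b * ((1 / 2) * Real.arcsin κ))) := by
      apply ENNReal.continuous_ofReal.comp
      have := Real.continuous_arcsin
      fun_prop
    exact this.tendsto 1
  rw [hval] at hlim
  refine le_of_tendsto hlim ?_
  have h7 : Ico (0 : ℝ) 1 ∈ 𝓝[<] (1 : ℝ) := Ico_mem_nhdsLT zero_lt_one
  filter_upwards [h7] with κ hκ using key κ hκ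

end Pool.Agent.H14.HC
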