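import Pool.Agent.H14.HC.P1

/-!
# Row P6: radial curves, midpoints on the sphere

`exists_arc`: for unit quaternions `z0, z1`, `θ = angle z0 z1 ∈ [0, π]`: a unit `n` with `inner z0 n = 0` and
`z1 = cos θ • z0 + sin θ • n` (see `exists_model_geodesic` in `Pool/Agent/H73/PQE.lean`, `hperpHQ` in `PQJ.lean`).
`rad`: curve `c t = (t • w, cos (t θ) • z0 + sin (t θ) • n)`: `nu (t w) w = 0`, so the speed is the constant `√(‖w‖^2 + θ^2)`;
`pD_le_of_curve`.
`exists_mid`: `m = cos (θ/2) • z0 + sin (θ/2) • n`; `angle z0 m = arccos (cos (θ/2))`, `inner m z1 = cos (θ/2)`.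
-/

open scoped Manifold ContDiff Topology ENNReal Quaternion
open Set Bundle Bornology MeasureTheory Filter InnerProductGeometry

noncomputable section

namespace Pool.Agent.H14.HC

open Pool.Agent.H73 (HQ qi qj)

private lemma P6_perp {z : HQ} (hz : ‖z‖ = 1) : ∃ n : HQ, ‖n‖ = 1 ∧ inner ℝ z n = (0 : ℝ) := by
  refine ⟨qi * z, ?_, ?_⟩
  · rw [norm_mul, Pool.Agent.H73.normSq_qi, hz, one_mul]
  · rw [Quaternion.inner_def]
    simp only [Quaternion.re_mul, Quaternion.re_star, Quaternion.imI_star,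
      Quaternion.imJ_star, Quaternion.imK_star, Quaternion.imI_mul, Quaternion.imJ_mul,
      Quaternion.imK_mul, qi]
    ring

private lemma P6_inner {z n : HQ} (hz : ‖z‖ = 1) (hn : ‖n‖ = 1) (h : inner ℝ z n = (0 : ℝ)) (a b : ℝ) :
    inner ℝ (Real.cos a • z + Real.sin a • n) (Real.cos b • z + Real.sin b • n) = Real.cos (a - b) := by
  have h' : inner ℝ n z = (0 : ℝ) := by rw [real_inner_comm]; exact h
  rw [inner_add_left, inner_add_right, inner_add_right, real_inner_smul_left, real_inner_smul_left,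
    real_inner_smul_left, real_inner_smul_left, real_inner_smul_right, real_inner_smul_right,
    real_inner_smul_right, real_inner_smul_right, h, h', real_inner_self_eq_norm_sq,
    real_inner_self_eq_norm_sq, hz, hn, Real.cos_sub]
  ring

private lemma P6_norm {z n : HQ} (hz : ‖z‖ = 1) (hn : ‖n‖ = 1) (h : inner ℝ z n = (0 : ℝ)) (a : ℝ) :
    ‖Real.cos a • z + Real.sin a • n‖ = 1 := by
  have h1 := P6_inner hz hn h a a
  rw [real_inner_self_eq_norm_sq, sub_self, Real.cos_zero] at h1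
  exact (pow_eq_one_iff_of_nonneg (norm_nonneg _) two_ne_zero).1 h1

lemma exists_arc {z0 z1 : HQ} (h0 : ‖z0‖ = 1) (h1 : ‖z1‖ = 1) :
    ∃ n : HQ, ‖n‖ = 1 ∧ inner ℝ z0 n = (0 : ℝ) ∧
      z1 = Real.cos (angle z0 z1) • z0 + Real.sin (angle z0 z1) • n := by
  obtain ⟨θ, hθ⟩ : ∃ θ, θ = angle z0 z1 := ⟨_, rfl⟩
  have hθ0 : 0 ≤ θ := by rw [hθ]; exact angle_nonneg _ _
  have hθπ : θ ≤ Real.pi := by rw [hθ]; exact angle_le_pi _ _
  have hcos : inner ℝ z0 z1 = Real.cos θ := by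
    rw [hθ, cos_angle, h0, h1]; simp
  rw [← hθ]
  have hw : ‖z1 - Real.cos θ • z0‖ ^ 2 = Real.sin θ ^ 2 := by
    rw [norm_sub_sq_real, real_inner_smul_right, real_inner_comm z0 z1, hcos, norm_smul, h0, h1,
      mul_pow, Real.norm_eq_abs, sq_abs, Real.sin_sq]
    ring
  rcases eq_or_ne (Real.sin θ) 0 with hs | hs
  · obtain ⟨n, hn1, hn2⟩ := P6_perp h0
    refine ⟨n, hn1, hn2, ?_⟩
    rw [hs] at hw ⊢
    have h2 : ‖z1 - Real.cos θ • z0‖ = 0 := by
      have := hw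
      simpa using this
    rw [zero_smul, add_zero]
    exact sub_eq_zero.mp (norm_eq_zero.mp h2)
  · have hs' : 0 < Real.sin θ := lt_of_le_of_ne (Real.sin_nonneg_of_nonneg_of_le_pi hθ0 hθπ) hs.symm
    have hw2 : ‖z1 - Real.cos θ • z0‖ = Real.sin θ := by
      exact (pow_left_inj₀ (norm_nonneg _) hs'.le two_ne_zero).mp hw
    refine ⟨(Real.sin θ)⁻¹ • (z1 - Real.cos θ • z0), ?_, ?_, ?_⟩
    · rw [norm_smul, hw2, norm_inv, Real.norm_eq_abs, abs_of_pos hs', inv_mul_cancel₀ hs]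
    · rw [real_inner_smul_right, inner_sub_right, real_inner_smul_right, hcos,
        real_inner_self_eq_norm_sq, h0]
      ring
    · rw [smul_smul, mul_inv_cancel₀ hs, one_smul]
      abel

theorem rad {z0 z1 : HQ} (h0 : ‖z0‖ = 1) (h1 : ‖z1‖ = 1) (w : ℂ) :
    pD (0, z0) (w, z1) ≤ ENNReal.ofReal √(‖w‖ ^ 2 + angle z0 z1 ^ 2) := by
  obtain ⟨n, hn, hz, h2⟩ := exists_arc h0 h1
  obtain ⟨θ, hθ⟩ : ∃ θ, θ = angle z0 z1 := ⟨_, rfl⟩
  rw [← hθ] at h2 ⊢
  have hd : ∀ t : ℝ, HasDerivAt (fun t : ℝ => ((t • w, Real.cos (t * θ) • z0 + Real.sin (t * θ) • n) : PP))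
      ((1 : ℝ) • w, (-Real.sin (t * θ) * (1 * θ)) • z0 + (Real.cos (t * θ) * (1 * θ)) • n) t := by
    intro t
    have h3 : HasDerivAt (fun t : ℝ => t * θ) (1 * θ) t := (hasDerivAt_id t).mul_const θ
    have hc : HasDerivAt (fun t : ℝ => Real.cos (t * θ) • z0) ((-Real.sin (t * θ) * (1 * θ)) • z0) t :=
      h3.cos.smul_const z0
    have hs : HasDerivAt (fun t : ℝ => Real.sin (t * θ) • n) ((Real.cos (t * θ) * (1 * θ)) • n) t :=
      h3.sin.smul_const n
    have h1 : HasDerivAt (fun t : ℝ => t • w) ((1 : ℝ) • w) t := (hasDerivAt_id t).smul_const w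
    exact h1.prodMk (hc.add hs)
  refine pD_le_of_curve (c := fun t : ℝ => ((t • w, Real.cos (t * θ) • z0 + Real.sin (t * θ) • n) : PP)) ⟨?_, ?_, ?_, ?_⟩ ?_
  · apply ContDiff.contDiffOn
    have h3 : ContDiff ℝ 1 (fun t : ℝ => t * θ) := contDiff_id.mul contDiff_const
    exact (contDiff_id.smul contDiff_const).prodMk
      (((Real.contDiff_cos.comp h3).smul contDiff_const).add ((Real.contDiff_sin.comp h3).smul contDiff_const))
  · intro t _
    exact P6_norm h0 hn hz (t * θ)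
  · simp
  · simp only [one_smul, one_mul]
    rw [← h2]
  · intro t ht
    rw [(hd t).hasDerivWithinAt.derivWithin (uniqueDiffOn_Icc zero_lt_one t ht)]
    apply le_of_eq
    unfold spd om
    have h4 : nu (t • w) w = 0 := by
      unfold nu
      simp
      ring
    simp only [one_smul, h4, zero_smul, add_zero]
    congr 2
    have h5 : (-Real.sin (t * θ) * (1 * θ)) • z0 + (Real.cos (t * θ) * (1 * θ)) • n
        = θ • (Real.cos (t * θ + Real.pi / 2) • z0 + Real.sin (t * θ + Real.pi / 2) • n) := by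
      rw [Real.cos_add_pi_div_two, Real.sin_add_pi_div_two, smul_add, smul_smul, smul_smul]
      congr 2 <;> ring
    rw [h5, norm_smul, P6_norm h0 hn hz, mul_one, Real.norm_eq_abs, sq_abs]

lemma exists_mid {z0 z1 : HQ} (h0 : ‖z0‖ = 1) (h1 : ‖z1‖ = 1) :
    ∃ m : HQ, ‖m‖ = 1 ∧ angle z0 m = angle z0 z1 / 2 ∧ angle m z1 = angle z0 z1 / 2 := by
  obtain ⟨n, hn, hz, h2⟩ := exists_arc h0 h1
  obtain ⟨θ, hθ⟩ : ∃ θ, θ = angle z0 z1 := ⟨_, rfl⟩
  have hθ0 : 0 ≤ θ := by rw [hθ]; exact angle_nonneg _ _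
  have hθπ : θ ≤ Real.pi := by rw [hθ]; exact angle_le_pi _ _
  rw [← hθ] at h2 ⊢
  have hm := P6_norm h0 hn hz (θ / 2)
  refine ⟨Real.cos (θ / 2) • z0 + Real.sin (θ / 2) • n, hm, ?_, ?_⟩
  · have h3 := P6_inner h0 hn hz 0 (θ / 2)
    rw [Real.cos_zero, Real.sin_zero, one_smul, zero_smul, add_zero, zero_sub, Real.cos_neg] at h3
    unfold angle
    rw [h3, h0, hm, mul_one, div_one]
    exact Real.arccos_cos (by linarith) (by linarith)
  · have h3 := P6_inner h0 hn hz (θ / 2) θ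
    rw [← h2] at h3
    unfold angle
    rw [h3, h1, hm, mul_one, div_one, show θ / 2 - θ = -(θ / 2) by ring, Real.cos_neg]
    exact Real.arccos_cos (by linarith) (by linarith)

end Pool.Agent.H14.HC
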