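import Pool.Agent.H14.HC.P3
import Pool.Agent.H14.HC.P1
import Pool.Agent.H14.HC.P6

/-!
# Row P7: the upper bound by a detour

`lemC'`: `p = (w, z)`, `w ≠ 0`, `α` real, `t = -α / ‖w‖^2`, `b = w / 2 + i t w` (a complex number), `z' = exq α * z`. Then
`‖b‖^2 = ‖w - b‖^2 = ‖w‖^2 (1/4 + t^2)` and `nu b w = - t ‖w‖^2 = α`. Let `m` be the midpoint of `1` and `z'` (`exists_mid`).
`pD oo p ≤ pD oo (b, m) + pD (b, m) p` (`htri`). First term: `rad`. Second term: `Ta (-b) (b, m) = (0, exq 0 * m) = (0, m)` (`nu b b = 0`),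
`Ta (-b) (w, z) = (w - b, exq (nu b w) * z) = (w - b, z')` (`nu (-b) w = - nu b w`), so by `PEq.pD_eq (peq_Ta (-b))` and `rad` it is
`≤ ofReal √(‖w - b‖^2 + (angle m z')^2)`.  Both terms are `≤ ofReal √(‖w‖^2 (1/4 + t^2) + (angle 1 z')^2 / 4)`, twice this is the claim.
-/

open scoped Manifold ContDiff Topology ENNReal Quaternion
open Set Bundle Bornology MeasureTheory Filter InnerProductGeometry

noncomputable section

namespace Pool.Agent.H14.HC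

open Pool.Agent.H73 (HQ qi qj)

/-- the triangle inequality of the model -/
def Tri : Prop := ∀ p ∈ SS, ∀ q ∈ SS, ∀ r ∈ SS, pD p r ≤ pD p q + pD q r

private lemma P7_exq_norm (t : ℝ) : ‖exq t‖ = 1 := by
  have h : ‖exq t‖ ^ 2 = 1 := by
    rw [← real_inner_self_eq_norm_sq, Quaternion.inner_self, Quaternion.normSq_def']
    simp only [exq]
    have := Real.cos_sq_add_sin_sq t
    linarith
  exact (pow_eq_one_iff_of_nonneg (norm_nonneg _) two_ne_zero).1 h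

private lemma P7_norm_sq (w : ℂ) : ‖w‖ ^ 2 = w.re ^ 2 + w.im ^ 2 := by
  rw [Complex.sq_norm, Complex.normSq_apply]
  ring

theorem lemC' (htri : Tri) {w : ℂ} (hw : w ≠ 0) {z : HQ} (hz : ‖z‖ = 1) (α : ℝ) :
    pD oo (w, z) ≤ ENNReal.ofReal √(‖w‖ ^ 2 + 4 * α ^ 2 / ‖w‖ ^ 2 + angle 1 (exq α * z) ^ 2) := by
  have hw0 : 0 < ‖w‖ ^ 2 := by positivity
  obtain ⟨z', hz'⟩ : ∃ z', z' = exq α * z := ⟨_, rfl⟩
  have hz'1 : ‖z'‖ = 1 := by rw [hz', norm_mul, P7_exq_norm, hz, one_mul]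
  rw [← hz']
  obtain ⟨m, hm, ha1, ha2⟩ := exists_mid (z0 := (1 : HQ)) (z1 := z') norm_one hz'1
  obtain ⟨t, ht⟩ : ∃ t : ℝ, t = -α / ‖w‖ ^ 2 := ⟨_, rfl⟩
  obtain ⟨b, hb⟩ : ∃ b : ℂ, b = ⟨w.re / 2 - t * w.im, w.im / 2 + t * w.re⟩ := ⟨_, rfl⟩
  have hbre : b.re = w.re / 2 - t * w.im := by rw [hb]
  have hbim : b.im = w.im / 2 + t * w.re := by rw [hb]
  have hnb : ‖b‖ ^ 2 = ‖w‖ ^ 2 * (1 / 4 + t ^ 2) := by
    rw [P7_norm_sq, P7_norm_sq, hbre, hbim]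
    ring
  have hnwb : ‖w - b‖ ^ 2 = ‖w‖ ^ 2 * (1 / 4 + t ^ 2) := by
    rw [P7_norm_sq, P7_norm_sq, Complex.sub_re, Complex.sub_im, hbre, hbim]
    ring
  have hnu : nu b w = α := by
    have h1 : nu b w = -t * ‖w‖ ^ 2 := by
      rw [P7_norm_sq]
      unfold nu
      rw [hbre, hbim]
      ring
    rw [h1, ht]
    field_simp
  have hnb0 : nu (-b) b = 0 := by
    unfold nu
    simp only [Complex.neg_re, Complex.neg_im]
    ring
  have hnbw : nu (-b) w = -nu b w := by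
    unfold nu
    simp only [Complex.neg_re, Complex.neg_im]
    ring
  have m1 : oo ∈ SS := by
    show ‖(1 : HQ)‖ = 1
    exact norm_one
  have m2 : ((b, m) : PP) ∈ SS := hm
  have m3 : ((w, z) : PP) ∈ SS := hz
  have e1 : Ta (-b) ((b, m) : PP) = (0, m) := by
    simp only [Ta]
    rw [hnb0, neg_zero, P3_exq_zero, one_mul, add_neg_cancel]
  have e2 : Ta (-b) ((w, z) : PP) = (w - b, z') := by
    simp only [Ta]
    rw [hnbw, neg_neg, hnu, ← hz', sub_eq_add_neg]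
  have s1 : pD oo (b, m) ≤ ENNReal.ofReal √(‖w‖ ^ 2 * (1 / 4 + t ^ 2) + (angle 1 z' / 2) ^ 2) := by
    have h := rad (z0 := (1 : HQ)) (z1 := m) norm_one hm b
    rw [hnb, ha1] at h
    exact h
  have s2 : pD (b, m) (w, z) ≤ ENNReal.ofReal √(‖w‖ ^ 2 * (1 / 4 + t ^ 2) + (angle 1 z' / 2) ^ 2) := by
    have h := (peq_Ta (-b)).pD_eq m2 m3
    rw [e1, e2] at h
    rw [← h]
    have h' := rad (z0 := m) (z1 := z') hm hz'1 (w - b)
    rw [hnwb, ha2] at h'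
    exact h'
  refine (htri _ m1 _ m2 _ m3).trans ((add_le_add s1 s2).trans (le_of_eq ?_))
  rw [← ENNReal.ofReal_add (Real.sqrt_nonneg _) (Real.sqrt_nonneg _), ← two_mul]
  congr 1
  have h4 : (2 : ℝ) = √4 := by
    rw [show (4 : ℝ) = 2 ^ 2 by norm_num, Real.sqrt_sq (by norm_num)]
  rw [h4, ← Real.sqrt_mul (by norm_num)]
  congr 1
  rw [ht]
  field_simp
  ring

end Pool.Agent.H14.HC
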