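import Pool.Agent.H14.HC.P7

/-!
# Row P7b: the upper bound by a detour, best rotation

`lemC`: choose `α ∈ [-π, π]` with `(exq α * z).re = √(z.re^2 + z.imI^2)` (`α = - arg` of the complex number `⟨z.re, z.imI⟩`); then
`angle 1 (exq α * z) = arccos (exq α * z).re = dl z`.
-/

open scoped Manifold ContDiff Topology ENNReal Quaternion
open Set Bundle Bornology MeasureTheory Filter InnerProductGeometry

noncomputable section

namespace Pool.Agent.H14.HC

open Pool.Agent.H73 (HQ qi qj)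

lemma P7b_norm_exq (α : ℝ) : ‖exq α‖ = 1 := by
  have h : ‖exq α‖ * ‖exq α‖ = 1 := by
    rw [← Quaternion.normSq_eq_norm_mul_self, Quaternion.normSq_def']
    simp [exq]
  nlinarith [norm_nonneg (exq α)]

lemma P7b_re (α : ℝ) (z : HQ) : (exq α * z).re = Real.cos α * z.re - Real.sin α * z.imI := by
  rw [Quaternion.re_mul]
  simp [exq]

lemma exists_rot (z : HQ) (hz : ‖z‖ = 1) : ∃ α : ℝ, |α| ≤ Real.pi ∧ angle 1 (exq α * z) = dl z := by
  set c : ℂ := ⟨z.re, z.imI⟩ with hc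
  refine ⟨-Complex.arg c, by rw [abs_neg]; exact Complex.abs_arg_le_pi c, ?_⟩
  have h1 : ‖c‖ = √(z.re ^ 2 + z.imI ^ 2) := by
    rw [Complex.norm_def, Complex.normSq_apply]
    congr 1
    simp only [hc]
    ring
  have h2 : ‖c‖ * Real.cos (Complex.arg c) = z.re := Complex.norm_mul_cos_arg c
  have h3 : ‖c‖ * Real.sin (Complex.arg c) = z.imI := Complex.norm_mul_sin_arg c
  have h4 : (exq (-Complex.arg c) * z).re = √(z.re ^ 2 + z.imI ^ 2) := by
    rw [P7b_re, Real.cos_neg, Real.sin_neg, ← h1]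
    rw [← h2, ← h3]
    have := Real.cos_sq_add_sin_sq (Complex.arg c)
    linear_combination ‖c‖ * this
  have h5 : inner ℝ (1 : HQ) (exq (-Complex.arg c) * z) = √(z.re ^ 2 + z.imI ^ 2) := by
    rw [← h4, Quaternion.inner_def]
    simp only [one_mul, Quaternion.re_star]
  unfold InnerProductGeometry.angle dl
  rw [h5, norm_one, norm_mul, P7b_norm_exq, hz]
  simp

theorem lemC (htri : Tri) {p : PP} (hp : p ∈ SS) (hw : p.1 ≠ 0) :
    pD oo p ≤ ENNReal.ofReal √(‖p.1‖ ^ 2 + dl p.2 ^ 2 + 4 * Real.pi ^ 2 / ‖p.1‖ ^ 2) := by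
  obtain ⟨w, z⟩ := p
  simp only at hw ⊢
  have hz : ‖z‖ = 1 := hp
  obtain ⟨α, h1, h2⟩ := exists_rot z hz
  refine (lemC' htri hw hz α).trans (ENNReal.ofReal_le_ofReal (Real.sqrt_le_sqrt ?_))
  rw [h2]
  have h3 : α ^ 2 ≤ Real.pi ^ 2 := by
    rw [← sq_abs α]
    exact pow_le_pow_left₀ (abs_nonneg _) h1 2
  have h4 : 4 * α ^ 2 / ‖w‖ ^ 2 ≤ 4 * Real.pi ^ 2 / ‖w‖ ^ 2 := by gcongr
  linarith

end Pool.Agent.H14.HC
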