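import Pool.Agent.H14.HC.P8b
import Pool.Agent.H14.HC.P4b
import Pool.Agent.H14.HC.P5b
import Pool.Agent.H14.HC.P7b

/-!
# Row P8: the real distance of the model

`dd p q = (pD p q).toReal`. `mv p = Rg (p.2)⁻¹ ∘ Ta (-p.1)` is a symmetry moving `p` to `oo` (`move_oo`), so `dd p q = dd oo (mv p q)`.
`mv p q = (q.1 - p.1, exq (nu p.1 q.1) * q.2 * (p.2)⁻¹)`.
-/

open scoped Manifold ContDiff Topology ENNReal Quaternion
open Set Bundle Bornology MeasureTheory Filter InnerProductGeometry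

noncomputable section

namespace Pool.Agent.H14.HC

open Pool.Agent.H73 (HQ qi qj)

/-- the real distance -/
def dd (p q : PP) : ℝ := (pD p q).toReal

/-- the symmetry moving `p` to the base point -/
def mv (p q : PP) : PP := (q.1 - p.1, exq (nu p.1 q.1) * q.2 * (p.2)⁻¹)

lemma mv_mem {p q : PP} (hp : p ∈ SS) (hq : q ∈ SS) : mv p q ∈ SS := by
  have hp' : ‖p.2‖ = 1 := hp
  have hq' : ‖q.2‖ = 1 := hq
  change ‖exq (nu p.1 q.1) * q.2 * (p.2)⁻¹‖ = 1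
  rw [norm_mul, norm_mul, norm_exq, norm_inv, hp', hq']
  norm_num

private lemma oo_mem' : oo ∈ SS := by
  change ‖(1 : HQ)‖ = 1
  exact norm_one

lemma pD_mv {p q : PP} (hp : p ∈ SS) (hq : q ∈ SS) : pD p q = pD oo (mv p q) := by
  have hp' : ‖p.2‖ = 1 := hp
  have hi : ‖(p.2)⁻¹‖ = 1 := by rw [norm_inv, hp', inv_one]
  have h := PEq.comp (peq_Rg hi) (peq_Ta (-p.1))
  have h1 := h.pD_eq hp hq
  rw [move_oo hp] at h1
  rw [← h1]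
  have h2 : (Rg (p.2)⁻¹ ∘ Ta (-p.1)) q = mv p q := by
    have h3 : -nu (-p.1) q.1 = nu p.1 q.1 := by
      unfold nu
      rw [Complex.neg_re, Complex.neg_im]
      ring
    change (q.1 + -p.1, exq (-nu (-p.1) q.1) * q.2 * (p.2)⁻¹) =
      (q.1 - p.1, exq (nu p.1 q.1) * q.2 * (p.2)⁻¹)
    rw [h3, sub_eq_add_neg]
  rw [h2]

private lemma rad_oo {p : PP} (hp : p ∈ SS) :
    pD oo p ≤ ENNReal.ofReal √(‖p.1‖ ^ 2 + angle 1 p.2 ^ 2) := by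
  have hp' : ‖p.2‖ = 1 := hp
  exact rad (z0 := (1 : HQ)) (z1 := p.2) norm_one hp' p.1

/-- by `rad` -/
lemma pD_oo_ne_top {p : PP} (hp : p ∈ SS) : pD oo p ≠ ⊤ := by
  exact ne_top_of_le_ne_top ENNReal.ofReal_ne_top (rad_oo hp)

lemma pD_ne_top {p q : PP} (hp : p ∈ SS) (hq : q ∈ SS) : pD p q ≠ ⊤ := by
  rw [pD_mv hp hq]
  exact pD_oo_ne_top (mv_mem hp hq)

lemma dd_mv {p q : PP} (hp : p ∈ SS) (hq : q ∈ SS) : dd p q = dd oo (mv p q) := by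
  unfold dd
  rw [pD_mv hp hq]

lemma dd_nonneg (p q : PP) : 0 ≤ dd p q := ENNReal.toReal_nonneg

private lemma sq_le_of_le_ofReal {a : ℝ≥0∞} {S : ℝ} (hS : 0 ≤ S) (h : a ≤ ENNReal.ofReal √S) :
    a.toReal ^ 2 ≤ S := by
  have h1 : a.toReal ≤ √S := ENNReal.toReal_le_of_le_ofReal (Real.sqrt_nonneg S) h
  have h2 : a.toReal ^ 2 ≤ √S ^ 2 := pow_le_pow_left₀ ENNReal.toReal_nonneg h1 2
  rwa [Real.sq_sqrt hS] at h2

lemma dd_oo_ge {p : PP} (hp : p ∈ SS) : ‖p.1‖ ^ 2 + dl p.2 ^ 2 ≤ dd oo p ^ 2 := by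
  have h1 := (ENNReal.ofReal_le_iff_le_toReal (pD_oo_ne_top hp)).1 (lemB hp)
  exact (Real.sqrt_le_iff.1 h1).2

lemma dd_oo_le_rad {p : PP} (hp : p ∈ SS) : dd oo p ^ 2 ≤ ‖p.1‖ ^ 2 + angle 1 p.2 ^ 2 :=
  sq_le_of_le_ofReal (by positivity) (rad_oo hp)

lemma dd_oo_le (htri : Tri) {p : PP} (hp : p ∈ SS) (hw : p.1 ≠ 0) :
    dd oo p ^ 2 ≤ ‖p.1‖ ^ 2 + dl p.2 ^ 2 + 4 * Real.pi ^ 2 / ‖p.1‖ ^ 2 :=
  sq_le_of_le_ofReal (by positivity) (lemC htri hp hw)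

lemma dd_pure {c : HQ} (h0 : c.re = 0) (hc : ‖c‖ = 1) : dd oo (0, c) = Real.pi / 2 := by
  have hm : ((0 : ℂ), c) ∈ SS := hc
  have hin : inner ℝ (1 : HQ) c = (0 : ℝ) := by
    rw [Quaternion.inner_def, one_mul]
    simpa using h0
  have hang : angle (1 : HQ) c = Real.pi / 2 := inner_eq_zero_iff_angle_eq_pi_div_two _ _ |>.1 hin
  apply le_antisymm
  · have h1 := dd_oo_le_rad hm
    have h2 : dd oo (0, c) ^ 2 ≤ (Real.pi / 2) ^ 2 := by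
      refine h1.trans (le_of_eq ?_)
      change ‖(0 : ℂ)‖ ^ 2 + angle (1 : HQ) c ^ 2 = (Real.pi / 2) ^ 2
      rw [hang, norm_zero]
      ring
    exact (pow_le_pow_iff_left₀ (dd_nonneg _ _) (by positivity) two_ne_zero).1 h2
  · exact (ENNReal.ofReal_le_iff_le_toReal (pD_oo_ne_top hm)).1 (lemA h0 hc)

end Pool.Agent.H14.HC
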