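import Pool.Agent.H14.HC.P2b

/-!
# Row P8b: the function `dl`

`dl z = arccos √(z.re ^ 2 + z.imI ^ 2)`. Multiplication by `exq t` on either side keeps `z.re ^ 2 + z.imI ^ 2`; `z⁻¹ = star z` for a unit.
`exq_of_dl`: `√(z.re ^ 2 + z.imI ^ 2) ≥ 1`, so `z.imJ = z.imK = 0` (`‖z‖^2 = re^2 + imI^2 + imJ^2 + imK^2`), `t = arg ⟨z.re, z.imI⟩`.
-/

open scoped Manifold ContDiff Topology ENNReal Quaternion
open Set Bundle Bornology MeasureTheory Filter

noncomputable section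

namespace Pool.Agent.H14.HC

open Pool.Agent.H73 (HQ qi qj)

lemma dl_exq_mul (t : ℝ) (z : HQ) : dl (exq t * z) = dl z := by
  unfold dl
  congr 2
  have h1 : (exq t * z).re = Real.cos t * z.re - Real.sin t * z.imI := by
    rw [Quaternion.re_mul]
    change Real.cos t * z.re - Real.sin t * z.imI - 0 * z.imJ - 0 * z.imK = _
    ring
  have h2 : (exq t * z).imI = Real.cos t * z.imI + Real.sin t * z.re := by
    rw [Quaternion.imI_mul]
    change Real.cos t * z.imI + Real.sin t * z.re + 0 * z.imK - 0 * z.imJ = _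
    ring
  rw [h1, h2]
  linear_combination (z.re ^ 2 + z.imI ^ 2) * Real.sin_sq_add_cos_sq t

lemma dl_mul_exq (t : ℝ) (z : HQ) : dl (z * exq t) = dl z := by
  unfold dl
  congr 2
  have h1 : (z * exq t).re = z.re * Real.cos t - z.imI * Real.sin t := by
    rw [Quaternion.re_mul]
    change z.re * Real.cos t - z.imI * Real.sin t - z.imJ * 0 - z.imK * 0 = _
    ring
  have h2 : (z * exq t).imI = z.re * Real.sin t + z.imI * Real.cos t := by
    rw [Quaternion.imI_mul]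
    change z.re * Real.sin t + z.imI * Real.cos t + z.imJ * 0 - z.imK * 0 = _
    ring
  rw [h1, h2]
  linear_combination (z.re ^ 2 + z.imI ^ 2) * Real.sin_sq_add_cos_sq t

private lemma P8b_sq (z : HQ) (hz : ‖z‖ = 1) :
    z.re ^ 2 + z.imI ^ 2 + z.imJ ^ 2 + z.imK ^ 2 = 1 := by
  have h := Quaternion.normSq_eq_norm_mul_self z
  rw [hz, mul_one, Quaternion.normSq_def'] at h
  exact h

private lemma P8b_inv (z : HQ) (hz : ‖z‖ = 1) : z⁻¹ = star z := by
  have h := Quaternion.normSq_eq_norm_mul_self z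
  rw [hz, mul_one] at h
  have h0 : z ≠ 0 := by
    rintro rfl
    rw [norm_zero] at hz
    exact one_ne_zero hz.symm
  have h1 : z * star z = 1 := by
    rw [Quaternion.self_mul_star, h]
    rfl
  exact inv_eq_of_mul_eq_one_right h1

lemma dl_inv {z : HQ} (hz : ‖z‖ = 1) : dl z⁻¹ = dl z := by
  rw [P8b_inv z hz]
  unfold dl
  simp

lemma dl_exq (t : ℝ) : dl (exq t) = 0 := by
  unfold dl exq
  have : √(Real.cos t ^ 2 + Real.sin t ^ 2) = 1 := by
    rw [Real.cos_sq_add_sin_sq, Real.sqrt_one]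
  change Real.arccos √(Real.cos t ^ 2 + Real.sin t ^ 2) = 0
  rw [this, Real.arccos_one]

/-- a unit `z` with `dl z = 0` is `exq t` -/
lemma exq_of_dl {z : HQ} (hz : ‖z‖ = 1) (h : dl z = 0) : ∃ t : ℝ, z = exq t := by
  have h1 := P8b_sq z hz
  unfold dl at h
  rw [Real.arccos_eq_zero] at h
  have h2 : 1 ≤ z.re ^ 2 + z.imI ^ 2 := by
    rwa [Real.one_le_sqrt] at h
  have hJ : z.imJ = 0 := by nlinarith [sq_nonneg z.imJ, sq_nonneg z.imK]
  have hK : z.imK = 0 := by nlinarith [sq_nonneg z.imJ, sq_nonneg z.imK]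
  have h3 : z.re ^ 2 + z.imI ^ 2 = 1 := by rw [hJ, hK] at h1; linarith
  have h4 : ‖(⟨z.re, z.imI⟩ : ℂ)‖ = 1 := by
    rw [Complex.norm_eq_sqrt_sq_add_sq, h3, Real.sqrt_one]
  have h5 := Complex.norm_mul_cos_arg (⟨z.re, z.imI⟩ : ℂ)
  have h6 := Complex.norm_mul_sin_arg (⟨z.re, z.imI⟩ : ℂ)
  rw [h4, one_mul] at h5 h6
  refine ⟨Complex.arg ⟨z.re, z.imI⟩, ?_⟩
  ext
  · exact h5.symm
  · exact h6.symm
  · exact hJ
  · exact hK

end Pool.Agent.H14.HC
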