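import Pool.Agent.H14.HC.Df

/-!
# Row SCa: `C^1` approximation of loops and a missed ray

* `exists_C1_loop`: `bernsteinApproximation_uniform` (`Mathlib/Analysis/SpecialFunctions/Bernstein.lean`, values in a normed space),
  `bernsteinApproximation.apply_zero`, `apply_one`; as a function on `ℝ`: `∑ k, (bernsteinPolynomial ℝ n k).eval t • γ _`.
* `exists_ray`: `ContDiff.dense_compl_range_of_finrank_lt_finrank` for `(l, t) ↦ l • P t : ℝ × ℝ → HQ` (finrank `2 < 4`); a dense set meets the
  open set `{v | v ≠ 0}`. If `P t = l • v` then `l ≠ 0` and `v = l⁻¹ • P t`.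
* `starConvex_V`: if `a • (-v) + b • x.1 = l • v` with `a + b = 1`, `a, b ≥ 0`, then `b > 0` (otherwise `(1 + l) • v = 0`) and
  `x.1 = ((l + a) / b) • v`.
-/

open scoped Manifold ContDiff Topology ENNReal Quaternion
open Set Bundle Bornology MeasureTheory Filter

noncomputable section

namespace Pool.Agent.H14.HC

open Pool.Agent.H73 (HQ qi qj)

lemma exists_C1_loop (γ : C(unitInterval, EE)) {ε : ℝ} (hε : 0 < ε) :
    ∃ P : ℝ → EE, ContDiff ℝ 1 P ∧ P 0 = γ 0 ∧ P 1 = γ 1 ∧
      ∀ t : unitInterval, dist (P t) (γ t) < ε := by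
  have h1 := (bernsteinApproximation_uniform γ).eventually (Metric.ball_mem_nhds γ hε)
  obtain ⟨n, hn, hn0⟩ := (h1.and (eventually_ne_atTop 0)).exists
  have key : ∀ t : unitInterval,
      (∑ k : Fin (n + 1), (bernsteinPolynomial ℝ n k).eval (t : ℝ) • γ (bernstein.z k)) =
        bernsteinApproximation n γ t := by
    intro t
    rw [bernsteinApproximation.apply]
    rfl
  refine ⟨fun t => ∑ k : Fin (n + 1), (bernsteinPolynomial ℝ n k).eval t • γ (bernstein.z k),
    ?_, ?_, ?_, ?_⟩
  · refine ContDiff.sum fun k _ => ?_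
    have h := (bernsteinPolynomial ℝ n k).contDiff_aeval (𝕜 := ℝ) 1
    simp only [Polynomial.coe_aeval_eq_eval] at h
    exact h.smul contDiff_const
  · have := key 0
    rw [bernsteinApproximation.apply_zero] at this
    simpa using this
  · have := key 1
    rw [bernsteinApproximation.apply_one hn0] at this
    simpa using this
  · intro t
    show dist (∑ k : Fin (n + 1), (bernsteinPolynomial ℝ n k).eval (t : ℝ) • γ (bernstein.z k))
      (γ t) < ε
    rw [key t]
    exact lt_of_le_of_lt (ContinuousMap.dist_apply_le_dist t) (Metric.mem_ball.1 hn)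

private lemma scaFinrankHQ : Module.finrank ℝ HQ = 4 := Quaternion.finrank_eq_four

lemma exists_ray {P : ℝ → HQ} (hP : ContDiff ℝ 1 P) (h0 : ∀ t ∈ Icc (0 : ℝ) 1, P t ≠ 0) :
    ∃ v : HQ, v ≠ 0 ∧ ∀ t ∈ Icc (0 : ℝ) 1, ∀ l : ℝ, 0 ≤ l → P t ≠ l • v := by
  have hf : ContDiff ℝ 1 (fun x : ℝ × ℝ => x.1 • P x.2) :=
    contDiff_fst.smul (hP.comp contDiff_snd)
  have hr : Module.finrank ℝ (ℝ × ℝ) < Module.finrank ℝ HQ := by
    rw [scaFinrankHQ, Module.finrank_prod]
    simp
  have hd := hf.dense_compl_range_of_finrank_lt_finrank hr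
  have ho : IsOpen {v : HQ | v ≠ 0} := isOpen_ne
  obtain ⟨v, hv0, hv⟩ := hd.inter_open_nonempty _ ho ⟨1, one_ne_zero⟩
  refine ⟨v, hv0, ?_⟩
  intro t ht l _ he
  have hl0 : l ≠ 0 := by
    rintro rfl
    rw [zero_smul] at he
    exact h0 t ht he
  apply hv
  refine ⟨(l⁻¹, t), ?_⟩
  show l⁻¹ • P t = v
  rw [he, smul_smul, inv_mul_cancel₀ hl0, one_smul]

lemma starConvex_V {v : HQ} (hv : v ≠ 0) :
    StarConvex ℝ ((-v, 0) : EE) {x : EE | ∀ l : ℝ, 0 ≤ l → x.1 ≠ l • v} := by
  intro x hx a b ha hb hab l hl he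
  have he' : a • (-v) + b • x.1 = l • v := he
  rcases hb.eq_or_lt with hb0 | hb0
  · subst hb0
    have ha1 : a = 1 := by linarith
    subst ha1
    rw [zero_smul, add_zero, one_smul] at he'
    have h2 : (1 + l) • v = 0 := by
      rw [add_smul, one_smul, ← he']
      simp
    rcases smul_eq_zero.1 h2 with h3 | h3
    · linarith
    · exact hv h3
  · have h2 : b • x.1 = (l + a) • v := by
      rw [add_smul, ← he', smul_neg]
      abel
    have h3 : x.1 = ((l + a) / b) • v := by
      have : b⁻¹ • (b • x.1) = b⁻¹ • ((l + a) • v) := by rw [h2]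
      rw [smul_smul, inv_mul_cancel₀ hb0.ne', one_smul, smul_smul] at this
      rw [this]
      congr 1
      field_simp
    exact hx ((l + a) / b) (by positivity) h3

end Pool.Agent.H14.HC
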