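import Pool.Agent.H14.HC.SCa

/-!
# Row SCb: the chart domain is simply connected

`simply_connected_iff_loops_nullhomotopic`. Path connected: `isPathConnected_compl_singleton_of_one_lt_rank` for `HQ`
(`Quaternion.rank_eq_four`), product with `ℝ`. A loop `γ` in `X = {x : EE // x.1 ≠ 0}`: `δ = min ‖(γ t).1‖ > 0` (compactness). `exists_C1_loop` with
`ε = δ`: `P`; the straight line homotopy `(1 - s) • γ t + s • P t` stays in `X` and fixes the end points, so `γ` is homotopic to the loop `P` of `X`.
`exists_ray` for `fun t => (P t).1`: `P` is a loop in `V = {x | ∀ l ≥ 0, x.1 ≠ l • v}` (star convex, so contractible: `StarConvex.contractibleSpace`,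
then simply connected `SimplyConnectedSpace.ofContractible`, `SimplyConnectedSpace.paths_homotopic`), `V ⊆ X` (`l = 0`): map the homotopy by the inclusion
(`Path.Homotopic.map`).
-/

open scoped Manifold ContDiff Topology ENNReal Quaternion
open Set Bundle Bornology MeasureTheory Filter

noncomputable section

namespace Pool.Agent.H14.HC

open Pool.Agent.H73 (HQ qi qj)

private lemma scb_c0 : ((0 : unitInterval) : ℝ) = 0 := rfl

private lemma scb_c1 : ((1 : unitInterval) : ℝ) = 1 := rfl

private lemma scb_path : PathConnectedSpace {x : EE // x.1 ≠ 0} := by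
  have h1 : (1 : Cardinal) < Module.rank ℝ HQ := by
    have h : Module.rank ℝ HQ = 4 := Quaternion.rank_eq_four
    rw [h]
    norm_num
  have h2 : IsPathConnected ({0}ᶜ : Set HQ) := isPathConnected_compl_singleton_of_one_lt_rank h1 0
  have h3 : PathConnectedSpace ({0}ᶜ : Set HQ) := isPathConnected_iff_pathConnectedSpace.1 h2
  have hc : Continuous (fun p : ({0}ᶜ : Set HQ) × ℝ =>
      (⟨(p.1.1, p.2), p.1.2⟩ : {x : EE // x.1 ≠ 0})) :=
    ((continuous_subtype_val.comp continuous_fst).prodMk continuous_snd).subtype_mk _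
  refine Function.Surjective.pathConnectedSpace ?_ hc
  rintro ⟨⟨a, b⟩, h⟩
  exact ⟨(⟨a, h⟩, b), rfl⟩

/-- the loop avoids a ray -/
private lemma scb_ray {v : HQ} (hv : v ≠ 0) (x : {x : EE // x.1 ≠ 0}) (γ : Path x x)
    (h : ∀ t, ∀ l : ℝ, 0 ≤ l → (γ t).1.1 ≠ l • v) : Path.Homotopic γ (Path.refl x) := by
  have hc : ContractibleSpace {x : EE | ∀ l : ℝ, 0 ≤ l → x.1 ≠ l • v} :=
    (starConvex_V hv).contractibleSpace ⟨γ 0, h 0⟩
  have hx : ∀ l : ℝ, 0 ≤ l → x.1.1 ≠ l • v := by
    have := h 0
    rwa [γ.source] at this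
  let i : {x : EE | ∀ l : ℝ, 0 ≤ l → x.1 ≠ l • v} → {x : EE // x.1 ≠ 0} :=
    fun y => ⟨y.1, fun h0 => y.2 0 le_rfl (by rw [h0, zero_smul])⟩
  have hi : Continuous i := continuous_subtype_val.subtype_mk _
  let x' : {x : EE | ∀ l : ℝ, 0 ≤ l → x.1 ≠ l • v} := ⟨x.1, hx⟩
  let Q : Path x' x' :=
    { toFun := fun t => ⟨(γ t).1, h t⟩
      continuous_toFun := (continuous_subtype_val.comp γ.continuous).subtype_mk _
      source' := by
        apply Subtype.ext
        show (γ 0).1 = x.1
        rw [γ.source]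
      target' := by
        apply Subtype.ext
        show (γ 1).1 = x.1
        rw [γ.target] }
  have h1 : Path.Homotopic Q (Path.refl x') := SimplyConnectedSpace.paths_homotopic _ _
  have h2 := h1.map ⟨i, hi⟩
  have h3 : Path.Homotopic (Q.map hi) ((Path.refl x').map hi) := h2
  have e1 : Q.map hi = γ := Path.ext (funext fun t => rfl)
  have e2 : (Path.refl x').map hi = Path.refl x := Path.ext (funext fun t => rfl)
  rw [e1, e2] at h3
  exact h3

private lemma scb_min (γ : C(unitInterval, EE)) (h : ∀ t, (γ t).1 ≠ 0) :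
    ∃ δ : ℝ, 0 < δ ∧ ∀ t, δ ≤ ‖(γ t).1‖ := by
  have hc : Continuous (fun t => ‖(γ t).1‖) := (continuous_fst.comp γ.continuous).norm
  obtain ⟨t, -, ht⟩ := (isCompact_univ (X := unitInterval)).exists_isMinOn univ_nonempty
    hc.continuousOn
  exact ⟨‖(γ t).1‖, norm_pos_iff.2 (h t), fun s => ht (mem_univ s)⟩

theorem sc_UU : SimplyConnectedSpace {x : EE // x.1 ≠ 0} := by
  rw [simply_connected_iff_loops_nullhomotopic]
  refine ⟨scb_path, fun x γ => ?_⟩
  let g : C(unitInterval, EE) := ⟨fun t => (γ t).1, continuous_subtype_val.comp γ.continuous⟩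
  obtain ⟨δ, hδ, hδ2⟩ := scb_min g (fun t => (γ t).2)
  obtain ⟨P, hP, hP0, hP1, hP2⟩ := exists_C1_loop g hδ
  have key : ∀ s t : unitInterval,
      ((1 - (s : ℝ)) • g t + (s : ℝ) • P t).1 ≠ 0 := by
    intro s t h0
    have h1 : ‖(P t).1 - (g t).1‖ < δ := by
      have := hP2 t
      rw [dist_eq_norm] at this
      exact lt_of_le_of_lt (norm_fst_le (P t - g t)) this
    have h2 : (g t).1 = -((s : ℝ) • ((P t).1 - (g t).1)) := by
      have h3 : (1 - (s : ℝ)) • (g t).1 + (s : ℝ) • (P t).1 = 0 := h0
      have h4 : (g t).1 + (s : ℝ) • ((P t).1 - (g t).1) = 0 := by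
        rw [← h3, smul_sub, sub_smul, one_smul]
        abel
      exact eq_neg_of_add_eq_zero_left h4
    have h5 : ‖(g t).1‖ ≤ ‖(P t).1 - (g t).1‖ := by
      rw [h2, norm_neg, norm_smul, Real.norm_of_nonneg s.2.1]
      have h6 := norm_nonneg ((P t).1 - (g t).1)
      have h7 : ‖(P t).1 - (-((s : ℝ) • ((P t).1 - (g t).1)))‖ = ‖(P t).1 - (g t).1‖ := by
        rw [← h2]
      rw [h7]
      exact mul_le_of_le_one_left h6 s.2.2
    linarith [hδ2 t]
  have hPne : ∀ t : unitInterval, (P t).1 ≠ 0 := by
    intro t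
    have := key 1 t
    simpa using this
  have hg0 : g 0 = x.1 := by
    show (γ 0).1 = x.1
    rw [γ.source]
  have hg1 : g 1 = x.1 := by
    show (γ 1).1 = x.1
    rw [γ.target]
  have hP0' : P 0 = x.1 := hP0.trans hg0
  have hP1' : P 1 = x.1 := hP1.trans hg1
  let Q : Path x x :=
    { toFun := fun t => ⟨P t, hPne t⟩
      continuous_toFun := (hP.continuous.comp continuous_subtype_val).subtype_mk _
      source' := by
        apply Subtype.ext
        show P ((0 : unitInterval) : ℝ) = x.1
        rw [scb_c0, hP0']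
      target' := by
        apply Subtype.ext
        show P ((1 : unitInterval) : ℝ) = x.1
        rw [scb_c1, hP1'] }
  have h1 : Path.Homotopic γ Q := by
    refine ⟨?_⟩
    refine
      { toFun := fun p => ⟨(1 - (p.1 : ℝ)) • g p.2 + (p.1 : ℝ) • P p.2, key p.1 p.2⟩
        continuous_toFun := ?_
        map_zero_left := ?_
        map_one_left := ?_
        prop' := ?_ }
    · refine Continuous.subtype_mk ?_ _
      have c1 : Continuous (fun p : unitInterval × unitInterval => (p.1 : ℝ)) :=
        continuous_subtype_val.comp continuous_fst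
      have c2 : Continuous (fun p : unitInterval × unitInterval => g p.2) :=
        g.continuous.comp continuous_snd
      have c3 : Continuous (fun p : unitInterval × unitInterval => P p.2) :=
        hP.continuous.comp (continuous_subtype_val.comp continuous_snd)
      exact ((continuous_const.sub c1).smul c2).add (c1.smul c3)
    · intro t
      apply Subtype.ext
      show (1 - ((0 : unitInterval) : ℝ)) • g t + ((0 : unitInterval) : ℝ) • P t = (γ t).1
      rw [scb_c0, sub_zero, one_smul, zero_smul, add_zero]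
      rfl
    · intro t
      apply Subtype.ext
      show (1 - ((1 : unitInterval) : ℝ)) • g t + ((1 : unitInterval) : ℝ) • P t = P t
      rw [scb_c1, sub_self, one_smul, zero_smul, zero_add]
    · intro s t ht
      apply Subtype.ext
      show (1 - (s : ℝ)) • g t + (s : ℝ) • P t = (γ t).1
      rcases ht with rfl | ht
      · show (1 - (s : ℝ)) • g 0 + (s : ℝ) • P ((0 : unitInterval) : ℝ) = (γ 0).1
        rw [scb_c0, hP0', hg0, γ.source, ← add_smul, sub_add_cancel, one_smul]
      · rw [mem_singleton_iff] at ht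
        subst ht
        rw [scb_c1, hP1', hg1, γ.target, ← add_smul, sub_add_cancel, one_smul]
  refine h1.trans ?_
  obtain ⟨v, hv, hv2⟩ := exists_ray (P := fun t => (P t).1) (contDiff_fst.comp hP)
    (fun t ht => hPne ⟨t, ht⟩)
  exact scb_ray hv x Q (fun t l hl => hv2 t t.2 l hl)

end Pool.Agent.H14.HC
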