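import Pool.Agent.H14.HC.GL
import Pool.Agent.H14.HC.GM
import Pool.Agent.H14.HC.JQ

/-!
# The quotients of `M = ℂ × S^3` by finite groups of right multiplications: topology and charts
-/

open scoped Manifold ContDiff Topology ENNReal Quaternion
open Set Bundle Bornology MeasureTheory Manifold Filter

noncomputable section

namespace Pool.Agent.H14.HC

open Pool.Agent.H73 (HQ qi qj)

/-- the open set `{x | x.1 ≠ 0}` as a space -/
abbrev Xq : Type := (MM.U (E := EE) : Set EE)

lemma isOpenEmbedding_Xq : Topology.IsOpenEmbedding (Subtype.val : Xq → EE) :=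
  (MM.isOpen_U (E := EE)).isOpenEmbedding_subtypeVal

instance : LocallyCompactSpace Xq := isOpenEmbedding_Xq.locallyCompactSpace

lemma Xq_ne (x : Xq) : x.1.1 ≠ 0 := mem_U.mp x.2

/-- right multiplication by a unit -/
def rX (a : HQˣ) (x : Xq) : Xq := ⟨(x.1.1 * (a : HQ), x.1.2),
  mem_U.mpr (mul_ne_zero (Xq_ne x) (Units.ne_zero a))⟩

lemma rX_val (a : HQˣ) (x : Xq) : (rX a x : EE) = (x.1.1 * (a : HQ), x.1.2) := rfl

lemma rX_one (x : Xq) : rX 1 x = x := by
  apply Subtype.ext
  rw [rX_val, Units.val_one, mul_one]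

lemma rX_mul (a b : HQˣ) (x : Xq) : rX (a * b) x = rX b (rX a x) := by
  apply Subtype.ext
  rw [rX_val, rX_val, rX_val, Units.val_mul, mul_assoc]

lemma rX_cont (a : HQˣ) : Continuous (rX a) := by
  apply Continuous.subtype_mk
  fun_prop

lemma rX_cancel {a b : HQˣ} {x : Xq} (h : rX a x = rX b x) : a = b := by
  have h1 := congrArg (fun y : Xq => y.1.1) h
  simp only [rX_val] at h1
  exact Units.ext (mul_left_cancel₀ (Xq_ne x) h1)

variable (A : Subgroup HQˣ)

instance : MulAction A Xq where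
  smul a x := rX ((a : HQˣ)⁻¹) x
  one_smul x := by
    change rX ((1 : HQˣ)⁻¹) x = x
    rw [inv_one, rX_one]
  mul_smul a b x := by
    change rX (((a : HQˣ) * (b : HQˣ))⁻¹) x = rX ((a : HQˣ)⁻¹) (rX ((b : HQˣ)⁻¹) x)
    rw [mul_inv_rev, rX_mul]

lemma smul_X (a : A) (x : Xq) : a • x = rX ((a : HQˣ)⁻¹) x := rfl

instance : ContinuousConstSMul A Xq where
  continuous_const_smul _ := rX_cont _

instance : IsCancelSMul A Xq where
  right_cancel' a b x e := by
    rw [smul_X, smul_X] at e
    exact Subtype.ext (inv_injective (rX_cancel e))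

/-- the quotient by right multiplications -/
def Yq : Type := Quotient (MulAction.orbitRel A Xq)

instance : TopologicalSpace (Yq A) :=
  inferInstanceAs (TopologicalSpace (Quotient (MulAction.orbitRel A Xq)))

instance [Finite A] : T2Space (Yq A) :=
  inferInstanceAs (T2Space (Quotient (MulAction.orbitRel A Xq)))

/-- the projection from the open set -/
def mkY (x : Xq) : Yq A := Quotient.mk _ x

lemma mk_cov [Finite A] : IsQuotientCoveringMap (mkY A) A :=
  isQuotientCoveringMap_quotientMk_of_properlyDiscontinuousSMul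

lemma mk_surj : Function.Surjective (mkY A) := Quotient.mk_surjective

variable {A}

lemma mk_eq {x y : Xq} : mkY A x = mkY A y ↔ ∃ a ∈ A, rX a y = x := by
  have h : mkY A x = mkY A y ↔ ∃ g : A, g • y = x := Quotient.eq (r := MulAction.orbitRel A Xq)
  rw [h]
  constructor
  · rintro ⟨g, hg⟩
    exact ⟨(g : HQˣ)⁻¹, A.inv_mem g.2, hg⟩
  · rintro ⟨a, ha, h⟩
    refine ⟨⟨a⁻¹, A.inv_mem ha⟩, ?_⟩
    rw [smul_X]
    simpa using h

variable (A) in
/-- the projection from `EE`, with a junk value outside the open set -/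
def pj (z : EE) : Yq A :=
  open Classical in if h : z ∈ MM.U (E := EE) then mkY A ⟨z, h⟩
    else mkY A ⟨(1, 0), mem_U.mpr one_ne_zero⟩

lemma pj_val (x : Xq) : pj A (x : EE) = mkY A x := by
  unfold pj
  rw [dif_pos x.2]

lemma pj_mk {z : EE} (h : z ∈ MM.U (E := EE)) : pj A z = mkY A ⟨z, h⟩ := by
  unfold pj
  rw [dif_pos h]

lemma norm_of_mem [Finite A] {a : HQˣ} (ha : a ∈ A) : ‖(a : HQ)‖ = 1 :=
  Pool.Agent.H73.norm_of_mem ha

lemma pj_eq_iff {x y : EE} (hx : x ∈ MM.U (E := EE)) (hy : y ∈ MM.U (E := EE)) :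
    pj A x = pj A y ↔ ∃ a ∈ A, RM (a : HQ) y = x := by
  rw [pj_mk hx, pj_mk hy, mk_eq]
  constructor
  · rintro ⟨a, ha, h⟩
    exact ⟨a, ha, congrArg Subtype.val h⟩
  · rintro ⟨a, ha, h⟩
    exact ⟨a, ha, Subtype.ext h⟩

lemma RM_mem {a : HQˣ} {z : EE} (hz : z ∈ MM.U (E := EE)) : RM (a : HQ) z ∈ MM.U (E := EE) :=
  mem_U.mpr (mul_ne_zero (mem_U.mp hz) (Units.ne_zero a))

lemma pj_RM {a : HQˣ} (ha : a ∈ A) {z : EE} (hz : z ∈ MM.U (E := EE)) :
    pj A (RM (a : HQ) z) = pj A z :=
  (pj_eq_iff (RM_mem hz) hz).mpr ⟨a, ha, rfl⟩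

instance instGQ [Finite A] : GQ EE (Yq A) where
  pi := pj A
  surj q := by
    obtain ⟨x, rfl⟩ := mk_surj A q
    exact ⟨x, x.2, pj_val x⟩
  loc x hx := by
    obtain ⟨e', he', hee⟩ := (mk_cov A).isCoveringMap.isLocalHomeomorph ⟨x, hx⟩
    have : Nonempty Xq := ⟨⟨x, hx⟩⟩
    let v : OpenPartialHomeomorph Xq EE :=
      isOpenEmbedding_Xq.toOpenPartialHomeomorph (Subtype.val : Xq → EE)
    have hv : ∀ u : Xq, v u = (u : EE) := fun u => rfl
    have hvs : ∀ u : Xq, v.symm (u : EE) = u := by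
      intro u
      have : u ∈ v.source := by
        simp [v]
      rw [← hv]
      exact v.left_inv this
    refine ⟨v.symm.trans e', ?_, ?_⟩
    · simp only [OpenPartialHomeomorph.trans_source, OpenPartialHomeomorph.symm_source,
        mem_inter_iff, mem_preimage]
      constructor
      · have : (⟨x, hx⟩ : Xq) ∈ v.source := by simp [v]
        exact v.map_source this
      · have := hvs ⟨x, hx⟩
        rw [this]
        exact he'
    · intro z hz
      simp only [OpenPartialHomeomorph.trans_source, OpenPartialHomeomorph.symm_source,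
        mem_inter_iff, mem_preimage] at hz
      have hz1 : z ∈ range (Subtype.val : Xq → EE) := by
        have := hz.1
        simpa [v] using this
      obtain ⟨u, rfl⟩ := hz1
      refine ⟨u.2, ?_⟩
      rw [pj_val, OpenPartialHomeomorph.trans_apply, hvs, ← hee]
  deck x hx y hy hxy := by
    obtain ⟨a, ha, h⟩ := (pj_eq_iff hy hx).mp hxy.symm
    exact ⟨RM (a : HQ), isDeck_RM (norm_of_mem ha), h, fun z hz => pj_RM ha hz⟩
  cov := by
    have h : (fun x : MM.U (E := EE) => pj A (x : EE)) = mkY A := by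
      funext x
      exact pj_val x
    rw [h]
    exact (mk_cov A).isCoveringMap

end Pool.Agent.H14.HC
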