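import Pool.Agent.H14.HC.YG
import Pool.Agent.H14.HC.NHc
import Pool.Agent.H14.HC.SCb

/-!
# A simply connected weakly symmetric counterexample: assembly
-/

open scoped Manifold ContDiff Topology ENNReal Quaternion
open Set Bundle Bornology MeasureTheory Manifold Filter

noncomputable section

namespace Pool.Agent.H14.HC

open Pool.Agent.H73 (HQ qi qj Ai ui ui_four ui_mem IsWeaklySymmetric IsHomogeneous RiemannianMfd HasConstantDisplacement
  IsRiemannianQuotient HomogeneityConjecture)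

/-- The class of simply connected weakly symmetric Riemannian manifolds. -/
def IsSimplyConnectedWeaklySymmetric {E : Type} [NormedAddCommGroup E] [NormedSpace ℝ E]
    (M : RiemannianMfd E) : Prop :=
  SimplyConnectedSpace M.pt ∧ IsWeaklySymmetric M.pt

lemma ui_pow_val (k : ℕ) : ((ui ^ k : HQˣ) : HQ) = qi ^ k := by
  rw [Units.val_pow_eq_pow_val]
  rfl

lemma mem_Ai {a : HQˣ} (ha : a ∈ Ai) : ∃ k : ℕ, k < 4 ∧ ui ^ k = a := by
  obtain ⟨m, rfl⟩ := Subgroup.mem_zpowers_iff.mp ha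
  have h4 : ui ^ (4 : ℤ) = 1 := by exact_mod_cast ui_four
  refine ⟨(m % 4).toNat, ?_, ?_⟩
  · omega
  · rw [← zpow_natCast, Int.toNat_of_nonneg (Int.emod_nonneg m (by norm_num))]
    conv_rhs => rw [← Int.emod_add_mul_ediv m 4, zpow_add, zpow_mul, h4, one_zpow, mul_one]

lemma norm_qi_pow (k : ℕ) : ‖qi ^ k‖ = 1 := by
  rw [norm_pow, Pool.Agent.H73.normSq_qi, one_pow]

theorem nmod_N : NMod (N := (Mf Ai).pt) (ptY Ai) where
  surj := ptY_surj
  le p hp q hq k := by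
    refine (dist_Mf (ptY Ai p) (ptY Ai q)).trans_le ?_
    rw [redist_ptY hp hq, dd]
    apply ENNReal.toReal_mono (pD_ne_top hp (Rg_mem (norm_qi_pow k) hq))
    refine iInf_le_of_le ⟨ui ^ k, Ai.pow_mem ui_mem k⟩ ?_
    rw [ui_pow_val]
  att p hp q hq := by
    obtain ⟨a, ha⟩ := exists_eq_ciInf_of_finite (f := fun a : Ai => pD p (Rg ((a : HQˣ) : HQ) q))
    obtain ⟨k, hk, h1⟩ := mem_Ai a.2
    refine ⟨k, hk, ?_⟩
    refine (dist_Mf (ptY Ai p) (ptY Ai q)).trans ?_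
    rw [redist_ptY hp hq, dd, ← ha, ← h1, ui_pow_val]

theorem not_homogeneous_N : ¬ IsHomogeneous (Mf Ai).pt := not_homog tri_SS nmod_N

theorem constantDisplacement (γ : (Mf ⊥).pt ≃ᵢ (Mf ⊥).pt) (h : γ ∈ Gam Ai) :
    HasConstantDisplacement γ := by
  obtain ⟨a, rfl⟩ := mem_Gam.mp h
  obtain ⟨k, -, h1⟩ := mem_Ai (Ai.inv_mem a.2)
  obtain ⟨c, hc⟩ := cd_Rg k
  refine ⟨c, ?_⟩
  intro x
  obtain ⟨p, hp, rfl⟩ := ptY_surj x
  rw [Rhom_ptY a hp, dist_bot hp (Rg_mem (norm_uinv (norm_of_mem a.2)) hp), ← h1, ui_pow_val]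
  exact hc p hp

lemma isHomeomorph_mk : IsHomeomorph (mkY ⊥) where
  continuous := (mk_cov ⊥).isCoveringMap.continuous
  isOpenMap := (mk_cov ⊥).isCoveringMap.isLocalHomeomorph.isOpenMap
  bijective := ⟨fun _ _ h => mk_bot.mp h, mk_surj ⊥⟩

instance sc_Yq : SimplyConnectedSpace (Yq ⊥) := by
  have h : SimplyConnectedSpace Xq := sc_UU
  exact (isHomeomorph_mk.homeomorph _).symm.toHomotopyEquiv.simplyConnectedSpace

theorem class_M : IsSimplyConnectedWeaklySymmetric (Mf ⊥) :=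
  ⟨sc_Yq, weaklySymmetric_M⟩

theorem not_conjecture :
    ¬ HomogeneityConjecture (E := EE) IsSimplyConnectedWeaklySymmetric := by
  intro h
  exact not_homogeneous_N (h (Mf ⊥) (Mf Ai) (Gam Ai) (pN Ai) class_M quotient_M
    constantDisplacement)

end Pool.Agent.H14.HC
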