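import Pool.Agent.H14.HC.YN
import Pool.Agent.H14.HC.NHf

/-!
# The covering `M → N` and the group `Γ`
-/

open scoped Manifold ContDiff Topology ENNReal Quaternion
open Set Bundle Bornology MeasureTheory Manifold Filter

noncomputable section

namespace Pool.Agent.H14.HC

open Pool.Agent.H73 (HQ qi qj Ai ui ui_four ui_mem IsWeaklySymmetric IsHomogeneous RiemannianMfd HasConstantDisplacement
  IsRiemannianQuotient)

variable (A : Subgroup HQˣ)

lemma mk_bot {x y : Xq} : mkY ⊥ x = mkY ⊥ y ↔ x = y := by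
  rw [mk_eq]
  constructor
  · rintro ⟨a, ha, h⟩
    rw [Subgroup.mem_bot] at ha
    rw [← h, ha, rX_one]
  · rintro rfl
    exact ⟨1, Subgroup.one_mem _, rX_one x⟩

/-- the projection `M → N` -/
def pN : Yq ⊥ → Yq A := Quotient.lift (fun x => mkY A x) (fun x y h => by
  have h1 : x = y := mk_bot.mp (Quotient.sound h)
  rw [h1])

lemma pN_mk (x : Xq) : pN A (mkY ⊥ x) = mkY A x := rfl

lemma pN_pj {z : EE} (hz : z ∈ MM.U (E := EE)) : pN A (pj ⊥ z) = pj A z := by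
  rw [pj_mk hz, pj_mk hz, pN_mk]

lemma pN_surj : Function.Surjective (pN A) := by
  intro q
  obtain ⟨x, rfl⟩ := mk_surj A q
  exact ⟨mkY ⊥ x, rfl⟩

lemma pN_contMDiff [Finite A] : ContMDiff 𝓘(ℝ, EE) 𝓘(ℝ, EE) ∞ (pN A) :=
  GQ.contMDiff_of_compat (fun _ hz => pN_pj A hz)

/-- action of the finite group -/
instance : MulAction A (Yq ⊥) where
  smul a := Quotient.lift (fun x => mkY ⊥ (a • x)) (fun x y h => by
    have h1 : x = y := mk_bot.mp (Quotient.sound h)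
    rw [h1])
  one_smul q := by
    obtain ⟨x, rfl⟩ := mk_surj ⊥ q
    change mkY ⊥ ((1 : A) • x) = mkY ⊥ x
    rw [one_smul]
  mul_smul a b q := by
    obtain ⟨x, rfl⟩ := mk_surj ⊥ q
    change mkY ⊥ ((a * b) • x) = mkY ⊥ (a • b • x)
    rw [mul_smul]

lemma smul_mk (a : A) (x : Xq) : a • mkY ⊥ x = mkY ⊥ (a • x) := rfl

instance : ContinuousConstSMul A (Yq ⊥) where
  continuous_const_smul a := by
    have h1 : Continuous (fun x : Xq => mkY ⊥ (a • x)) := by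
      have : Continuous (mkY ⊥) := (mk_cov ⊥).isCoveringMap.continuous
      exact this.comp (continuous_const_smul a)
    have h2 : Topology.IsQuotientMap (mkY ⊥) := (mk_cov ⊥).toIsQuotientMap
    exact h2.continuous_iff.mpr h1

instance : IsCancelSMul A (Yq ⊥) where
  right_cancel' a b q e := by
    obtain ⟨x, rfl⟩ := mk_surj ⊥ q
    rw [smul_mk, smul_mk] at e
    exact IsCancelSMul.right_cancel a b x (mk_bot.mp e)

lemma pN_isQuotientMap [Finite A] : Topology.IsQuotientMap (pN A) := by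
  have h2 : Topology.IsQuotientMap (mkY A) := (mk_cov A).toIsQuotientMap
  exact Topology.IsQuotientMap.of_comp (mk_cov ⊥).isCoveringMap.continuous
    (pN_contMDiff A).continuous h2

lemma pN_cov [Finite A] : IsQuotientCoveringMap (pN A) A := by
  apply (pN_isQuotientMap A).isQuotientCoveringMap_of_properlyDiscontinuousSMul
  intro p q
  obtain ⟨x, rfl⟩ := mk_surj ⊥ p
  obtain ⟨y, rfl⟩ := mk_surj ⊥ q
  rw [pN_mk, pN_mk, mk_eq, MulAction.mem_orbit_iff]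
  constructor
  · rintro ⟨a, ha, h⟩
    refine ⟨⟨a⁻¹, A.inv_mem ha⟩, ?_⟩
    rw [smul_mk, mk_bot, smul_X]
    simpa using h
  · rintro ⟨a, h⟩
    rw [smul_mk, mk_bot, smul_X] at h
    exact ⟨(a : HQˣ)⁻¹, A.inv_mem a.2, h⟩

variable {A} [Finite A]

/-- the symmetries given by the units of norm one -/
lemma peqR {a : HQˣ} (ha : ‖(a : HQ)‖ = 1) : PEq (Rg (a : HQ)) (Rg (a : HQ)⁻¹) := peq_Rg ha

lemma norm_uinv {a : HQˣ} (ha : ‖(a : HQ)‖ = 1) : ‖((a⁻¹ : HQˣ) : HQ)‖ = 1 := by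
  rw [Units.val_inv_eq_inv_val, norm_inv, ha, inv_one]

lemma Rg_mul (a b : HQˣ) (p : PP) : Rg ((a * b : HQˣ) : HQ) p = Rg (b : HQ) (Rg (a : HQ) p) := by
  unfold Rg
  rw [Units.val_mul, mul_assoc]

variable (A) in
/-- right multiplications as a homomorphism -/
def Rhom : A →* ((Mf ⊥).pt ≃ᵢ (Mf ⊥).pt) where
  toFun a := isoM (peqR (norm_uinv (norm_of_mem a.2)))
  map_one' := by
    ext q
    obtain ⟨p, hp, rfl⟩ := ptY_surj q
    rw [isoM_ptY _ hp]
    change ptY ⊥ (Rg (((1 : HQˣ)⁻¹ : HQˣ) : HQ) p) = ptY ⊥ p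
    congr 1
    unfold Rg
    simp
  map_mul' a b := by
    ext q
    obtain ⟨p, hp, rfl⟩ := ptY_surj q
    have h1 := Rg_mem (norm_uinv (norm_of_mem b.2)) hp
    rw [isoM_ptY _ hp]
    change _ = isoM (peqR (norm_uinv (norm_of_mem a.2)))
      (isoM (peqR (norm_uinv (norm_of_mem b.2))) (ptY ⊥ p))
    rw [isoM_ptY _ hp, isoM_ptY _ h1]
    congr 1
    rw [← Rg_mul, ← mul_inv_rev]
    rfl

lemma Rhom_ptY (a : A) {p : PP} (hp : p ∈ SS) :
    Rhom A a (ptY ⊥ p) = ptY ⊥ (Rg (((a : HQˣ)⁻¹ : HQˣ) : HQ) p) := isoM_ptY _ hp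

/-- the isometry and the action agree -/
lemma Rhom_smul (a : A) (q : Yq ⊥) : Rhom A a q = a • q := by
  obtain ⟨p, hp, rfl⟩ := ptY_surj q
  rw [Rhom_ptY a hp]
  unfold ptY
  rw [fromP_Rg, pj_mk (fromP_mem hp), pj_mk (RM_mem (fromP_mem hp)), smul_mk]
  rfl

variable (A) in
/-- the group of isometries `Γ` -/
def Gam : Subgroup ((Mf ⊥).pt ≃ᵢ (Mf ⊥).pt) := (Rhom A).range

lemma mem_Gam {γ : (Mf ⊥).pt ≃ᵢ (Mf ⊥).pt} : γ ∈ Gam A ↔ ∃ a, Rhom A a = γ := Iff.rfl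

omit [Finite A] in
lemma free_aux (a : A) (q : Yq ⊥) (h : a • q = q) : a = 1 := by
  apply IsCancelSMul.right_cancel a 1 q
  rw [one_smul, h]

lemma fibre_aux (p q : Yq ⊥) : pN A p = pN A q ↔ ∃ a : A, Rhom A a p = q := by
  have h := (pN_cov A).apply_eq_iff_mem_orbit (e₁ := p) (e₂ := q)
  rw [h, MulAction.mem_orbit_iff]
  constructor
  · rintro ⟨a, ha⟩
    refine ⟨a⁻¹, ?_⟩
    refine (Rhom_smul a⁻¹ p).trans ?_
    rw [← ha, inv_smul_smul]
  · rintro ⟨a, h1⟩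
    refine ⟨a⁻¹, ?_⟩
    rw [inv_smul_eq_iff, ← h1]
    exact Rhom_smul a p

lemma free_Gam (γ : (Mf ⊥).pt ≃ᵢ (Mf ⊥).pt) (h : γ ∈ Gam A) (q : (Mf ⊥).pt) (hq : γ q = q) :
    γ = 1 := by
  obtain ⟨a, rfl⟩ := mem_Gam.mp h
  have h2 : a = 1 := free_aux a q ((Rhom_smul a q).symm.trans hq)
  rw [h2, map_one]

lemma finite_Gam : (Gam A : Set ((Mf ⊥).pt ≃ᵢ (Mf ⊥).pt)).Finite := by
  unfold Gam
  rw [MonoidHom.coe_range]
  exact Set.finite_range _

lemma quotient_M : IsRiemannianQuotient (Mf ⊥) (Mf A) (Gam A) (pN A) where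
  action := ⟨free_Gam, fun _ _ _ _ => finite_Gam.subset (fun _ h => h.1)⟩
  orbits := by
    refine ⟨pN_surj A, ?_⟩
    intro p q
    refine (fibre_aux p q).trans ?_
    constructor
    · rintro ⟨a, ha⟩
      exact ⟨Rhom A a, ⟨a, rfl⟩, ha⟩
    · rintro ⟨γ, hγ, h1⟩
      obtain ⟨a, rfl⟩ := mem_Gam.mp hγ
      exact ⟨a, h1⟩
  covering := (pN_cov A).isCoveringMap
  smooth := pN_contMDiff A
  isometric := fun x v => GQ.norm_mfderiv_of_compat (Y := Yq ⊥) (Z := Yq A)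
    (fun _ hz => pN_pj A hz) x v

end Pool.Agent.H14.HC
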