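import Pool.Agent.H14.HC.Y

/-!
# The quotients as metric spaces
-/

open scoped Manifold ContDiff Topology ENNReal Quaternion
open Set Bundle Bornology MeasureTheory Manifold Filter

noncomputable section

namespace Pool.Agent.H14.HC

open Pool.Agent.H73 (HQ qi qj)

variable {A : Subgroup HQˣ}

lemma pj_continuousOn [Finite A] : ContinuousOn (pj A) (MM.U (E := EE)) := fun _ hz =>
  (GQ.continuousAt_pr (Y := Yq A) hz).continuousWithinAt

lemma isConnected_U : IsConnected (MM.U (E := EE)) := by
  have h0 : IsConnected ({(0 : HQ)}ᶜ) := by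
    apply IsPathConnected.isConnected
    apply isPathConnected_compl_singleton_of_one_lt_rank
    rw [Quaternion.rank_eq_four]
    norm_num
  have h1 : IsConnected ({(0 : HQ)}ᶜ ×ˢ (univ : Set ℝ)) := h0.prod isConnected_univ
  have h2 : ({(0 : HQ)}ᶜ ×ˢ (univ : Set ℝ)) = MM.U (E := EE) := by
    ext x
    rw [mem_U]
    simp
  rwa [h2] at h1

instance [Finite A] : ConnectedSpace (Yq A) := by
  rw [connectedSpace_iff_univ]
  have h2 := isConnected_U.image (pj A) (pj_continuousOn (A := A))
  have h3 : pj A '' (MM.U (E := EE)) = univ := by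
    rw [eq_univ_iff_forall]
    intro q
    obtain ⟨u, rfl⟩ := mk_surj A q
    exact ⟨(u : EE), u.2, pj_val u⟩
  rwa [h3] at h2

instance [Finite A] : LocallyCompactSpace (Yq A) :=
  ChartedSpace.locallyCompactSpace EE (Yq A)

instance [Finite A] : T3Space (Yq A) := inferInstance

/-- the Riemannian distance -/
@[reducible] def emet (A : Subgroup HQˣ) [Finite A] : EMetricSpace (Yq A) :=
  EMetricSpace.ofRiemannianMetric 𝓘(ℝ, EE) (Yq A)

lemma redist_ne_top [Finite A] (x y : Yq A) : riemannianEDist 𝓘(ℝ, EE) x y ≠ ⊤ := by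
  let := emet A
  have h1 : IsClopen (Metric.eball x ⊤) := ⟨Metric.isClosed_eball_top, Metric.isOpen_eball⟩
  have h2 : Metric.eball x ⊤ = univ := h1.eq_univ ⟨x, by simp⟩
  have h3 : y ∈ Metric.eball x ⊤ := by rw [h2]; trivial
  rw [Metric.mem_eball'] at h3
  exact h3.ne

/-- the Riemannian distance as a metric -/
@[reducible] def met (A : Subgroup HQˣ) [Finite A] : MetricSpace (Yq A) :=
  letI := emet A
  EMetricSpace.toMetricSpace (fun x y => redist_ne_top x y)

lemma dist_met (A : Subgroup HQˣ) [Finite A] (x y : Yq A) :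
    (met A).toPseudoMetricSpace.dist x y = (riemannianEDist 𝓘(ℝ, EE) x y).toReal := rfl

end Pool.Agent.H14.HC
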