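import Pool.Agent.H14.HC.YM
import Pool.Agent.H14.HC.EP
import Pool.Agent.H14.HC.P3b
import Pool.Agent.H14.HC.NH
import Pool.Agent.H73.PQL

/-!
# Points of the quotients in model coordinates, and their distances
-/

open scoped Manifold ContDiff Topology ENNReal Quaternion
open Set Bundle Bornology MeasureTheory Manifold Filter

noncomputable section

namespace Pool.Agent.H14.HC

open Pool.Agent.H73 (HQ qi qj Ai ui IsWeaklySymmetric IsHomogeneous RiemannianMfd)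

variable {A : Subgroup HQˣ}

variable (A) in
/-- the point with model coordinates `p` -/
def ptY (p : PP) : Yq A := pj A (fromP p)

lemma fromP_mem {p : PP} (hp : p ∈ SS) : fromP p ∈ MM.U (E := EE) := mem_U.mpr (fromP_ne hp)

lemma ptY_surj (q : Yq A) : ∃ p ∈ SS, ptY A p = q := by
  obtain ⟨x, rfl⟩ := mk_surj A q
  refine ⟨toP x, toP_mem (Xq_ne x), ?_⟩
  unfold ptY
  rw [fromP_toP (Xq_ne x), pj_val]

lemma Rg_mem {a : HQ} (ha : ‖a‖ = 1) {p : PP} (hp : p ∈ SS) : Rg a p ∈ SS := by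
  change ‖p.2 * a‖ = 1
  rw [norm_mul, ha, mul_one]
  exact hp

lemma ptY_eq_iff [Finite A] {p q : PP} (hp : p ∈ SS) (hq : q ∈ SS) :
    ptY A p = ptY A q ↔ ∃ a ∈ A, Rg (a : HQ) q = p := by
  unfold ptY
  rw [pj_eq_iff (fromP_mem hp) (fromP_mem hq)]
  constructor
  · rintro ⟨a, ha, h⟩
    refine ⟨a, ha, ?_⟩
    rw [← fromP_Rg] at h
    rw [← toP_fromP hp, ← h, toP_fromP (Rg_mem (norm_of_mem ha) hq)]
  · rintro ⟨a, ha, h⟩
    exact ⟨a, ha, by rw [← fromP_Rg, h]⟩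

theorem redist_ptY [Finite A] {p q : PP} (hp : p ∈ SS) (hq : q ∈ SS) :
    riemannianEDist 𝓘(ℝ, EE) (ptY A p) (ptY A q) = ⨅ a : A, pD p (Rg ((a : HQˣ) : HQ) q) := by
  have h := GQ.redist_eq (Y := Yq A) (fromP_mem hp) (ptY A q)
  refine h.trans ?_
  have key : ∀ a : HQˣ, a ∈ A → fD (fromP p) (RM (a : HQ) (fromP q)) = pD p (Rg (a : HQ) q) := by
    intro a ha
    have h1 := Rg_mem (norm_of_mem ha) hq
    rw [← fromP_Rg, fD_eq (fromP_ne hp) (fromP_ne h1), toP_fromP hp, toP_fromP h1]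
  apply le_antisymm
  · refine le_iInf fun a => ?_
    rw [← key a a.2]
    exact iInf₂_le_of_le (RM ((a : HQˣ) : HQ) (fromP q)) ⟨RM_mem (fromP_mem hq),
      pj_RM a.2 (fromP_mem hq)⟩ le_rfl
  · refine le_iInf₂ fun y hy => ?_
    obtain ⟨a, ha, h1⟩ := (pj_eq_iff hy.1 (fromP_mem hq)).mp hy.2
    rw [← h1, key a ha]
    exact iInf_le_of_le ⟨a, ha⟩ le_rfl

lemma redist_ptY_bot {p q : PP} (hp : p ∈ SS) (hq : q ∈ SS) :
    riemannianEDist 𝓘(ℝ, EE) (ptY ⊥ p) (ptY ⊥ q) = pD p q := by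
  rw [redist_ptY hp hq]
  have h : ∀ a : (⊥ : Subgroup HQˣ), pD p (Rg ((a : HQˣ) : HQ) q) = pD p q := by
    intro a
    have ha : (a : HQˣ) = 1 := Subgroup.mem_bot.mp a.2
    rw [ha]
    congr 1
    unfold Rg
    simp
  simp only [h]
  rw [iInf_const]

theorem tri_SS : Tri := by
  intro p hp q hq r hr
  rw [← redist_ptY_bot hp hr, ← redist_ptY_bot hp hq, ← redist_ptY_bot hq hr]
  exact riemannianEDist_triangle

/-- the quotient as a Riemannian manifold -/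
def Mf (A : Subgroup HQˣ) [Finite A] : RiemannianMfd EE :=
  { pt := Yq A
    metricSpace := met A
    chartedSpace := (inferInstance : ChartedSpace EE (Yq A))
    isManifold := (inferInstance : IsManifold 𝓘(ℝ, EE) ∞ (Yq A))
    riemannianBundle :=
      (inferInstance : RiemannianBundle (fun x : Yq A => TangentSpace 𝓘(ℝ, EE) x))
    smoothMetric := (inferInstance :
      IsContMDiffRiemannianBundle 𝓘(ℝ, EE) ∞ EE (fun x : Yq A => TangentSpace 𝓘(ℝ, EE) x))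
    isRiemannian := by
      let := met A
      exact ⟨fun x y => rfl⟩
    connected := (inferInstance : ConnectedSpace (Yq A)) }

lemma edist_Mf [Finite A] (x y : (Mf A).pt) :
    edist x y = riemannianEDist (M := Yq A) 𝓘(ℝ, EE) x y := rfl

lemma dist_Mf [Finite A] (x y : Yq A) :
    @dist (Mf A).pt _ x y = (riemannianEDist 𝓘(ℝ, EE) x y).toReal := rfl

lemma dist_bot {p q : PP} (hp : p ∈ SS) (hq : q ∈ SS) :
    @dist (Mf ⊥).pt _ (ptY ⊥ p) (ptY ⊥ q) = dd p q := by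
  rw [dist_Mf, redist_ptY_bot hp hq, dd]

/-! ### isometries of `M` -/

/-- the model coordinates of a point of `M` -/
def cP (q : Yq ⊥) : PP := (ptY_surj q).choose

lemma cP_mem (q : Yq ⊥) : cP q ∈ SS := (ptY_surj q).choose_spec.1

lemma ptY_cP (q : Yq ⊥) : ptY ⊥ (cP q) = q := (ptY_surj q).choose_spec.2

lemma ptY_bot_inj {p q : PP} (hp : p ∈ SS) (hq : q ∈ SS) (h : ptY ⊥ p = ptY ⊥ q) : p = q := by
  obtain ⟨a, ha, h1⟩ := (ptY_eq_iff hp hq).mp h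
  rw [Subgroup.mem_bot] at ha
  rw [← h1, ha]
  unfold Rg
  simp

lemma cP_ptY {p : PP} (hp : p ∈ SS) : cP (ptY ⊥ p) = p :=
  ptY_bot_inj (cP_mem _) hp (ptY_cP _)

/-- the permutation of `M` given by a symmetry -/
def eqM {Φ Ψ : PP → PP} (h : PEq Φ Ψ) : Yq ⊥ ≃ Yq ⊥ where
  toFun q := ptY ⊥ (Φ (cP q))
  invFun q := ptY ⊥ (Ψ (cP q))
  left_inv q := by
    simp only
    rw [cP_ptY (h.fst.mem _ (cP_mem q)), h.left _ (cP_mem q), ptY_cP]
  right_inv q := by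
    simp only
    rw [cP_ptY (h.snd.mem _ (cP_mem q)), h.right _ (cP_mem q), ptY_cP]

lemma eqM_ptY {Φ Ψ : PP → PP} (h : PEq Φ Ψ) {p : PP} (hp : p ∈ SS) :
    eqM h (ptY ⊥ p) = ptY ⊥ (Φ p) := by
  change ptY ⊥ (Φ (cP (ptY ⊥ p))) = _
  rw [cP_ptY hp]

lemma redist_eqM {Φ Ψ : PP → PP} (h : PEq Φ Ψ) (x y : Yq ⊥) :
    riemannianEDist 𝓘(ℝ, EE) (eqM h x) (eqM h y) = riemannianEDist 𝓘(ℝ, EE) x y := by
  obtain ⟨p, hp, rfl⟩ := ptY_surj x
  obtain ⟨q, hq, rfl⟩ := ptY_surj y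
  rw [eqM_ptY h hp, eqM_ptY h hq, redist_ptY_bot (h.fst.mem p hp) (h.fst.mem q hq),
    redist_ptY_bot hp hq, h.pD_eq hp hq]

/-- the isometry of `M` given by a symmetry -/
def isoM {Φ Ψ : PP → PP} (h : PEq Φ Ψ) : (Mf ⊥).pt ≃ᵢ (Mf ⊥).pt where
  toEquiv := eqM h
  isometry_toFun := fun p q => redist_eqM h p q

lemma isoM_ptY {Φ Ψ : PP → PP} (h : PEq Φ Ψ) {p : PP} (hp : p ∈ SS) :
    isoM h (ptY ⊥ p) = ptY ⊥ (Φ p) := eqM_ptY h hp

theorem weaklySymmetric_M : IsWeaklySymmetric (Mf ⊥).pt := by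
  intro x y
  obtain ⟨p, hp, rfl⟩ := ptY_surj x
  obtain ⟨q, hq, rfl⟩ := ptY_surj y
  obtain ⟨Φ, Ψ, h, h1, h2⟩ := exists_swap hp hq
  refine ⟨isoM h, ?_, ?_⟩
  · rw [isoM_ptY h hp, h1]
  · rw [isoM_ptY h hq, h2]

end Pool.Agent.H14.HC
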